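import Mathlib
set_option autoImplicit false
set_option linter.unusedVariables false

open Finset
open scoped ENNReal

namespace Pool.EQ

noncomputable section

instance fact4 : Fact ((1 : ℝ≥0∞) ≤ 4) := ⟨by norm_num⟩

/-- index set `[n]^4` -/
abbrev Idx (n : ℕ) := Fin 4 → Fin n

/-- the slice of `a` in direction `T`: the indices that agree with `a` outside `T` -/
def slc {n : ℕ} (T : Finset (Fin 4)) (a : Idx n) : Finset (Idx n) :=
  univ.filter (fun i : Idx n => ∀ l, l ∉ T → i l = a l)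

/-- slice sums -/
def Sl {n : ℕ} (T : Finset (Fin 4)) (v : Idx n → ℝ) (a : Idx n) : ℝ := ∑ i ∈ slc T a, v i

/-- `NT T v = ∑ over slices of (slice sum)^2` -/
def NT {n : ℕ} (T : Finset (Fin 4)) (v : Idx n → ℝ) : ℝ := ∑ i, v i * Sl T v i

/-- the polymatroid -/
def psi (T : Finset (Fin 4)) : ℕ :=
  if T.card = 0 then 0 else if T.card = 1 then 2 else if T.card = 2 ∧ T ≠ {0, 1} then 3 else 4

/-- first piece -/
def psi1 (T : Finset (Fin 4)) : ℕ :=
  if T.card = 0 then 0 else if T.card = 1 then 2 else if T.card = 2 then 3 else 4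

/-- second piece -/
def psi2 (T : Finset (Fin 4)) : ℕ :=
  (if 0 ∈ T then 1 else 0) + (if 1 ∈ T then 1 else 0) +
    min ((if 0 ∈ T then 1 else 0) + (if 1 ∈ T then 1 else 0) + (if 2 ∈ T ∨ 3 ∈ T then 1 else 0)) 2

/-- fourth power of the (equivalent) norm -/
def EN {n : ℕ} (m : ℕ) (ξ : Idx n → ℝ) : ℝ :=
  ∑ T : Finset (Fin 4), (1 / (m : ℝ)) ^ (psi T) * NT T (fun i => ξ i ^ 2)

/-- average over a finite type -/
def Av {Ω : Type} [Fintype Ω] (F : Ω → ℝ) : ℝ := (∑ w, F w) / (Fintype.card Ω : ℝ)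

open Classical in
/-- indicator of a proposition -/
def ind (P : Prop) : ℝ := if P then 1 else 0

/-- probability of an event -/
def Pr {Ω : Type} [Fintype Ω] (E : Ω → Prop) : ℝ := Av (fun w => ind (E w))

/-- signs -/
def sg (b : Bool) : ℝ := if b then 1 else -1

/-- fourth power of the norm -/
def EN4 {n : ℕ} (m : ℕ) (ξ : Idx n → ℝ) : ℝ :=
  ∑ T : Finset (Fin 4), (1 / (m : ℝ)) ^ (psi T) * ((1 / (n : ℝ)) ^ T.card *
    ∑ a : Idx n, Av (fun ε : Idx n → Bool => (∑ i ∈ slc T a, sg (ε i) * ξ i) ^ 4))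

/-- random matching structures: `M i` is an event of probability `m^{-p}`; two of them meet with
probability at most `m^{-p-d(D)}` where `D` is the set of coordinates where the indices differ; the union over a
slice in direction `T` has probability at most `m^{-u(T)}`. -/
structure Good (n m : ℕ) (Λ : Type) [Fintype Λ] (M : Idx n → Λ → Prop) (p : ℕ)
    (d u : Finset (Fin 4) → ℕ) : Prop where
  one : ∀ i, Pr (M i) = (1 / (m : ℝ)) ^ p
  two : ∀ i i' : Idx n, Pr (fun w => M i w ∧ M i' w) ≤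
    (1 / (m : ℝ)) ^ (p + d (univ.filter fun l => i l ≠ i' l))
  uni : ∀ (T : Finset (Fin 4)) (a : Idx n), Pr (fun w => ∃ i ∈ slc T a, M i w) ≤ (1 / (m : ℝ)) ^ (u T)

/-- the quotient map of a matching structure -/
def PiM {n : ℕ} (m : ℕ) {Λ : Type} [Fintype Λ] (M : Idx n → Λ → Prop)
    (F : Λ × (Idx n → Bool) → ℝ) (i : Idx n) : ℝ :=
  Av (fun z : Λ × (Idx n → Bool) => F z * (sg (z.2 i) * ((m : ℝ) ^ 3 * ind (M i z.1))))

/-- the lifting of a matching structure -/
def LfM {n : ℕ} (m : ℕ) {Λ : Type} [Fintype Λ] (M : Idx n → Λ → Prop)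
    (ξ : Idx n → ℝ) (z : Λ × (Idx n → Bool)) : ℝ :=
  ∑ i, ξ i * (sg (z.2 i) * ((m : ℝ) * ind (M i z.1)))

/-- marginal of `q` where the coordinates in `T` are forgotten -/
def qT {n : ℕ} {K : Type} (T : Finset (Fin 4)) (q : Idx n × K → ℝ) (z : Idx n × K) : ℝ :=
  ∑ i ∈ slc T z.1, q (i, z.2)

/-- entropy of the coordinates outside `T` together with `K` -/
def HT {n : ℕ} {K : Type} [Fintype K] (T : Finset (Fin 4)) (q : Idx n × K → ℝ) : ℝ :=
  - ∑ z, q z * Real.log (qT T q z)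

/-- entropy of the random variable `X` -/
def Hm {Ω A : Type} [Fintype Ω] [DecidableEq A] (p : Ω → ℝ) (X : Ω → A) : ℝ :=
  - ∑ w, p w * Real.log (∑ w' ∈ univ.filter (fun w' => X w' = X w), p w')

/-- the copy distribution: the sixth coordinate is a conditionally independent copy of the third given
the first, the second and the fifth. -/
def cpy {α β γ δ κ : Type} [Fintype γ] [Fintype δ] (p : α × β × γ × δ × κ → ℝ) :
    (α × β × γ × δ × κ) × γ → ℝ := fun z =>
  p z.1 * (∑ d, p (z.1.1, z.1.2.1, z.2, d, z.1.2.2.2.2)) /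
    (∑ c, ∑ d, p (z.1.1, z.1.2.1, c, d, z.1.2.2.2.2))

end

end Pool.EQ
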