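import Pool.Agent.Helper364.EQ.Defs
set_option autoImplicit false
set_option linter.unusedVariables false

open Finset
open scoped ENNReal

namespace Pool.EQ

noncomputable section


--#TARGET: prove this one (put helper lemmas between this line and the target, prefix their names with `KH4_`)


theorem KH4_add {Ω : Type} [Fintype Ω] (F G : Ω → ℝ) :
    Av (fun w => F w + G w) = Av F + Av G := by
  unfold Av
  rw [Finset.sum_add_distrib, add_div]

theorem KH4_mul {Ω : Type} [Fintype Ω] (c : ℝ) (F : Ω → ℝ) :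
    Av (fun w => c * F w) = c * Av F := by
  unfold Av
  rw [← Finset.mul_sum, mul_div_assoc]

theorem KH4_const {Ω : Type} [Fintype Ω] [Nonempty Ω] (c : ℝ) :
    Av (fun _ : Ω => c) = c := by
  unfold Av
  rw [Finset.sum_const, Finset.card_univ, nsmul_eq_mul, mul_comm, mul_div_assoc, div_self, mul_one]
  exact_mod_cast Fintype.card_ne_zero

theorem KH4_flip {ι : Type} [Fintype ι] [DecidableEq ι] (j : ι) (G : (ι → Bool) → ℝ)
    (hG : ∀ ε, G (Function.update ε j (!(ε j))) = - G ε) : Av G = 0 := by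
  have hinv : Function.Involutive (fun ε : ι → Bool => Function.update ε j (!(ε j))) := by
    intro ε
    ext l
    by_cases h : l = j
    · subst h
      simp
    · simp [h]
  have h1 : ∑ ε, G ε = ∑ ε, G (Function.update ε j (!(ε j))) :=
    (Equiv.sum_comp hinv.toPerm G).symm
  have h2 : ∑ ε, G (Function.update ε j (!(ε j))) = - ∑ ε, G ε := by
    rw [← Finset.sum_neg_distrib]
    exact Finset.sum_congr rfl fun ε _ => hG ε
  unfold Av
  have h3 : ∑ ε, G ε = 0 := by linarith
  rw [h3, zero_div]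

theorem KH4_sg (b : Bool) : sg (!b) = - sg b := by
  cases b <;> simp [sg]

theorem KH4_sg2 (b : Bool) : sg b ^ 2 = 1 := by
  cases b <;> simp [sg]

theorem KH4_S {ι : Type} [Fintype ι] [DecidableEq ι] (s : Finset ι) (a : ι → ℝ) (j : ι)
    (hj : j ∉ s) (ε : ι → Bool) (b : Bool) :
    ∑ i ∈ s, sg (Function.update ε j b i) * a i = ∑ i ∈ s, sg (ε i) * a i := by
  refine Finset.sum_congr rfl fun i hi => ?_
  rw [Function.update_of_ne]
  rintro rfl
  exact hj hi

/-- HINT: induct on `s`: with `S = ∑ ε_i a_i`, `V = ∑ a_i²`: `E S² = V`, `E (S+ε a)⁴ = E S⁴ + 6 a² E S² + a⁴`, odd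
moments vanish by the symmetry of `ε_j`, `j ∉ s`; `V² + 6a²V + a⁴ ≥ (V + a²)²` and `3V²+6a²V+a⁴ ≤ 3(V+a²)²`. -/
theorem KH4 {ι : Type} [Fintype ι] [DecidableEq ι] (s : Finset ι) (a : ι → ℝ) :
    (∑ i ∈ s, a i ^ 2) ^ 2 ≤ Av (fun ε : ι → Bool => (∑ i ∈ s, sg (ε i) * a i) ^ 4) ∧
    Av (fun ε : ι → Bool => (∑ i ∈ s, sg (ε i) * a i) ^ 4) ≤ 3 * (∑ i ∈ s, a i ^ 2) ^ 2 ∧
    Av (fun ε : ι → Bool => (∑ i ∈ s, sg (ε i) * a i) ^ 2) = ∑ i ∈ s, a i ^ 2 := by
  induction s using Finset.induction_on with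
  | empty =>
    simp only [Finset.sum_empty]
    have h1 : Av (fun _ : ι → Bool => (0 : ℝ) ^ 4) = 0 := by
      rw [KH4_const]; norm_num
    have h2 : Av (fun _ : ι → Bool => (0 : ℝ) ^ 2) = 0 := by
      rw [KH4_const]; norm_num
    rw [h1, h2]
    norm_num
  | insert j s hj ih =>
    obtain ⟨ih1, ih2, ih3⟩ := ih
    have h2 : Av (fun ε : ι → Bool => (∑ i ∈ insert j s, sg (ε i) * a i) ^ 2) =
        ∑ i ∈ insert j s, a i ^ 2 := by
      have e1 : (fun ε : ι → Bool => (∑ i ∈ insert j s, sg (ε i) * a i) ^ 2) =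
          fun ε => ((∑ i ∈ s, sg (ε i) * a i) ^ 2 + a j ^ 2) +
            (2 * a j * sg (ε j)) * (∑ i ∈ s, sg (ε i) * a i) := by
        funext ε
        rw [Finset.sum_insert hj]
        have := KH4_sg2 (ε j)
        linear_combination (a j ^ 2) * this
      have e2 : Av (fun ε : ι → Bool => (2 * a j * sg (ε j)) * (∑ i ∈ s, sg (ε i) * a i)) = 0 := by
        apply KH4_flip j
        intro ε
        rw [KH4_S s a j hj, Function.update_self, KH4_sg]
        ring
      rw [e1, KH4_add, e2, KH4_add, ih3, KH4_const, Finset.sum_insert hj]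
      ring
    have h4 : Av (fun ε : ι → Bool => (∑ i ∈ insert j s, sg (ε i) * a i) ^ 4) =
        Av (fun ε : ι → Bool => (∑ i ∈ s, sg (ε i) * a i) ^ 4) +
          6 * a j ^ 2 * (∑ i ∈ s, a i ^ 2) + a j ^ 4 := by
      have e1 : (fun ε : ι → Bool => (∑ i ∈ insert j s, sg (ε i) * a i) ^ 4) =
          fun ε => (((∑ i ∈ s, sg (ε i) * a i) ^ 4 + (6 * a j ^ 2) *
            (∑ i ∈ s, sg (ε i) * a i) ^ 2) + a j ^ 4) +
            (4 * a j * sg (ε j)) * ((∑ i ∈ s, sg (ε i) * a i) ^ 3 +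
              a j ^ 2 * (∑ i ∈ s, sg (ε i) * a i)) := by
        funext ε
        rw [Finset.sum_insert hj]
        have := KH4_sg2 (ε j)
        generalize (∑ i ∈ s, sg (ε i) * a i) = S at *
        generalize sg (ε j) = t at *
        have t3 : t ^ 3 = t := by
          calc t ^ 3 = t ^ 2 * t := by ring
            _ = t := by rw [this, one_mul]
        have t4 : t ^ 4 = 1 := by
          calc t ^ 4 = t ^ 2 * t ^ 2 := by ring
            _ = 1 := by rw [this, one_mul]
        linear_combination (6 * a j ^ 2 * S ^ 2) * this + (4 * a j ^ 3 * S) * t3 + (a j ^ 4) * t4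
      have e2 : Av (fun ε : ι → Bool => (4 * a j * sg (ε j)) * ((∑ i ∈ s, sg (ε i) * a i) ^ 3 +
              a j ^ 2 * (∑ i ∈ s, sg (ε i) * a i))) = 0 := by
        apply KH4_flip j
        intro ε
        rw [KH4_S s a j hj, Function.update_self, KH4_sg]
        ring
      rw [e1, KH4_add, e2, KH4_add, KH4_add, KH4_mul, ih3, KH4_const]
      ring
    refine ⟨?_, ?_, h2⟩
    · rw [h4, Finset.sum_insert hj]
      nlinarith [mul_nonneg (sq_nonneg (a j)) (Finset.sum_nonneg fun i (_ : i ∈ s) => sq_nonneg (a i))]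
    · rw [h4, Finset.sum_insert hj]
      nlinarith [sq_nonneg (a j ^ 2)]

end

end Pool.EQ
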