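import Pool.Agent.Helper364.EQ.Defs
set_option autoImplicit false
set_option linter.unusedVariables false

open Finset
open scoped ENNReal

namespace Pool.EQ

noncomputable section


--#TARGET: prove this one (put helper lemmas between this line and the target, prefix their names with `NT_eq_`)

theorem NT_eq_card {n : ℕ} (T : Finset (Fin 4)) (i : Idx n) : (slc T i).card = n ^ T.card := by
  classical
  have h : slc T i = Fintype.piFinset (fun l => if l ∈ T then (univ : Finset (Fin n)) else {i l}) := by
    ext a
    simp only [slc, mem_filter, mem_univ, true_and, Fintype.mem_piFinset]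
    refine forall_congr' fun l => ?_
    by_cases hl : l ∈ T
    · simp [hl]
    · simp [hl]
  rw [h, Fintype.card_piFinset]
  have : ∀ l : Fin 4, (if l ∈ T then (univ : Finset (Fin n)) else {i l}).card =
      if l ∈ T then n else 1 := by
    intro l; split_ifs <;> simp
  simp only [this]
  rw [Finset.prod_ite]
  simp

theorem NT_eq_mem {n : ℕ} (T : Finset (Fin 4)) (a i : Idx n) : i ∈ slc T a ↔ a ∈ slc T i := by
  simp only [slc, mem_filter, mem_univ, true_and]
  constructor <;> intro h l hl <;> exact (h l hl).symm

theorem NT_eq_slc {n : ℕ} (T : Finset (Fin 4)) (a i : Idx n) (h : i ∈ slc T a) :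
    slc T a = slc T i := by
  simp only [slc, mem_filter, mem_univ, true_and] at h
  ext b
  simp only [slc, mem_filter, mem_univ, true_and]
  constructor
  · intro hb l hl; rw [hb l hl, h l hl]
  · intro hb l hl; rw [hb l hl, h l hl]

/-- HINT: both sides are `∑_{i,i' agreeing outside T} v i v i'`; every pair lies in the slice of exactly `n^{|T|}`
indices `a`. -/
theorem NT_eq {n : ℕ} (hn : 1 ≤ n) (T : Finset (Fin 4)) (v : Idx n → ℝ) :
    NT T v = (1 / (n : ℝ)) ^ T.card * ∑ a : Idx n, (Sl T v a) ^ 2 := by
  classical
  have h1 : ∑ a : Idx n, (Sl T v a) ^ 2 = (n : ℝ) ^ T.card * NT T v := by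
    calc ∑ a : Idx n, (Sl T v a) ^ 2 = ∑ a : Idx n, ∑ i ∈ slc T a, v i * Sl T v i := by
          refine Finset.sum_congr rfl fun a _ => ?_
          have : ∀ i ∈ slc T a, v i * Sl T v i = v i * Sl T v a := by
            intro i hi
            unfold Sl
            rw [NT_eq_slc T a i hi]
          rw [Finset.sum_congr rfl this, ← Finset.sum_mul, sq]
          rfl
      _ = ∑ i : Idx n, ∑ a ∈ slc T i, v i * Sl T v i := by
          refine Finset.sum_comm' fun a i => ?_
          simp only [mem_univ, true_and, and_true]
          exact NT_eq_mem T a i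
      _ = (n : ℝ) ^ T.card * NT T v := by
          unfold NT
          rw [Finset.mul_sum]
          refine Finset.sum_congr rfl fun i _ => ?_
          rw [Finset.sum_const, NT_eq_card, nsmul_eq_mul]
          push_cast
          ring
  rw [h1, ← mul_assoc, ← mul_pow]
  have hn' : (n : ℝ) ≠ 0 := by
    have : 0 < n := hn
    positivity
  rw [one_div, inv_mul_cancel₀ hn', one_pow, one_mul]

end

end Pool.EQ
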