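import Pool.Agent.Helper364.EQ.Defs
import Pool.Agent.Helper364.EQ.P_KH4
import Pool.Agent.Helper364.EQ.P_NT_eq
set_option autoImplicit false
set_option linter.unusedVariables false

open Finset
open scoped ENNReal

namespace Pool.EQ

noncomputable section





--#TARGET: prove this one (put helper lemmas between this line and the target, prefix their names with `EN_EN4_`)

/-- HINT: termwise: `KH4` with `s = slc T a`, `a = ξ`, and `NT_eq` for `v = ξ²`. -/
theorem EN_EN4 {n : ℕ} (hn : 1 ≤ n) (m : ℕ) (ξ : Idx n → ℝ) : EN m ξ ≤ EN4 m ξ ∧ EN4 m ξ ≤ 3 * EN m ξ := by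
  have hm : (0 : ℝ) ≤ 1 / (m : ℝ) := by positivity
  have hn' : (0 : ℝ) ≤ 1 / (n : ℝ) := by positivity
  constructor
  · unfold EN EN4
    refine Finset.sum_le_sum fun T _ => ?_
    rw [NT_eq hn]
    refine mul_le_mul_of_nonneg_left ?_ (pow_nonneg hm _)
    refine mul_le_mul_of_nonneg_left ?_ (pow_nonneg hn' _)
    refine Finset.sum_le_sum fun a _ => ?_
    exact (KH4 (slc T a) ξ).1
  · unfold EN EN4
    rw [Finset.mul_sum]
    refine Finset.sum_le_sum fun T _ => ?_
    rw [NT_eq hn]
    have h : ∑ a : Idx n, Av (fun ε : Idx n → Bool => (∑ i ∈ slc T a, sg (ε i) * ξ i) ^ 4) ≤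
        3 * ∑ a : Idx n, (Sl T (fun i => ξ i ^ 2) a) ^ 2 := by
      rw [Finset.mul_sum]
      refine Finset.sum_le_sum fun a _ => ?_
      exact (KH4 (slc T a) ξ).2.1
    have h2 := mul_le_mul_of_nonneg_left (mul_le_mul_of_nonneg_left h (pow_nonneg hn' T.card)) (pow_nonneg hm (psi T))
    refine h2.trans (le_of_eq ?_)
    ring

end

end Pool.EQ
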