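import Pool.Agent.Helper364.EQ.Defs
set_option autoImplicit false
set_option linter.unusedVariables false

open Finset
open scoped ENNReal

namespace Pool.EQ

noncomputable section


--#TARGET: prove this one (put helper lemmas between this line and the target, prefix their names with `NT_basic_`)

theorem NT_basic_mem {n : ℕ} (T : Finset (Fin 4)) (a i : Idx n) :
    i ∈ slc T a ↔ ∀ l, l ∉ T → i l = a l := by
  unfold slc
  simp

theorem NT_basic_slc {n : ℕ} (T : Finset (Fin 4)) (a i : Idx n) (h : i ∈ slc T a) :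
    slc T i = slc T a := by
  rw [NT_basic_mem] at h
  ext j
  rw [NT_basic_mem, NT_basic_mem]
  constructor
  · intro hj l hl
    rw [hj l hl, h l hl]
  · intro hj l hl
    rw [hj l hl, h l hl]

theorem NT_basic_Sl_nonneg {n : ℕ} (T : Finset (Fin 4)) (v : Idx n → ℝ) (hv : ∀ i, 0 ≤ v i)
    (a : Idx n) : 0 ≤ Sl T v a := Finset.sum_nonneg fun i _ => hv i

theorem NT_basic_T {n : ℕ} (T T' : Finset (Fin 4)) (v : Idx n → ℝ) (hv : ∀ i, 0 ≤ v i)
    (h : T ⊆ T') : NT T v ≤ NT T' v := by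
  unfold NT
  refine Finset.sum_le_sum fun i _ => mul_le_mul_of_nonneg_left ?_ (hv i)
  refine Finset.sum_le_sum_of_subset_of_nonneg ?_ fun j _ _ => hv j
  intro j hj
  rw [NT_basic_mem] at hj ⊢
  exact fun l hl => hj l fun h' => hl (h h')

theorem NT_basic_univ {n : ℕ} (v : Idx n → ℝ) : NT univ v = (∑ i, v i) ^ 2 := by
  have h : ∀ a : Idx n, Sl univ v a = ∑ i, v i := by
    intro a
    unfold Sl
    congr 1
    ext j
    rw [NT_basic_mem]
    simp
  unfold NT
  simp only [h]
  rw [← Finset.sum_mul, sq]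

/-- HINT: `NT T v = ∑_{i} ∑_{i' ∈ slc T i} v i v i'`; all terms are nonnegative. -/
theorem NT_basic {n : ℕ} (T : Finset (Fin 4)) (v : Idx n → ℝ) (hv : ∀ i, 0 ≤ v i) :
    0 ≤ NT T v ∧
    (∀ a, (Sl T v a) ^ 2 ≤ NT T v) ∧
    (∀ v' : Idx n → ℝ, (∀ i, v i ≤ v' i) → NT T v ≤ NT T v') ∧
    (∀ T', T ⊆ T' → NT T v ≤ NT T' v) ∧
    NT univ v = (∑ i, v i) ^ 2 ∧ NT ∅ v = ∑ i, v i ^ 2 ∧ NT T v ≤ (∑ i, v i) ^ 2 := by
  refine ⟨?_, ?_, ?_, ?_, NT_basic_univ v, ?_, ?_⟩
  · exact Finset.sum_nonneg fun i _ => mul_nonneg (hv i) (NT_basic_Sl_nonneg T v hv i)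
  · intro a
    have h1 : (Sl T v a) ^ 2 = ∑ i ∈ slc T a, v i * Sl T v i := by
      rw [sq]
      conv_lhs => rw [show Sl T v a = ∑ i ∈ slc T a, v i from rfl]
      rw [Finset.sum_mul]
      refine Finset.sum_congr rfl fun i hi => ?_
      congr 1
      unfold Sl
      rw [NT_basic_slc T a i hi]
    rw [h1]
    exact Finset.sum_le_sum_of_subset_of_nonneg (Finset.subset_univ _) fun i _ _ =>
      mul_nonneg (hv i) (NT_basic_Sl_nonneg T v hv i)
  · intro v' hv'
    unfold NT
    refine Finset.sum_le_sum fun i _ => mul_le_mul (hv' i) ?_ (NT_basic_Sl_nonneg T v hv i)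
      ((hv i).trans (hv' i))
    exact Finset.sum_le_sum fun j _ => hv' j
  · intro T' h
    exact NT_basic_T T T' v hv h
  · unfold NT
    refine Finset.sum_congr rfl fun i _ => ?_
    have h : slc ∅ i = {i} := by
      ext j
      rw [NT_basic_mem, Finset.mem_singleton]
      constructor
      · intro hj
        funext l
        exact hj l (Finset.notMem_empty l)
      · rintro rfl l _
        rfl
    unfold Sl
    rw [h, Finset.sum_singleton, sq]
  · rw [← NT_basic_univ v]
    exact NT_basic_T T univ v hv (Finset.subset_univ _)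

end

end Pool.EQ
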