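import Pool.Agent.Helper364.EQ.Defs
set_option autoImplicit false
set_option linter.unusedVariables false

open Finset
open scoped ENNReal

namespace Pool.EQ

noncomputable section


--#TARGET: prove this one (put helper lemmas between this line and the target, prefix their names with `Hm_inj_`)

/-- entropy depends only on the partition. HINT: the filters are equal. -/
theorem Hm_inj {Ω A B : Type} [Fintype Ω] [DecidableEq A] [DecidableEq B] (p : Ω → ℝ) (X : Ω → A) (Y : Ω → B)
    (h : ∀ w w', X w = X w' ↔ Y w = Y w') : Hm p X = Hm p Y := by
  unfold Hm
  congr 1
  refine Finset.sum_congr rfl (fun w _ => ?_)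
  congr 2
  refine Finset.sum_congr ?_ (fun _ _ => rfl)
  ext w'
  simp only [Finset.mem_filter, Finset.mem_univ, true_and]
  exact h w' w

end

end Pool.EQ
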