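import Pool.Agent.Helper364.EQ.Defs
set_option autoImplicit false
set_option linter.unusedVariables false

open Finset
open scoped ENNReal

namespace Pool.EQ

noncomputable section


--#TARGET: prove this one (put helper lemmas between this line and the target, prefix their names with `Hm_push_`)

/-- entropy of a function of `π`. HINT: `p w = ∑_{z : π z = w} P z`; regroup the sums along the fibres of `π`. -/
theorem Hm_push {Ω' Ω A : Type} [Fintype Ω'] [Fintype Ω] [DecidableEq Ω] [DecidableEq A] (P : Ω' → ℝ)
    (p : Ω → ℝ) (π : Ω' → Ω) (h : ∀ w, ∑ z ∈ univ.filter (fun z => π z = w), P z = p w) (X : Ω → A) :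
    Hm P (fun z => X (π z)) = Hm p X := by
  have key : ∀ g : Ω → ℝ, ∑ z, P z * g (π z) = ∑ w, p w * g w := by
    intro g
    rw [← Finset.sum_fiberwise univ π (fun z => P z * g (π z))]
    refine Finset.sum_congr rfl fun w _ => ?_
    rw [← h w, Finset.sum_mul]
    refine Finset.sum_congr rfl fun z hz => ?_
    rw [(Finset.mem_filter.mp hz).2]
  have h1 : ∀ a : A, ∑ z' ∈ univ.filter (fun z' => X (π z') = a), P z' =
      ∑ w' ∈ univ.filter (fun w' => X w' = a), p w' := by
    intro a
    have h2 := key (fun w => if X w = a then 1 else 0)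
    simp only [mul_ite, mul_one, mul_zero] at h2
    rw [Finset.sum_filter, Finset.sum_filter]
    exact h2
  unfold Hm
  rw [neg_inj]
  simp only [h1]
  exact key (fun w => Real.log (∑ w' ∈ univ.filter (fun w' => X w' = X w), p w'))

end

end Pool.EQ
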