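import Pool.Agent.Helper364.EQ.Defs
set_option autoImplicit false
set_option linter.unusedVariables false

open Finset
open scoped ENNReal

namespace Pool.EQ

noncomputable section


--#TARGET: prove this one (put helper lemmas between this line and the target, prefix their names with `Hm_markov_`)

theorem Hm_markov_pos {Ω A : Type} [Fintype Ω] [DecidableEq A] (p : Ω → ℝ)
    (hp : ∀ w, 0 ≤ p w) (X : Ω → A) (w : Ω) (hw : 0 < p w) :
    0 < ∑ w' ∈ univ.filter (fun w' => X w' = X w), p w' := by
  have h1 : p w ≤ ∑ w' ∈ univ.filter (fun w' => X w' = X w), p w' :=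
    Finset.single_le_sum (f := p) (fun i _ => hp i) (Finset.mem_filter.2 ⟨Finset.mem_univ w, rfl⟩)
  linarith

/-- HINT: take logarithms of the product formula on the support of `p` (all four probabilities are positive there). -/
theorem Hm_markov {Ω A B C : Type} [Fintype Ω] [DecidableEq A] [DecidableEq B] [DecidableEq C] (p : Ω → ℝ)
    (hp : ∀ w, 0 ≤ p w) (X : Ω → A) (Y : Ω → B) (Z : Ω → C)
    (h : ∀ w, (∑ w' ∈ univ.filter (fun w' => (X w', Y w', Z w') = (X w, Y w, Z w)), p w') *
        (∑ w' ∈ univ.filter (fun w' => Z w' = Z w), p w') =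
      (∑ w' ∈ univ.filter (fun w' => (X w', Z w') = (X w, Z w)), p w') *
        (∑ w' ∈ univ.filter (fun w' => (Y w', Z w') = (Y w, Z w)), p w')) :
    Hm p (fun w => (X w, Y w, Z w)) + Hm p Z = Hm p (fun w => (X w, Z w)) + Hm p (fun w => (Y w, Z w)) := by
  unfold Hm
  rw [← neg_add, ← neg_add, ← Finset.sum_add_distrib, ← Finset.sum_add_distrib]
  congr 1
  apply Finset.sum_congr rfl
  intro w _
  rcases (hp w).eq_or_lt with h0 | h0
  · rw [← h0]
    ring
  · have h1 := Hm_markov_pos p hp (fun w => (X w, Y w, Z w)) w h0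
    have h2 := Hm_markov_pos p hp Z w h0
    have h3 := Hm_markov_pos p hp (fun w => (X w, Z w)) w h0
    have h4 := Hm_markov_pos p hp (fun w => (Y w, Z w)) w h0
    rw [← mul_add, ← mul_add]
    congr 1
    rw [← Real.log_mul h1.ne' h2.ne', ← Real.log_mul h3.ne' h4.ne']
    congr 1
    exact h w

end

end Pool.EQ
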