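import Pool.Agent.Helper364.EQ.Defs
set_option autoImplicit false
set_option linter.unusedVariables false

open Finset
open scoped ENNReal

namespace Pool.EQ

noncomputable section


--#TARGET: prove this one (put helper lemmas between this line and the target, prefix their names with `cpy_facts_`)

theorem cpy_facts {α β γ δ κ : Type} [Fintype α] [Fintype β] [Fintype γ] [Fintype δ] [Fintype κ]
    [DecidableEq α] [DecidableEq β] [DecidableEq γ] [DecidableEq δ] [DecidableEq κ]
    (p : α × β × γ × δ × κ → ℝ) (hp : ∀ z, 0 ≤ p z) :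
    (∀ z, 0 ≤ cpy p z) ∧
    (∀ w, ∑ z ∈ univ.filter (fun z : (α × β × γ × δ × κ) × γ => z.1 = w), cpy p z = p w) ∧
    (∀ w : α × β × γ × κ, ∑ z ∈ univ.filter (fun z : (α × β × γ × δ × κ) × γ =>
        (z.1.1, z.1.2.1, z.2, z.1.2.2.2.2) = w), cpy p z = ∑ d, p (w.1, w.2.1, w.2.2.1, d, w.2.2.2)) := by
  have hN : ∀ a b c k, 0 ≤ ∑ d, p (a, b, c, d, k) := fun a b c k =>
    Finset.sum_nonneg fun d _ => hp _
  have hD : ∀ a b k, 0 ≤ ∑ c, ∑ d, p (a, b, c, d, k) := fun a b k =>
    Finset.sum_nonneg fun c _ => hN a b c k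
  have hN0 : ∀ a b k, ∑ c, ∑ d, p (a, b, c, d, k) = 0 → ∀ c, ∑ d, p (a, b, c, d, k) = 0 := by
    intro a b k h c
    exact (Finset.sum_eq_zero_iff_of_nonneg (fun c _ => hN a b c k)).1 h c (Finset.mem_univ c)
  have hp0 : ∀ a b k, ∑ c, ∑ d, p (a, b, c, d, k) = 0 → ∀ c d, p (a, b, c, d, k) = 0 := by
    intro a b k h c d
    exact (Finset.sum_eq_zero_iff_of_nonneg (fun d _ => hp (a, b, c, d, k))).1 (hN0 a b k h c) d
      (Finset.mem_univ d)
  refine ⟨?_, ?_, ?_⟩
  · intro z
    exact div_nonneg (mul_nonneg (hp _) (hN _ _ _ _)) (hD _ _ _)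
  · rintro ⟨a, b, c, d, k⟩
    have e1 : ∑ z ∈ univ.filter (fun z : (α × β × γ × δ × κ) × γ => z.1 = (a, b, c, d, k)),
        cpy p z = ∑ r : γ, cpy p ((a, b, c, d, k), r) := by
      refine Finset.sum_nbij' (fun z => z.2) (fun r => ((a, b, c, d, k), r)) ?_ ?_ ?_ ?_ ?_
      · intro z _; exact Finset.mem_univ _
      · intro r _; simp
      · rintro ⟨z, r⟩ hz
        rw [Finset.mem_filter] at hz
        have := hz.2
        simp only at this
        rw [this]
      · intro r _; rfl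
      · rintro ⟨z, r⟩ hz
        rw [Finset.mem_filter] at hz
        have := hz.2
        simp only at this
        rw [this]
    rw [e1]
    have e2 : ∀ r : γ, cpy p ((a, b, c, d, k), r) =
        p (a, b, c, d, k) / (∑ c, ∑ d, p (a, b, c, d, k)) * ∑ d, p (a, b, r, d, k) := by
      intro r
      unfold cpy
      ring
    rw [Finset.sum_congr rfl fun r _ => e2 r, ← Finset.mul_sum]
    by_cases h : ∑ c, ∑ d, p (a, b, c, d, k) = 0
    · rw [hp0 a b k h c d, h]; simp
    · exact div_mul_cancel₀ _ h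
  · rintro ⟨a, b, r, k⟩
    have e1 : ∑ z ∈ univ.filter (fun z : (α × β × γ × δ × κ) × γ =>
        (z.1.1, z.1.2.1, z.2, z.1.2.2.2.2) = (a, b, r, k)), cpy p z
        = ∑ q : γ × δ, cpy p ((a, b, q.1, q.2, k), r) := by
      refine Finset.sum_nbij' (fun z => (z.1.2.2.1, z.1.2.2.2.1))
        (fun q => ((a, b, q.1, q.2, k), r)) ?_ ?_ ?_ ?_ ?_
      · intro z _; exact Finset.mem_univ _
      · intro q _; simp
      · rintro ⟨⟨a', b', c', d', k'⟩, r'⟩ hz
        rw [Finset.mem_filter] at hz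
        have := hz.2
        simp only [Prod.mk.injEq] at this
        obtain ⟨h1, h2, h3, h4⟩ := this
        subst h1 h2 h3 h4
        rfl
      · intro q _; rfl
      · rintro ⟨⟨a', b', c', d', k'⟩, r'⟩ hz
        rw [Finset.mem_filter] at hz
        have := hz.2
        simp only [Prod.mk.injEq] at this
        obtain ⟨h1, h2, h3, h4⟩ := this
        subst h1 h2 h3 h4
        rfl
    rw [e1]
    show _ = ∑ d, p (a, b, r, d, k)
    have e2 : ∀ q : γ × δ, cpy p ((a, b, q.1, q.2, k), r) =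
        p (a, b, q.1, q.2, k) * ((∑ d, p (a, b, r, d, k)) / (∑ c, ∑ d, p (a, b, c, d, k))) := by
      intro q
      unfold cpy
      ring
    rw [Finset.sum_congr rfl fun q _ => e2 q, ← Finset.sum_mul]
    have e3 : ∑ q : γ × δ, p (a, b, q.1, q.2, k) = ∑ c, ∑ d, p (a, b, c, d, k) :=
      Fintype.sum_prod_type' (fun c d => p (a, b, c, d, k))
    rw [e3]
    by_cases h : ∑ c, ∑ d, p (a, b, c, d, k) = 0
    · rw [hN0 a b k h r, h]; simp
    · exact mul_div_cancel₀ _ h

end

end Pool.EQ
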