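import Pool.Agent.Helper364.EQ.Defs
set_option autoImplicit false
set_option linter.unusedVariables false

open Finset
open scoped ENNReal

namespace Pool.EQ

noncomputable section


--#TARGET: prove this one (put helper lemmas between this line and the target, prefix their names with `cpy_markov_`)

theorem cpy_markov_G {α β γ δ κ : Type} [Fintype α] [Fintype β] [Fintype γ] [Fintype δ] [Fintype κ]
    [DecidableEq α] [DecidableEq β] [DecidableEq κ]
    (p : α × β × γ × δ × κ → ℝ) (a0 : α) (b0 : β) (k0 : κ) :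
    ∑ x ∈ univ.filter (fun x : α × β × γ × δ × κ => (x.1, x.2.1, x.2.2.2.2) = (a0, b0, k0)), p x =
      ∑ c, ∑ d, p (a0, b0, c, d, k0) := by
  rw [← Fintype.sum_prod_type' (f := fun (c : γ) (d : δ) => p (a0, b0, c, d, k0))]
  refine Finset.sum_nbij' (fun x => (x.2.2.1, x.2.2.2.1))
    (fun q => (a0, b0, q.1, q.2, k0)) ?_ ?_ ?_ ?_ ?_
  · intro x _; exact Finset.mem_univ _
  · intro q _; simp
  · rintro ⟨a, b, c, d, k⟩ hx
    simp only [Finset.mem_filter, Finset.mem_univ, true_and, Prod.mk.injEq] at hx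
    obtain ⟨rfl, rfl, rfl⟩ := hx
    rfl
  · rintro ⟨c, d⟩ _; rfl
  · rintro ⟨a, b, c, d, k⟩ hx
    simp only [Finset.mem_filter, Finset.mem_univ, true_and, Prod.mk.injEq] at hx
    obtain ⟨rfl, rfl, rfl⟩ := hx
    rfl

theorem cpy_markov_main {α β γ δ κ : Type} [Fintype α] [Fintype β] [Fintype γ] [Fintype δ]
    [Fintype κ] (p : α × β × γ × δ × κ → ℝ) (a0 : α) (b0 : β) (k0 : κ)
    (A : α × β × γ × δ × κ → Prop) [DecidablePred A] (B : γ → Prop) [DecidablePred B]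
    (hA : ∀ x, A x → x.1 = a0 ∧ x.2.1 = b0 ∧ x.2.2.2.2 = k0) (F : Finset ((α × β × γ × δ × κ) × γ))
    (hF : ∀ z, z ∈ F ↔ A z.1 ∧ B z.2) :
    ∑ z ∈ F, cpy p z = (∑ x ∈ univ.filter A, p x) *
      (∑ r ∈ univ.filter B, ∑ d, p (a0, b0, r, d, k0)) / (∑ c, ∑ d, p (a0, b0, c, d, k0)) := by
  have hFe : F = (univ.filter A) ×ˢ (univ.filter B) := by
    ext z
    rw [hF, Finset.mem_product]
    simp
  rw [hFe, Finset.sum_product, Finset.sum_mul, Finset.sum_div]
  refine Finset.sum_congr rfl (fun x hx => ?_)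
  rw [Finset.mul_sum, Finset.sum_div]
  refine Finset.sum_congr rfl (fun r _ => ?_)
  have hAx := hA x (Finset.mem_filter.1 hx).2
  obtain ⟨a, b, c, d, k⟩ := x
  obtain ⟨h1, h2, h3⟩ := hAx
  simp only at h1 h2 h3
  subst h1 h2 h3
  rfl

/-- the copy is conditionally independent of everything given `(a,b,k)`: for every function `Y` of the first five
coordinates. HINT: with `G(a,b,k) = ∑_{c,d} p`, `g(a,b,r,k) = ∑_d p(a,b,r,d,k)`, the probability that
`(Y, r, (a,b,k))` takes a value is `P(Y = y, a,b,k) g(a,b,r,k)/G(a,b,k)`. If `G = 0` everything vanishes. -/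
theorem cpy_markov {α β γ δ κ Υ : Type} [Fintype α] [Fintype β] [Fintype γ] [Fintype δ] [Fintype κ]
    [DecidableEq α] [DecidableEq β] [DecidableEq γ] [DecidableEq δ] [DecidableEq κ] [DecidableEq Υ]
    (p : α × β × γ × δ × κ → ℝ) (hp : ∀ z, 0 ≤ p z) (Y : α × β × γ × δ × κ → Υ)
    (w : (α × β × γ × δ × κ) × γ) :
    (∑ z ∈ univ.filter (fun z : (α × β × γ × δ × κ) × γ => (Y z.1, z.2, z.1.1, z.1.2.1, z.1.2.2.2.2) =
        (Y w.1, w.2, w.1.1, w.1.2.1, w.1.2.2.2.2)), cpy p z) *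
      (∑ z ∈ univ.filter (fun z : (α × β × γ × δ × κ) × γ => (z.1.1, z.1.2.1, z.1.2.2.2.2) =
        (w.1.1, w.1.2.1, w.1.2.2.2.2)), cpy p z) =
    (∑ z ∈ univ.filter (fun z : (α × β × γ × δ × κ) × γ => (Y z.1, z.1.1, z.1.2.1, z.1.2.2.2.2) =
        (Y w.1, w.1.1, w.1.2.1, w.1.2.2.2.2)), cpy p z) *
      (∑ z ∈ univ.filter (fun z : (α × β × γ × δ × κ) × γ => (z.2, z.1.1, z.1.2.1, z.1.2.2.2.2) =
        (w.2, w.1.1, w.1.2.1, w.1.2.2.2.2)), cpy p z) := by
  classical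
  obtain ⟨⟨a0, b0, c0, d0, k0⟩, r0⟩ := w
  simp only
  set G : ℝ := ∑ c, ∑ d, p (a0, b0, c, d, k0) with hG
  set g : ℝ := ∑ d, p (a0, b0, r0, d, k0) with hg
  set y0 := Y (a0, b0, c0, d0, k0) with hy0
  set P : ℝ := ∑ x ∈ univ.filter (fun x : α × β × γ × δ × κ => Y x = y0 ∧
    (x.1, x.2.1, x.2.2.2.2) = (a0, b0, k0)), p x with hP
  have hBr : ∑ r ∈ univ.filter (fun r : γ => r = r0), ∑ d, p (a0, b0, r, d, k0) = g := by
    rw [Finset.filter_eq' univ r0, if_pos (Finset.mem_univ _), Finset.sum_singleton]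
  have hBt : ∑ r ∈ univ.filter (fun r : γ => True), ∑ d, p (a0, b0, r, d, k0) = G := by
    rw [Finset.filter_true_of_mem (fun _ _ => trivial)]
  have hGG := cpy_markov_G p a0 b0 k0
  have h1 : ∑ z ∈ univ.filter (fun z : (α × β × γ × δ × κ) × γ =>
      (Y z.1, z.2, z.1.1, z.1.2.1, z.1.2.2.2.2) = (y0, r0, a0, b0, k0)), cpy p z = P * g / G := by
    rw [cpy_markov_main p a0 b0 k0 (fun x => Y x = y0 ∧ (x.1, x.2.1, x.2.2.2.2) = (a0, b0, k0))
      (fun r => r = r0) ?_ _ ?_, hBr]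
    · rintro x ⟨_, h⟩
      simpa only [Prod.mk.injEq] using h
    · intro z
      simp only [Finset.mem_filter, Finset.mem_univ, true_and, Prod.mk.injEq]
      tauto
  have h2 : ∑ z ∈ univ.filter (fun z : (α × β × γ × δ × κ) × γ =>
      (z.1.1, z.1.2.1, z.1.2.2.2.2) = (a0, b0, k0)), cpy p z = G * G / G := by
    rw [cpy_markov_main p a0 b0 k0 (fun x => (x.1, x.2.1, x.2.2.2.2) = (a0, b0, k0))
      (fun r => True) ?_ _ ?_, hBt, hGG]
    · intro x h
      simpa only [Prod.mk.injEq] using h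
    · intro z
      simp only [Finset.mem_filter, Finset.mem_univ, true_and, Prod.mk.injEq, and_true]
  have h3 : ∑ z ∈ univ.filter (fun z : (α × β × γ × δ × κ) × γ =>
      (Y z.1, z.1.1, z.1.2.1, z.1.2.2.2.2) = (y0, a0, b0, k0)), cpy p z = P * G / G := by
    rw [cpy_markov_main p a0 b0 k0 (fun x => Y x = y0 ∧ (x.1, x.2.1, x.2.2.2.2) = (a0, b0, k0))
      (fun r => True) ?_ _ ?_, hBt]
    · rintro x ⟨_, h⟩
      simpa only [Prod.mk.injEq] using h
    · intro z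
      simp only [Finset.mem_filter, Finset.mem_univ, true_and, Prod.mk.injEq, and_true]
  have h4 : ∑ z ∈ univ.filter (fun z : (α × β × γ × δ × κ) × γ =>
      (z.2, z.1.1, z.1.2.1, z.1.2.2.2.2) = (r0, a0, b0, k0)), cpy p z = G * g / G := by
    rw [cpy_markov_main p a0 b0 k0 (fun x => (x.1, x.2.1, x.2.2.2.2) = (a0, b0, k0))
      (fun r => r = r0) ?_ _ ?_, hBr, hGG]
    · intro x h
      simpa only [Prod.mk.injEq] using h
    · intro z
      simp only [Finset.mem_filter, Finset.mem_univ, true_and, Prod.mk.injEq]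
      tauto
  rw [h1, h2, h3, h4]
  ring

end

end Pool.EQ
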