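import Pool.Agent.Helper364.EQ.Defs
set_option autoImplicit false
set_option linter.unusedVariables false

open Finset
open scoped ENNReal

namespace Pool.EQ

noncomputable section


--#TARGET: prove this one (put helper lemmas between this line and the target, prefix their names with `submod_`)

/-- mass of the class of `w` -/
def submod_m {Ω A : Type} [Fintype Ω] [DecidableEq A] (p : Ω → ℝ) (X : Ω → A) (w : Ω) : ℝ :=
  ∑ w' ∈ univ.filter (fun w' => X w' = X w), p w'

theorem submod_Hm {Ω A : Type} [Fintype Ω] [DecidableEq A] (p : Ω → ℝ) (X : Ω → A) :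
    Hm p X = - ∑ w, p w * Real.log (submod_m p X w) := rfl

theorem submod_nonneg {Ω A : Type} [Fintype Ω] [DecidableEq A] (p : Ω → ℝ)
    (hp : ∀ w, 0 ≤ p w) (X : Ω → A) (w : Ω) : 0 ≤ submod_m p X w :=
  Finset.sum_nonneg (fun w' _ => hp w')

theorem submod_le {Ω A : Type} [Fintype Ω] [DecidableEq A] (p : Ω → ℝ)
    (hp : ∀ w, 0 ≤ p w) (X : Ω → A) (w : Ω) : p w ≤ submod_m p X w :=
  Finset.single_le_sum (f := p) (fun w' _ => hp w') (by simp)

theorem submod_ite {Ω A : Type} [Fintype Ω] [DecidableEq A] (p : Ω → ℝ) (X : Ω → A) (w : Ω) :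
    submod_m p X w = ∑ u, if X u = X w then p u else 0 := by
  unfold submod_m
  rw [Finset.sum_filter]

theorem submod_congr {Ω A : Type} [Fintype Ω] [DecidableEq A] (p : Ω → ℝ) (X : Ω → A)
    (w w' : Ω) (h : X w = X w') : submod_m p X w = submod_m p X w' := by
  unfold submod_m
  rw [h]

theorem submod_term (P A B C D : ℝ) (hP : 0 ≤ P) (hA : P ≤ A) (hB : P ≤ B) (hC : P ≤ C)
    (hD : P ≤ D) : P - P * (B * C / (A * D)) ≤
      P * Real.log A + P * Real.log D - P * Real.log B - P * Real.log C := by
  rcases eq_or_lt_of_le hP with h | h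
  · rw [← h]; simp
  · have a : 0 < A := lt_of_lt_of_le h hA
    have b : 0 < B := lt_of_lt_of_le h hB
    have c : 0 < C := lt_of_lt_of_le h hC
    have d : 0 < D := lt_of_lt_of_le h hD
    have h1 := Real.one_sub_inv_le_log_of_pos (x := A * D / (B * C)) (by positivity)
    rw [Real.log_div (by positivity) (by positivity), Real.log_mul a.ne' d.ne',
      Real.log_mul b.ne' c.ne', inv_div] at h1
    have h2 := mul_le_mul_of_nonneg_left h1 hP
    calc P - P * (B * C / (A * D)) = P * (1 - B * C / (A * D)) := by ring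
      _ ≤ P * (Real.log A + Real.log D - (Real.log B + Real.log C)) := h2
      _ = _ := by ring

theorem submod_sum {Ω A B C : Type} [Fintype Ω] [DecidableEq A] [DecidableEq B] [DecidableEq C]
    (p : Ω → ℝ) (hp : ∀ w, 0 ≤ p w) (X : Ω → A) (Y : Ω → B) (Z : Ω → C) :
    ∑ w, p w * (submod_m p (fun w => (X w, Z w)) w * submod_m p (fun w => (Y w, Z w)) w /
      (submod_m p (fun w => (X w, Y w, Z w)) w * submod_m p Z w)) ≤ ∑ w, p w := by
  have e1 : ∀ w, p w * (submod_m p (fun w => (X w, Z w)) w * submod_m p (fun w => (Y w, Z w)) w /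
      (submod_m p (fun w => (X w, Y w, Z w)) w * submod_m p Z w)) =
      ∑ u, ∑ v, (if (X u, Z u) = (X w, Z w) then p u else 0) *
        (if (Y v, Z v) = (Y w, Z w) then p v else 0) *
        (p w / (submod_m p (fun w => (X w, Y w, Z w)) w * submod_m p Z w)) := by
    intro w
    rw [submod_ite p (fun w => (X w, Z w)) w, submod_ite p (fun w => (Y w, Z w)) w]
    rw [mul_div_assoc', mul_comm (p w), mul_div_assoc, Finset.sum_mul_sum, Finset.sum_mul]
    apply Finset.sum_congr rfl
    intro u _
    rw [Finset.sum_mul]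
  rw [Finset.sum_congr rfl (fun w _ => e1 w), Finset.sum_comm]
  apply Finset.sum_le_sum
  intro u _
  rw [Finset.sum_comm]
  have e2 : ∀ v, ∑ w, (if (X u, Z u) = (X w, Z w) then p u else 0) *
        (if (Y v, Z v) = (Y w, Z w) then p v else 0) *
        (p w / (submod_m p (fun w => (X w, Y w, Z w)) w * submod_m p Z w)) ≤
      p u * ((if Z v = Z u then p v else 0) / submod_m p Z u) := by
    intro v
    by_cases hz : Z v = Z u
    · rw [if_pos hz]
      have e3 : ∀ w, (if (X u, Z u) = (X w, Z w) then p u else 0) *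
        (if (Y v, Z v) = (Y w, Z w) then p v else 0) *
        (p w / (submod_m p (fun w => (X w, Y w, Z w)) w * submod_m p Z w)) =
        (p u * p v / submod_m p Z u) * (if (X w, Y w, Z w) = (X u, Y v, Z u) then
          p w / (∑ w' ∈ univ.filter (fun w' => (X w', Y w', Z w') = (X u, Y v, Z u)), p w')
          else 0) := by
        intro w
        by_cases hw : (X w, Y w, Z w) = (X u, Y v, Z u)
        · rw [if_pos hw]
          simp only [Prod.mk.injEq] at hw
          rw [if_pos (by rw [hw.1, hw.2.2]), if_pos (by rw [hw.2.1, hw.2.2, hz])]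
          have a1 : submod_m p (fun w => (X w, Y w, Z w)) w =
            ∑ w' ∈ univ.filter (fun w' => (X w', Y w', Z w') = (X u, Y v, Z u)), p w' := by
            unfold submod_m
            simp only [hw.1, hw.2.1, hw.2.2]
          have a2 : submod_m p Z w = submod_m p Z u := submod_congr p Z w u hw.2.2
          rw [a1, a2]
          rw [div_mul_div_comm, mul_div_assoc', mul_comm (submod_m p Z u)]
        · rw [if_neg hw, mul_zero]
          by_cases h1 : (X u, Z u) = (X w, Z w)
          · by_cases h2 : (Y v, Z v) = (Y w, Z w)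
            · exfalso
              apply hw
              simp only [Prod.mk.injEq] at h1 h2 ⊢
              exact ⟨h1.1.symm, h2.1.symm, h1.2.symm⟩
            · rw [if_neg h2]; simp
          · rw [if_neg h1]; simp
      rw [Finset.sum_congr rfl (fun w _ => e3 w), ← Finset.mul_sum, ← Finset.sum_filter,
        ← Finset.sum_div]
      have hD := submod_nonneg p hp Z u
      calc (p u * p v / submod_m p Z u) * _ ≤ (p u * p v / submod_m p Z u) * 1 := by
            apply mul_le_mul_of_nonneg_left (div_self_le_one _)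
            exact div_nonneg (mul_nonneg (hp u) (hp v)) hD
        _ = p u * (p v / submod_m p Z u) := by rw [mul_one, mul_div_assoc]
    · rw [if_neg hz, zero_div, mul_zero]
      apply le_of_eq
      apply Finset.sum_eq_zero
      intro w _
      by_cases h1 : (X u, Z u) = (X w, Z w)
      · by_cases h2 : (Y v, Z v) = (Y w, Z w)
        · exfalso
          apply hz
          simp only [Prod.mk.injEq] at h1 h2
          exact h2.2.trans h1.2.symm
        · rw [if_neg h2]; simp
      · rw [if_neg h1]; simp
  refine (Finset.sum_le_sum (fun v _ => e2 v)).trans ?_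
  rw [← Finset.mul_sum, ← Finset.sum_div, ← submod_ite]
  calc p u * (submod_m p Z u / submod_m p Z u) ≤ p u * 1 :=
        mul_le_mul_of_nonneg_left (div_self_le_one _) (hp u)
    _ = p u := mul_one _

/-- submodularity of entropy. HINT: `I = ∑ p log (P(xyz) P(z) / (P(xz) P(yz))) ≥ ∑ p - ∑_{p>0} p P(xz)P(yz)/(P(xyz)P(z))`
(`log t ≥ 1 - 1/t`), and the last sum is at most `∑_{x,y,z} P(xz)P(yz)/P(z) = ∑ P(z) = ∑ p`. -/
theorem submod {Ω A B C : Type} [Fintype Ω] [DecidableEq A] [DecidableEq B] [DecidableEq C] (p : Ω → ℝ)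
    (hp : ∀ w, 0 ≤ p w) (X : Ω → A) (Y : Ω → B) (Z : Ω → C) :
    Hm p (fun w => (X w, Y w, Z w)) + Hm p Z ≤ Hm p (fun w => (X w, Z w)) + Hm p (fun w => (Y w, Z w)) := by
  rw [submod_Hm, submod_Hm, submod_Hm, submod_Hm]
  have h1 := submod_sum p hp X Y Z
  have h2 : ∑ w, (p w - p w * (submod_m p (fun w => (X w, Z w)) w *
      submod_m p (fun w => (Y w, Z w)) w /
      (submod_m p (fun w => (X w, Y w, Z w)) w * submod_m p Z w))) ≤
      ∑ w, (p w * Real.log (submod_m p (fun w => (X w, Y w, Z w)) w) +
        p w * Real.log (submod_m p Z w) -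
        p w * Real.log (submod_m p (fun w => (X w, Z w)) w) -
        p w * Real.log (submod_m p (fun w => (Y w, Z w)) w)) := by
    apply Finset.sum_le_sum
    intro w _
    exact submod_term _ _ _ _ _ (hp w) (submod_le p hp _ w) (submod_le p hp _ w)
      (submod_le p hp _ w) (submod_le p hp _ w)
  rw [Finset.sum_sub_distrib, Finset.sum_sub_distrib, Finset.sum_sub_distrib,
    Finset.sum_add_distrib] at h2
  linarith

end

end Pool.EQ
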