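import Pool.Agent.Helper364.EQ.Defs
import Pool.Agent.Helper364.EQ.P_submod
import Pool.Agent.Helper364.EQ.P_Hm_inj
import Pool.Agent.Helper364.EQ.P_Hm_push
import Pool.Agent.Helper364.EQ.P_Hm_markov
import Pool.Agent.Helper364.EQ.P_cpy_facts
import Pool.Agent.Helper364.EQ.P_cpy_markov
set_option autoImplicit false
set_option linter.unusedVariables false

open Finset
open scoped ENNReal

namespace Pool.EQ

noncomputable section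









--#TARGET: prove this one (put helper lemmas between this line and the target, prefix their names with `ZY_`)

theorem ZY_marg {α β γ δ κ : Type} [Fintype α] [Fintype β] [Fintype γ] [Fintype δ] [Fintype κ]
    [DecidableEq α] [DecidableEq β] [DecidableEq γ] [DecidableEq δ] [DecidableEq κ]
    (p : α × β × γ × δ × κ → ℝ) (w : α × β × γ × κ) :
    ∑ z ∈ univ.filter (fun z : α × β × γ × δ × κ => (z.1, z.2.1, z.2.2.1, z.2.2.2.2) = w), p z =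
      ∑ d, p (w.1, w.2.1, w.2.2.1, d, w.2.2.2) := by
  obtain ⟨a, b, c, k⟩ := w
  symm
  apply Finset.sum_bij (fun d _ => (a, b, c, d, k))
  · intro d _
    simp
  · intro d _ d' _ h
    simpa using h
  · rintro ⟨a', b', c', d', k'⟩ h
    simp only [Finset.mem_filter, Finset.mem_univ, true_and, Prod.mk.injEq] at h
    obtain ⟨rfl, rfl, rfl, rfl⟩ := h
    exact ⟨d', Finset.mem_univ _, rfl⟩
  · intro d _
    rfl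

/-- Zhang-Yeung inequality (conditional on the last variable). HINT: write `1,2,3,4` for the first four variables,
everything is conditional on (i.e. always joined with) the fifth `k`, `R` the copy of `3` (last coordinate of `cpy p`).
Add the 8 submodularity inequalities (`submod` for `cpy p`)
`I(1;2|R3) + I(1;2|R4) + I(R;3|2) + I(R;4|2) + I(R;3|1) + I(R;4|1) + I(3;4|R) + I(R;12|34) ≥ 0` and use
`H(12R3)=H(123)+H(12R)-H(12)`, `H(12R4)=H(124)+H(12R)-H(12)`, `H(R1234)=H(1234)+H(12R)-H(12)` (`Hm_markov`, `cpy_markov`),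
`H(12R)=H(123)`, `H(R2)=H(32)`, `H(R1)=H(31)`, `H(R)=H(3)` and that entropies without `R` are those of `p`
(`Hm_push`, `cpy_facts`). -/
theorem ZY {α β γ δ κ : Type} [Fintype α] [Fintype β] [Fintype γ] [Fintype δ] [Fintype κ]
    [DecidableEq α] [DecidableEq β] [DecidableEq γ] [DecidableEq δ] [DecidableEq κ]
    (p : α × β × γ × δ × κ → ℝ) (hp : ∀ z, 0 ≤ p z) :
    0 ≤ 3 * Hm p (fun z => (z.2.1, z.2.2.1, z.2.2.2.2)) + 3 * Hm p (fun z => (z.1, z.2.2.1, z.2.2.2.2))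
      + 3 * Hm p (fun z => (z.1, z.2.1, z.2.2.2.2)) + Hm p (fun z => (z.2.1, z.2.2.2.1, z.2.2.2.2))
      + Hm p (fun z => (z.1, z.2.2.2.1, z.2.2.2.2)) - Hm p (fun z => (z.2.2.1, z.2.2.2.1, z.2.2.2.2))
      - Hm p (fun z => (z.2.2.1, z.2.2.2.2)) - 2 * Hm p (fun z => (z.2.1, z.2.2.2.2))
      - 2 * Hm p (fun z => (z.1, z.2.2.2.2)) - Hm p (fun z => (z.1, z.2.1, z.2.2.2.1, z.2.2.2.2))
      - 4 * Hm p (fun z => (z.1, z.2.1, z.2.2.1, z.2.2.2.2)) := by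
  have hP := (cpy_facts p hp).1
  have hpush : ∀ {A : Type} [DecidableEq A] (X : α × β × γ × δ × κ → A),
      Hm (cpy p) (fun w => X w.1) = Hm p X := fun X =>
    Hm_push (cpy p) p (fun w => w.1) (cpy_facts p hp).2.1 X
  have hpush2 : ∀ {A : Type} [DecidableEq A] (X : α × β × γ × κ → A),
      Hm (cpy p) (fun w => X (w.1.1, w.1.2.1, w.2, w.1.2.2.2.2)) =
        Hm p (fun w => X (w.1, w.2.1, w.2.2.1, w.2.2.2.2)) := by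
    intro A _ X
    rw [Hm_push (cpy p) (fun w : α × β × γ × κ => ∑ d, p (w.1, w.2.1, w.2.2.1, d, w.2.2.2))
      (fun w => (w.1.1, w.1.2.1, w.2, w.1.2.2.2.2)) (cpy_facts p hp).2.2 X]
    rw [Hm_push p (fun w : α × β × γ × κ => ∑ d, p (w.1, w.2.1, w.2.2.1, d, w.2.2.2))
      (fun w => (w.1, w.2.1, w.2.2.1, w.2.2.2.2)) (ZY_marg p) X]
  have E1 : Hm (cpy p) (fun w => (w.1.1, w.1.2.1, w.2, w.1.2.2.1, w.1.2.2.2.2)) = Hm (cpy p) (fun w => (w.1.1, w.1.2.1, w.1.2.2.1, w.2, w.1.2.2.2.2)) :=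
    Hm_inj _ _ _ (by intro w w'; simp only [Prod.mk.injEq]; tauto)
  have E2 : Hm (cpy p) (fun w => (w.2, w.1.2.2.1, w.1.2.2.2.2)) = Hm (cpy p) (fun w => (w.1.2.2.1, w.2, w.1.2.2.2.2)) :=
    Hm_inj _ _ _ (by intro w w'; simp only [Prod.mk.injEq]; tauto)
  have E3 : Hm (cpy p) (fun w => (w.1.1, w.2, w.1.2.2.1, w.1.2.2.2.2)) = Hm (cpy p) (fun w => (w.1.1, w.1.2.2.1, w.2, w.1.2.2.2.2)) :=
    Hm_inj _ _ _ (by intro w w'; simp only [Prod.mk.injEq]; tauto)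
  have E4 : Hm (cpy p) (fun w => (w.1.2.1, w.2, w.1.2.2.1, w.1.2.2.2.2)) = Hm (cpy p) (fun w => (w.1.2.1, w.1.2.2.1, w.2, w.1.2.2.2.2)) :=
    Hm_inj _ _ _ (by intro w w'; simp only [Prod.mk.injEq]; tauto)
  have I1 : Hm (cpy p) (fun w => (w.1.1, w.1.2.1, w.2, w.1.2.2.1, w.1.2.2.2.2)) + Hm (cpy p) (fun w => (w.2, w.1.2.2.1, w.1.2.2.2.2)) ≤ Hm (cpy p) (fun w => (w.1.1, w.2, w.1.2.2.1, w.1.2.2.2.2)) + Hm (cpy p) (fun w => (w.1.2.1, w.2, w.1.2.2.1, w.1.2.2.2.2)) :=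
    submod (cpy p) hP (fun w => w.1.1) (fun w => w.1.2.1) (fun w => (w.2, w.1.2.2.1, w.1.2.2.2.2))
  have E5 : Hm (cpy p) (fun w => (w.1.1, w.1.2.1, w.2, w.1.2.2.2.1, w.1.2.2.2.2)) = Hm (cpy p) (fun w => (w.1.1, w.1.2.1, w.1.2.2.2.1, w.2, w.1.2.2.2.2)) :=
    Hm_inj _ _ _ (by intro w w'; simp only [Prod.mk.injEq]; tauto)
  have E6 : Hm (cpy p) (fun w => (w.2, w.1.2.2.2.1, w.1.2.2.2.2)) = Hm (cpy p) (fun w => (w.1.2.2.2.1, w.2, w.1.2.2.2.2)) :=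
    Hm_inj _ _ _ (by intro w w'; simp only [Prod.mk.injEq]; tauto)
  have E7 : Hm (cpy p) (fun w => (w.1.1, w.2, w.1.2.2.2.1, w.1.2.2.2.2)) = Hm (cpy p) (fun w => (w.1.1, w.1.2.2.2.1, w.2, w.1.2.2.2.2)) :=
    Hm_inj _ _ _ (by intro w w'; simp only [Prod.mk.injEq]; tauto)
  have E8 : Hm (cpy p) (fun w => (w.1.2.1, w.2, w.1.2.2.2.1, w.1.2.2.2.2)) = Hm (cpy p) (fun w => (w.1.2.1, w.1.2.2.2.1, w.2, w.1.2.2.2.2)) :=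
    Hm_inj _ _ _ (by intro w w'; simp only [Prod.mk.injEq]; tauto)
  have I2 : Hm (cpy p) (fun w => (w.1.1, w.1.2.1, w.2, w.1.2.2.2.1, w.1.2.2.2.2)) + Hm (cpy p) (fun w => (w.2, w.1.2.2.2.1, w.1.2.2.2.2)) ≤ Hm (cpy p) (fun w => (w.1.1, w.2, w.1.2.2.2.1, w.1.2.2.2.2)) + Hm (cpy p) (fun w => (w.1.2.1, w.2, w.1.2.2.2.1, w.1.2.2.2.2)) :=
    submod (cpy p) hP (fun w => w.1.1) (fun w => w.1.2.1) (fun w => (w.2, w.1.2.2.2.1, w.1.2.2.2.2))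
  have E9 : Hm (cpy p) (fun w => (w.2, w.1.2.2.1, w.1.2.1, w.1.2.2.2.2)) = Hm (cpy p) (fun w => (w.1.2.1, w.1.2.2.1, w.2, w.1.2.2.2.2)) :=
    Hm_inj _ _ _ (by intro w w'; simp only [Prod.mk.injEq]; tauto)
  have E10 : Hm (cpy p) (fun w => (w.2, w.1.2.1, w.1.2.2.2.2)) = Hm (cpy p) (fun w => (w.1.2.1, w.2, w.1.2.2.2.2)) :=
    Hm_inj _ _ _ (by intro w w'; simp only [Prod.mk.injEq]; tauto)
  have E11 : Hm (cpy p) (fun w => (w.1.2.2.1, w.1.2.1, w.1.2.2.2.2)) = Hm (cpy p) (fun w => (w.1.2.1, w.1.2.2.1, w.1.2.2.2.2)) :=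
    Hm_inj _ _ _ (by intro w w'; simp only [Prod.mk.injEq]; tauto)
  have I3 : Hm (cpy p) (fun w => (w.2, w.1.2.2.1, w.1.2.1, w.1.2.2.2.2)) + Hm (cpy p) (fun w => (w.1.2.1, w.1.2.2.2.2)) ≤ Hm (cpy p) (fun w => (w.2, w.1.2.1, w.1.2.2.2.2)) + Hm (cpy p) (fun w => (w.1.2.2.1, w.1.2.1, w.1.2.2.2.2)) :=
    submod (cpy p) hP (fun w => w.2) (fun w => w.1.2.2.1) (fun w => (w.1.2.1, w.1.2.2.2.2))
  have E12 : Hm (cpy p) (fun w => (w.2, w.1.2.2.2.1, w.1.2.1, w.1.2.2.2.2)) = Hm (cpy p) (fun w => (w.1.2.1, w.1.2.2.2.1, w.2, w.1.2.2.2.2)) :=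
    Hm_inj _ _ _ (by intro w w'; simp only [Prod.mk.injEq]; tauto)
  have E13 : Hm (cpy p) (fun w => (w.1.2.2.2.1, w.1.2.1, w.1.2.2.2.2)) = Hm (cpy p) (fun w => (w.1.2.1, w.1.2.2.2.1, w.1.2.2.2.2)) :=
    Hm_inj _ _ _ (by intro w w'; simp only [Prod.mk.injEq]; tauto)
  have I4 : Hm (cpy p) (fun w => (w.2, w.1.2.2.2.1, w.1.2.1, w.1.2.2.2.2)) + Hm (cpy p) (fun w => (w.1.2.1, w.1.2.2.2.2)) ≤ Hm (cpy p) (fun w => (w.2, w.1.2.1, w.1.2.2.2.2)) + Hm (cpy p) (fun w => (w.1.2.2.2.1, w.1.2.1, w.1.2.2.2.2)) :=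
    submod (cpy p) hP (fun w => w.2) (fun w => w.1.2.2.2.1) (fun w => (w.1.2.1, w.1.2.2.2.2))
  have E14 : Hm (cpy p) (fun w => (w.2, w.1.2.2.1, w.1.1, w.1.2.2.2.2)) = Hm (cpy p) (fun w => (w.1.1, w.1.2.2.1, w.2, w.1.2.2.2.2)) :=
    Hm_inj _ _ _ (by intro w w'; simp only [Prod.mk.injEq]; tauto)
  have E15 : Hm (cpy p) (fun w => (w.2, w.1.1, w.1.2.2.2.2)) = Hm (cpy p) (fun w => (w.1.1, w.2, w.1.2.2.2.2)) :=
    Hm_inj _ _ _ (by intro w w'; simp only [Prod.mk.injEq]; tauto)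
  have E16 : Hm (cpy p) (fun w => (w.1.2.2.1, w.1.1, w.1.2.2.2.2)) = Hm (cpy p) (fun w => (w.1.1, w.1.2.2.1, w.1.2.2.2.2)) :=
    Hm_inj _ _ _ (by intro w w'; simp only [Prod.mk.injEq]; tauto)
  have I5 : Hm (cpy p) (fun w => (w.2, w.1.2.2.1, w.1.1, w.1.2.2.2.2)) + Hm (cpy p) (fun w => (w.1.1, w.1.2.2.2.2)) ≤ Hm (cpy p) (fun w => (w.2, w.1.1, w.1.2.2.2.2)) + Hm (cpy p) (fun w => (w.1.2.2.1, w.1.1, w.1.2.2.2.2)) :=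
    submod (cpy p) hP (fun w => w.2) (fun w => w.1.2.2.1) (fun w => (w.1.1, w.1.2.2.2.2))
  have E17 : Hm (cpy p) (fun w => (w.2, w.1.2.2.2.1, w.1.1, w.1.2.2.2.2)) = Hm (cpy p) (fun w => (w.1.1, w.1.2.2.2.1, w.2, w.1.2.2.2.2)) :=
    Hm_inj _ _ _ (by intro w w'; simp only [Prod.mk.injEq]; tauto)
  have E18 : Hm (cpy p) (fun w => (w.1.2.2.2.1, w.1.1, w.1.2.2.2.2)) = Hm (cpy p) (fun w => (w.1.1, w.1.2.2.2.1, w.1.2.2.2.2)) :=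
    Hm_inj _ _ _ (by intro w w'; simp only [Prod.mk.injEq]; tauto)
  have I6 : Hm (cpy p) (fun w => (w.2, w.1.2.2.2.1, w.1.1, w.1.2.2.2.2)) + Hm (cpy p) (fun w => (w.1.1, w.1.2.2.2.2)) ≤ Hm (cpy p) (fun w => (w.2, w.1.1, w.1.2.2.2.2)) + Hm (cpy p) (fun w => (w.1.2.2.2.1, w.1.1, w.1.2.2.2.2)) :=
    submod (cpy p) hP (fun w => w.2) (fun w => w.1.2.2.2.1) (fun w => (w.1.1, w.1.2.2.2.2))
  have I7 : Hm (cpy p) (fun w => (w.1.2.2.1, w.1.2.2.2.1, w.2, w.1.2.2.2.2)) + Hm (cpy p) (fun w => (w.2, w.1.2.2.2.2)) ≤ Hm (cpy p) (fun w => (w.1.2.2.1, w.2, w.1.2.2.2.2)) + Hm (cpy p) (fun w => (w.1.2.2.2.1, w.2, w.1.2.2.2.2)) :=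
    submod (cpy p) hP (fun w => w.1.2.2.1) (fun w => w.1.2.2.2.1) (fun w => (w.2, w.1.2.2.2.2))
  have E19 : Hm (cpy p) (fun w => (w.2, (w.1.1, w.1.2.1), w.1.2.2.1, w.1.2.2.2.1, w.1.2.2.2.2)) = Hm (cpy p) (fun w => (w.1.1, w.1.2.1, w.1.2.2.1, w.1.2.2.2.1, w.2, w.1.2.2.2.2)) :=
    Hm_inj _ _ _ (by intro w w'; simp only [Prod.mk.injEq]; tauto)
  have E20 : Hm (cpy p) (fun w => (w.2, w.1.2.2.1, w.1.2.2.2.1, w.1.2.2.2.2)) = Hm (cpy p) (fun w => (w.1.2.2.1, w.1.2.2.2.1, w.2, w.1.2.2.2.2)) :=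
    Hm_inj _ _ _ (by intro w w'; simp only [Prod.mk.injEq]; tauto)
  have E21 : Hm (cpy p) (fun w => ((w.1.1, w.1.2.1), w.1.2.2.1, w.1.2.2.2.1, w.1.2.2.2.2)) = Hm (cpy p) (fun w => (w.1.1, w.1.2.1, w.1.2.2.1, w.1.2.2.2.1, w.1.2.2.2.2)) :=
    Hm_inj _ _ _ (by intro w w'; simp only [Prod.mk.injEq]; tauto)
  have I8 : Hm (cpy p) (fun w => (w.2, (w.1.1, w.1.2.1), w.1.2.2.1, w.1.2.2.2.1, w.1.2.2.2.2)) + Hm (cpy p) (fun w => (w.1.2.2.1, w.1.2.2.2.1, w.1.2.2.2.2)) ≤ Hm (cpy p) (fun w => (w.2, w.1.2.2.1, w.1.2.2.2.1, w.1.2.2.2.2)) + Hm (cpy p) (fun w => ((w.1.1, w.1.2.1), w.1.2.2.1, w.1.2.2.2.1, w.1.2.2.2.2)) :=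
    submod (cpy p) hP (fun w => w.2) (fun w => (w.1.1, w.1.2.1)) (fun w => (w.1.2.2.1, w.1.2.2.2.1, w.1.2.2.2.2))
  have E22 : Hm (cpy p) (fun w => (w.1.2.2.1, w.2, w.1.1, w.1.2.1, w.1.2.2.2.2)) = Hm (cpy p) (fun w => (w.1.1, w.1.2.1, w.1.2.2.1, w.2, w.1.2.2.2.2)) :=
    Hm_inj _ _ _ (by intro w w'; simp only [Prod.mk.injEq]; tauto)
  have E23 : Hm (cpy p) (fun w => (w.1.2.2.1, w.1.1, w.1.2.1, w.1.2.2.2.2)) = Hm (cpy p) (fun w => (w.1.1, w.1.2.1, w.1.2.2.1, w.1.2.2.2.2)) :=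
    Hm_inj _ _ _ (by intro w w'; simp only [Prod.mk.injEq]; tauto)
  have E24 : Hm (cpy p) (fun w => (w.2, w.1.1, w.1.2.1, w.1.2.2.2.2)) = Hm (cpy p) (fun w => (w.1.1, w.1.2.1, w.2, w.1.2.2.2.2)) :=
    Hm_inj _ _ _ (by intro w w'; simp only [Prod.mk.injEq]; tauto)
  have M1 : Hm (cpy p) (fun w => (w.1.2.2.1, w.2, w.1.1, w.1.2.1, w.1.2.2.2.2)) + Hm (cpy p) (fun w => (w.1.1, w.1.2.1, w.1.2.2.2.2)) = Hm (cpy p) (fun w => (w.1.2.2.1, w.1.1, w.1.2.1, w.1.2.2.2.2)) + Hm (cpy p) (fun w => (w.2, w.1.1, w.1.2.1, w.1.2.2.2.2)) :=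
    Hm_markov (cpy p) hP (fun w => w.1.2.2.1) (fun w => w.2) (fun w => (w.1.1, w.1.2.1, w.1.2.2.2.2))
      (fun w => cpy_markov p hp (fun w => w.2.2.1) w)
  have E25 : Hm (cpy p) (fun w => (w.1.2.2.2.1, w.2, w.1.1, w.1.2.1, w.1.2.2.2.2)) = Hm (cpy p) (fun w => (w.1.1, w.1.2.1, w.1.2.2.2.1, w.2, w.1.2.2.2.2)) :=
    Hm_inj _ _ _ (by intro w w'; simp only [Prod.mk.injEq]; tauto)
  have E26 : Hm (cpy p) (fun w => (w.1.2.2.2.1, w.1.1, w.1.2.1, w.1.2.2.2.2)) = Hm (cpy p) (fun w => (w.1.1, w.1.2.1, w.1.2.2.2.1, w.1.2.2.2.2)) :=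
    Hm_inj _ _ _ (by intro w w'; simp only [Prod.mk.injEq]; tauto)
  have M2 : Hm (cpy p) (fun w => (w.1.2.2.2.1, w.2, w.1.1, w.1.2.1, w.1.2.2.2.2)) + Hm (cpy p) (fun w => (w.1.1, w.1.2.1, w.1.2.2.2.2)) = Hm (cpy p) (fun w => (w.1.2.2.2.1, w.1.1, w.1.2.1, w.1.2.2.2.2)) + Hm (cpy p) (fun w => (w.2, w.1.1, w.1.2.1, w.1.2.2.2.2)) :=
    Hm_markov (cpy p) hP (fun w => w.1.2.2.2.1) (fun w => w.2) (fun w => (w.1.1, w.1.2.1, w.1.2.2.2.2))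
      (fun w => cpy_markov p hp (fun w => w.2.2.2.1) w)
  have E27 : Hm (cpy p) (fun w => ((w.1.2.2.1, w.1.2.2.2.1), w.2, w.1.1, w.1.2.1, w.1.2.2.2.2)) = Hm (cpy p) (fun w => (w.1.1, w.1.2.1, w.1.2.2.1, w.1.2.2.2.1, w.2, w.1.2.2.2.2)) :=
    Hm_inj _ _ _ (by intro w w'; simp only [Prod.mk.injEq]; tauto)
  have E28 : Hm (cpy p) (fun w => ((w.1.2.2.1, w.1.2.2.2.1), w.1.1, w.1.2.1, w.1.2.2.2.2)) = Hm (cpy p) (fun w => (w.1.1, w.1.2.1, w.1.2.2.1, w.1.2.2.2.1, w.1.2.2.2.2)) :=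
    Hm_inj _ _ _ (by intro w w'; simp only [Prod.mk.injEq]; tauto)
  have M3 : Hm (cpy p) (fun w => ((w.1.2.2.1, w.1.2.2.2.1), w.2, w.1.1, w.1.2.1, w.1.2.2.2.2)) + Hm (cpy p) (fun w => (w.1.1, w.1.2.1, w.1.2.2.2.2)) = Hm (cpy p) (fun w => ((w.1.2.2.1, w.1.2.2.2.1), w.1.1, w.1.2.1, w.1.2.2.2.2)) + Hm (cpy p) (fun w => (w.2, w.1.1, w.1.2.1, w.1.2.2.2.2)) :=
    Hm_markov (cpy p) hP (fun w => (w.1.2.2.1, w.1.2.2.2.1)) (fun w => w.2) (fun w => (w.1.1, w.1.2.1, w.1.2.2.2.2))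
      (fun w => cpy_markov p hp (fun w => (w.2.2.1, w.2.2.2.1)) w)
  have P1 : Hm (cpy p) (fun w => (w.1.1, w.1.2.2.2.2)) = Hm p (fun w => (w.1, w.2.2.2.2)) :=
    hpush (fun w => (w.1, w.2.2.2.2))
  have P2 : Hm (cpy p) (fun w => (w.1.2.1, w.1.2.2.2.2)) = Hm p (fun w => (w.2.1, w.2.2.2.2)) :=
    hpush (fun w => (w.2.1, w.2.2.2.2))
  have P3 : Hm (cpy p) (fun w => (w.1.2.2.1, w.1.2.2.2.2)) = Hm p (fun w => (w.2.2.1, w.2.2.2.2)) :=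
    hpush (fun w => (w.2.2.1, w.2.2.2.2))
  have P4 : Hm (cpy p) (fun w => (w.1.1, w.1.2.1, w.1.2.2.2.2)) = Hm p (fun w => (w.1, w.2.1, w.2.2.2.2)) :=
    hpush (fun w => (w.1, w.2.1, w.2.2.2.2))
  have P5 : Hm (cpy p) (fun w => (w.1.1, w.1.2.2.1, w.1.2.2.2.2)) = Hm p (fun w => (w.1, w.2.2.1, w.2.2.2.2)) :=
    hpush (fun w => (w.1, w.2.2.1, w.2.2.2.2))
  have P6 : Hm (cpy p) (fun w => (w.1.2.1, w.1.2.2.1, w.1.2.2.2.2)) = Hm p (fun w => (w.2.1, w.2.2.1, w.2.2.2.2)) :=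
    hpush (fun w => (w.2.1, w.2.2.1, w.2.2.2.2))
  have P7 : Hm (cpy p) (fun w => (w.1.1, w.1.2.2.2.1, w.1.2.2.2.2)) = Hm p (fun w => (w.1, w.2.2.2.1, w.2.2.2.2)) :=
    hpush (fun w => (w.1, w.2.2.2.1, w.2.2.2.2))
  have P8 : Hm (cpy p) (fun w => (w.1.2.1, w.1.2.2.2.1, w.1.2.2.2.2)) = Hm p (fun w => (w.2.1, w.2.2.2.1, w.2.2.2.2)) :=
    hpush (fun w => (w.2.1, w.2.2.2.1, w.2.2.2.2))
  have P9 : Hm (cpy p) (fun w => (w.1.2.2.1, w.1.2.2.2.1, w.1.2.2.2.2)) = Hm p (fun w => (w.2.2.1, w.2.2.2.1, w.2.2.2.2)) :=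
    hpush (fun w => (w.2.2.1, w.2.2.2.1, w.2.2.2.2))
  have P10 : Hm (cpy p) (fun w => (w.1.1, w.1.2.1, w.1.2.2.1, w.1.2.2.2.2)) = Hm p (fun w => (w.1, w.2.1, w.2.2.1, w.2.2.2.2)) :=
    hpush (fun w => (w.1, w.2.1, w.2.2.1, w.2.2.2.2))
  have P11 : Hm (cpy p) (fun w => (w.1.1, w.1.2.1, w.1.2.2.2.1, w.1.2.2.2.2)) = Hm p (fun w => (w.1, w.2.1, w.2.2.2.1, w.2.2.2.2)) :=
    hpush (fun w => (w.1, w.2.1, w.2.2.2.1, w.2.2.2.2))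
  have P12 : Hm (cpy p) (fun w => (w.1.1, w.1.2.1, w.1.2.2.1, w.1.2.2.2.1, w.1.2.2.2.2)) = Hm p (fun w => (w.1, w.2.1, w.2.2.1, w.2.2.2.1, w.2.2.2.2)) :=
    hpush (fun w => (w.1, w.2.1, w.2.2.1, w.2.2.2.1, w.2.2.2.2))
  have Q1 : Hm (cpy p) (fun w => (w.2, w.1.2.2.2.2)) = Hm p (fun w => (w.2.2.1, w.2.2.2.2)) :=
    hpush2 (fun w => (w.2.2.1, w.2.2.2))
  have Q2 : Hm (cpy p) (fun w => (w.1.1, w.2, w.1.2.2.2.2)) = Hm p (fun w => (w.1, w.2.2.1, w.2.2.2.2)) :=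
    hpush2 (fun w => (w.1, w.2.2.1, w.2.2.2))
  have Q3 : Hm (cpy p) (fun w => (w.1.2.1, w.2, w.1.2.2.2.2)) = Hm p (fun w => (w.2.1, w.2.2.1, w.2.2.2.2)) :=
    hpush2 (fun w => (w.2.1, w.2.2.1, w.2.2.2))
  have Q4 : Hm (cpy p) (fun w => (w.1.1, w.1.2.1, w.2, w.1.2.2.2.2)) = Hm p (fun w => (w.1, w.2.1, w.2.2.1, w.2.2.2.2)) :=
    hpush2 (fun w => (w.1, w.2.1, w.2.2.1, w.2.2.2))
  linarith

end

end Pool.EQ
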