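import Pool.Agent.Helper364.EQ.Defs
import Pool.Agent.Helper364.EQ.P_ZY
import Pool.Agent.Helper364.EQ.P_Hm_inj
import Pool.Agent.Helper364.EQ.P_Hm_push
set_option autoImplicit false
set_option linter.unusedVariables false

open Finset
open scoped ENNReal

namespace Pool.EQ

noncomputable section






--#TARGET: prove this one (put helper lemmas between this line and the target, prefix their names with `ZYT_`)

def ZYT_e (n : ℕ) (K : Type) : Idx n × K ≃ Fin n × Fin n × Fin n × Fin n × K where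
  toFun z := (z.1 0, z.1 1, z.1 2, z.1 3, z.2)
  invFun w := (![w.1, w.2.1, w.2.2.1, w.2.2.2.1], w.2.2.2.2)
  left_inv := by
    rintro ⟨f, k⟩
    simp only [Prod.mk.injEq, and_true]
    funext i
    fin_cases i <;> rfl
  right_inv := by
    rintro ⟨a, b, c, d, k⟩
    rfl

lemma ZYT_hm {n : ℕ} {K A : Type} [Fintype K] [DecidableEq A] (T : Finset (Fin 4)) (q : Idx n × K → ℝ)
    (X : Fin n × Fin n × Fin n × Fin n × K → A)
    (h : ∀ z z' : Idx n × K, X (ZYT_e n K z') = X (ZYT_e n K z) ↔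
      ((∀ l, l ∉ T → z'.1 l = z.1 l) ∧ z'.2 = z.2)) :
    Hm (fun w => q ((ZYT_e n K).symm w)) X = HT T q := by
  unfold Hm HT
  congr 1
  rw [← Equiv.sum_comp (ZYT_e n K)]
  apply sum_congr rfl
  intro z _
  simp only [Equiv.symm_apply_apply]
  congr 2
  unfold qT
  symm
  refine Finset.sum_bij (fun i _ => ZYT_e n K (i, z.2)) ?_ ?_ ?_ ?_
  · intro i hi
    rw [mem_filter]
    refine ⟨mem_univ _, (h z (i, z.2)).2 ⟨?_, rfl⟩⟩
    unfold slc at hi
    exact (mem_filter.1 hi).2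
  · intro i _ i' _ hii
    have := (ZYT_e n K).injective hii
    exact (Prod.mk.inj this).1
  · intro w hw
    have hw' := (mem_filter.1 hw).2
    obtain ⟨z', rfl⟩ := (ZYT_e n K).surjective w
    obtain ⟨h1, h2⟩ := (h z z').1 hw'
    refine ⟨z'.1, ?_, ?_⟩
    · unfold slc
      exact mem_filter.2 ⟨mem_univ _, h1⟩
    · rw [← h2]
  · intro i _
    rw [Equiv.symm_apply_apply]

/-- HINT: transport `q` to `Fin n × Fin n × Fin n × Fin n × K`; `HT T q` is the entropy of the coordinates outside `T`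
joined with `K` (coordinates 0,1,2,3 are the variables 1,2,3,4 of `ZY`). -/
theorem ZYT {n : ℕ} {K : Type} [Fintype K] (q : Idx n × K → ℝ) (hq : ∀ z, 0 ≤ q z) :
    0 ≤ 3 * HT {0, 3} q + 3 * HT {1, 3} q + 3 * HT {2, 3} q + HT {0, 2} q + HT {1, 2} q - HT {0, 1} q
      - HT {0, 1, 3} q - 2 * HT {0, 2, 3} q - 2 * HT {1, 2, 3} q - HT {2} q - 4 * HT {3} q := by
  classical
  have key := ZY (fun w => q ((ZYT_e n K).symm w)) (fun w => hq _)
  rw [ZYT_hm {0, 3} q (fun z => (z.2.1, z.2.2.1, z.2.2.2.2)) (by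
      intro z z'; simp [ZYT_e, Fin.forall_fin_succ, and_assoc]),
    ZYT_hm {1, 3} q (fun z => (z.1, z.2.2.1, z.2.2.2.2)) (by
      intro z z'; simp [ZYT_e, Fin.forall_fin_succ, and_assoc]),
    ZYT_hm {2, 3} q (fun z => (z.1, z.2.1, z.2.2.2.2)) (by
      intro z z'; simp [ZYT_e, Fin.forall_fin_succ, and_assoc]),
    ZYT_hm {0, 2} q (fun z => (z.2.1, z.2.2.2.1, z.2.2.2.2)) (by
      intro z z'; simp [ZYT_e, Fin.forall_fin_succ, and_assoc]),
    ZYT_hm {1, 2} q (fun z => (z.1, z.2.2.2.1, z.2.2.2.2)) (by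
      intro z z'; simp [ZYT_e, Fin.forall_fin_succ, and_assoc]),
    ZYT_hm {0, 1} q (fun z => (z.2.2.1, z.2.2.2.1, z.2.2.2.2)) (by
      intro z z'; simp [ZYT_e, Fin.forall_fin_succ, and_assoc]),
    ZYT_hm {0, 1, 3} q (fun z => (z.2.2.1, z.2.2.2.2)) (by
      intro z z'; simp [ZYT_e, Fin.forall_fin_succ, and_assoc]),
    ZYT_hm {0, 2, 3} q (fun z => (z.2.1, z.2.2.2.2)) (by
      intro z z'; simp [ZYT_e, Fin.forall_fin_succ, and_assoc]),
    ZYT_hm {1, 2, 3} q (fun z => (z.1, z.2.2.2.2)) (by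
      intro z z'; simp [ZYT_e, Fin.forall_fin_succ, and_assoc]),
    ZYT_hm {2} q (fun z => (z.1, z.2.1, z.2.2.2.1, z.2.2.2.2)) (by
      intro z z'; simp [ZYT_e, Fin.forall_fin_succ, and_assoc]),
    ZYT_hm {3} q (fun z => (z.1, z.2.1, z.2.2.1, z.2.2.2.2)) (by
      intro z z'; simp [ZYT_e, Fin.forall_fin_succ, and_assoc])] at key
  linarith

end

end Pool.EQ
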