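import Pool.Agent.Helper364.EQ.Defs
set_option autoImplicit false
set_option linter.unusedVariables false

open Finset
open scoped ENNReal

namespace Pool.EQ

noncomputable section


--#TARGET: prove this one (put helper lemmas between this line and the target, prefix their names with `Gibbs_`)

/-- HINT: for `q z > 0`: `log (φ z / (B q z)) ≤ φ z / (B q z) - 1`; sum with weights `q z`. -/
theorem Gibbs {Z : Type} [Fintype Z] (q φ : Z → ℝ) (hq : ∀ z, 0 ≤ q z) (h1 : ∑ z, q z = 1)
    (hφ : ∀ z, 0 < q z → 0 < φ z) (B : ℝ) (hB : 0 < B) (h : ∑ z ∈ univ.filter (fun z => 0 < q z), φ z ≤ B) :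
    ∑ z, q z * Real.log (φ z) ≤ Real.log B + ∑ z, q z * Real.log (q z) := by
  have key : ∀ z, q z * Real.log (φ z) ≤ q z * Real.log B + q z * Real.log (q z) +
      ((if 0 < q z then φ z / B else 0) - q z) := by
    intro z
    rcases (hq z).lt_or_eq with h2 | h2
    · rw [if_pos h2]
      have h3 := hφ z h2
      have h4 := Real.log_le_sub_one_of_pos (show 0 < φ z / (B * q z) by positivity)
      rw [Real.log_div h3.ne' (by positivity), Real.log_mul hB.ne' h2.ne'] at h4
      have h5 := mul_le_mul_of_nonneg_left h4 h2.le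
      have h6 : q z * (φ z / (B * q z) - 1) = φ z / B - q z := by field_simp
      rw [h6] at h5
      linarith
    · rw [← h2]
      simp
  have h2 := Finset.sum_le_sum (fun z (_ : z ∈ (univ : Finset Z)) => key z)
  rw [Finset.sum_add_distrib, Finset.sum_add_distrib, Finset.sum_sub_distrib, ← Finset.sum_mul,
    h1, one_mul, ← Finset.sum_filter, ← Finset.sum_div] at h2
  have h3 : (∑ z ∈ univ.filter (fun z => 0 < q z), φ z) / B ≤ 1 := by
    rw [div_le_one hB]
    exact h
  linarith

end

end Pool.EQ
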