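import Pool.Agent.Helper364.EQ.Defs
set_option autoImplicit false
set_option linter.unusedVariables false

open Finset
open scoped ENNReal

namespace Pool.EQ

noncomputable section


--#TARGET: prove this one (put helper lemmas between this line and the target, prefix their names with `sl_sum_`)

theorem sl_sum_card {n : ℕ} (T : Finset (Fin 4)) (a : Idx n) :
    (slc T a).card = n ^ T.card := by
  have h : slc T a = Fintype.piFinset (fun l => if l ∈ T then (univ : Finset (Fin n)) else {a l}) := by
    ext i
    simp only [slc, mem_filter, mem_univ, true_and, Fintype.mem_piFinset]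
    constructor
    · intro h l
      by_cases hl : l ∈ T
      · simp [hl]
      · simp [hl, h l hl]
    · intro h l hl
      have := h l
      simpa [hl] using this
  rw [h, Fintype.card_piFinset]
  have : ∀ l, (if l ∈ T then (univ : Finset (Fin n)) else {a l}).card = if l ∈ T then n else 1 := by
    intro l
    split_ifs <;> simp
  simp only [this]
  rw [Finset.prod_ite_mem, univ_inter, prod_const]

theorem sl_sum_symm {n : ℕ} (T : Finset (Fin 4)) (a b : Idx n) : b ∈ slc T a ↔ a ∈ slc T b := by
  simp only [slc, mem_filter, mem_univ, true_and]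
  constructor
  · intro h l hl; exact (h l hl).symm
  · intro h l hl; exact (h l hl).symm

/-- sums over slices. HINT: `∑_{i} ψ(i) ∑_{i' ∈ slc T i} q(i') = ∑_{i'} q(i') ∑_{i ∈ slc T i'} ψ(i)` (symmetry of
`i' ∈ slc T i`), `ψ` is constant on slices and a slice has `n^{|T|}` elements. -/
theorem sl_sum {n : ℕ} (T : Finset (Fin 4)) (q ψ : Idx n → ℝ) (hψ : ∀ i, ∀ i' ∈ slc T i, ψ i' = ψ i) :
    ∑ i, ψ i * Sl T q i = (n : ℝ) ^ T.card * ∑ i, q i * ψ i := by
  have h1 : ∑ i, ψ i * Sl T q i = ∑ i, ∑ i' ∈ slc T i, ψ i * q i' := by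
    unfold Sl
    simp only [mul_sum]
  rw [h1, Finset.sum_comm' (s := univ) (t := fun i => slc T i) (t' := univ)
    (s' := fun i' => slc T i') (by intro x y; simp [sl_sum_symm T x y]), mul_sum]
  apply sum_congr rfl
  intro i' _
  rw [Finset.sum_congr rfl (fun i hi => by rw [hψ i' i hi])]
  rw [sum_const, sl_sum_card, nsmul_eq_mul]
  push_cast
  ring

end

end Pool.EQ
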