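import Pool.Agent.Helper364.EQ.Defs
import Pool.Agent.Helper364.EQ.P_Gibbs
import Pool.Agent.Helper364.EQ.P_sl_sum
set_option autoImplicit false
set_option linter.unusedVariables false

open Finset
open scoped ENNReal

namespace Pool.EQ

noncomputable section





--#TARGET: prove this one (put helper lemmas between this line and the target, prefix their names with `cond_Gibbs_`)

theorem cond_Gibbs_symm {n : ℕ} (T : Finset (Fin 4)) (a b : Idx n) :
    a ∈ slc T b ↔ b ∈ slc T a := by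
  simp only [slc, Finset.mem_filter, Finset.mem_univ, true_and]
  exact ⟨fun h l hl => (h l hl).symm, fun h l hl => (h l hl).symm⟩

theorem cond_Gibbs_self {n : ℕ} (T : Finset (Fin 4)) (a : Idx n) : a ∈ slc T a := by
  simp [slc]

theorem cond_Gibbs_eq {n : ℕ} (T : Finset (Fin 4)) (a b : Idx n) (h : a ∈ slc T b) :
    slc T a = slc T b := by
  simp only [slc, Finset.mem_filter, Finset.mem_univ, true_and] at h
  ext i
  simp only [slc, Finset.mem_filter, Finset.mem_univ, true_and]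
  exact ⟨fun h' l hl => (h' l hl).trans (h l hl), fun h' l hl => (h' l hl).trans (h l hl).symm⟩

theorem cond_Gibbs_pos {n : ℕ} {K : Type} [Fintype K] (T : Finset (Fin 4)) (q : Idx n × K → ℝ)
    (hq : ∀ z, 0 ≤ q z) (z : Idx n × K) : q z ≤ qT T q z := by
  unfold qT
  exact Finset.single_le_sum (f := fun i => q (i, z.2)) (fun i _ => hq _) (cond_Gibbs_self T z.1)

theorem cond_Gibbs_swap {n : ℕ} (T : Finset (Fin 4)) (q φ : Idx n → ℝ)
    (hq : ∀ z, 0 ≤ q z) (h0 : ∀ z, 0 ≤ φ z) :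
    ∑ i, φ i * (∑ i' ∈ slc T i, q i') / (∑ i' ∈ slc T i, φ i') ≤ ∑ i, q i := by
  have e1 : ∑ i, φ i * (∑ i' ∈ slc T i, q i') / (∑ i' ∈ slc T i, φ i')
      = ∑ i, ∑ i' ∈ slc T i, φ i * q i' / (∑ j ∈ slc T i, φ j) := by
    refine Finset.sum_congr rfl fun i _ => ?_
    rw [Finset.mul_sum, Finset.sum_div]
  have e2 : ∑ i, ∑ i' ∈ slc T i, φ i * q i' / (∑ j ∈ slc T i, φ j)
      = ∑ i', ∑ i ∈ slc T i', φ i * q i' / (∑ j ∈ slc T i, φ j) := by
    apply Finset.sum_comm'
    intro x y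
    simp only [Finset.mem_univ, true_and, and_true]
    exact cond_Gibbs_symm T y x
  rw [e1, e2]
  refine Finset.sum_le_sum fun i' _ => ?_
  have e3 : ∑ i ∈ slc T i', φ i * q i' / (∑ j ∈ slc T i, φ j)
      = (∑ i ∈ slc T i', φ i) * q i' / (∑ j ∈ slc T i', φ j) := by
    rw [Finset.sum_mul, Finset.sum_div]
    refine Finset.sum_congr rfl fun i hi => ?_
    rw [cond_Gibbs_eq T i i' hi]
  rw [e3]
  rcases eq_or_ne (∑ i ∈ slc T i', φ i) 0 with h | h
  · rw [h]; simpa using hq i'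
  · rw [mul_div_assoc, mul_div_cancel₀ _ h]

/-- HINT: put `s z = ∑_{i ∈ slc T z.1} φ (i, z.2)` and `φ' z = φ z * qT z / s z`; apply `Gibbs` to `q` and `φ'` with
`B = 1`: `∑_z φ z qT z / s z = ∑_k n^{-|T|}∑_i (slice sum of φ) * (qT/s) = n^{-|T|} ∑_z qT z = 1` (`sl_sum` twice; only
slices with `s > 0` matter, note `q z > 0` implies `s z > 0`, `qT z > 0`; terms with `q z = 0` may be dropped or are
nonnegative). -/
theorem cond_Gibbs {n : ℕ} {K : Type} [Fintype K] (T : Finset (Fin 4)) (q φ : Idx n × K → ℝ)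
    (hq : ∀ z, 0 ≤ q z) (h1 : ∑ z, q z = 1) (h0 : ∀ z, 0 ≤ φ z) (hφ : ∀ z, 0 < q z → 0 < φ z) :
    ∑ z, q z * Real.log (φ z) ≤ (∑ z, q z * Real.log (qT T φ z)) + (∑ z, q z * Real.log (q z))
      - ∑ z, q z * Real.log (qT T q z) := by
  have hs : ∀ z, 0 < q z → 0 < qT T φ z := fun z hz => (hφ z hz).trans_le (cond_Gibbs_pos T φ h0 z)
  have hQ : ∀ z, 0 < q z → 0 < qT T q z := fun z hz => hz.trans_le (cond_Gibbs_pos T q hq z)
  have hsn : ∀ z, 0 ≤ qT T φ z := fun z => (h0 z).trans (cond_Gibbs_pos T φ h0 z)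
  have hQn : ∀ z, 0 ≤ qT T q z := fun z => (hq z).trans (cond_Gibbs_pos T q hq z)
  have hG := Gibbs q (fun z => φ z * qT T q z / qT T φ z) hq h1
    (fun z hz => div_pos (mul_pos (hφ z hz) (hQ z hz)) (hs z hz)) 1 one_pos (by
      calc ∑ z ∈ univ.filter (fun z => 0 < q z), φ z * qT T q z / qT T φ z
          ≤ ∑ z, φ z * qT T q z / qT T φ z :=
            Finset.sum_le_sum_of_subset_of_nonneg (Finset.filter_subset _ _)
              (fun z _ _ => div_nonneg (mul_nonneg (h0 z) (hQn z)) (hsn z))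
        _ = ∑ k : K, ∑ i : Idx n, φ (i, k) * qT T q (i, k) / qT T φ (i, k) := by
            rw [Fintype.sum_prod_type_right]
        _ ≤ ∑ k : K, ∑ i : Idx n, q (i, k) := by
            refine Finset.sum_le_sum fun k _ => ?_
            exact cond_Gibbs_swap T (fun i => q (i, k)) (fun i => φ (i, k)) (fun _ => hq _)
              (fun _ => h0 _)
        _ = ∑ z, q z := by rw [Fintype.sum_prod_type_right]
        _ = 1 := h1
        _ ≤ 1 := le_rfl)
  rw [Real.log_one, zero_add] at hG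
  have e : ∀ z, q z * Real.log (φ z * qT T q z / qT T φ z)
      = q z * Real.log (φ z) + q z * Real.log (qT T q z) - q z * Real.log (qT T φ z) := by
    intro z
    rcases (hq z).eq_or_lt with h | h
    · rw [← h]; ring
    · rw [Real.log_div (mul_pos (hφ z h) (hQ z h)).ne' (hs z h).ne',
        Real.log_mul (hφ z h).ne' (hQ z h).ne']
      ring
  have hG2 : ∑ z, (q z * Real.log (φ z) + q z * Real.log (qT T q z) - q z * Real.log (qT T φ z))
      ≤ ∑ z, q z * Real.log (q z) := by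
    calc _ = ∑ z, q z * Real.log (φ z * qT T q z / qT T φ z) :=
          Finset.sum_congr rfl fun z _ => (e z).symm
      _ ≤ _ := hG
  rw [Finset.sum_sub_distrib, Finset.sum_add_distrib] at hG2
  linarith

end

end Pool.EQ
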