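import Pool.Agent.Helper364.EQ.Defs
import Pool.Agent.Helper364.EQ.P_sl_sum
set_option autoImplicit false
set_option linter.unusedVariables false

open Finset
open scoped ENNReal

namespace Pool.EQ

noncomputable section




--#TARGET: prove this one (put helper lemmas between this line and the target, prefix their names with `marg_Gibbs_`)

theorem marg_Gibbs_slc {n : ℕ} (T : Finset (Fin 4)) (i i' : Idx n) (h : i' ∈ slc T i) :
    slc T i' = slc T i := by
  unfold slc at h ⊢
  simp only [Finset.mem_filter, Finset.mem_univ, true_and] at h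
  ext j
  simp only [Finset.mem_filter, Finset.mem_univ, true_and]
  constructor
  · intro h' l hl
    rw [h' l hl, h l hl]
  · intro h' l hl
    rw [h' l hl, h l hl]

theorem marg_Gibbs_self {n : ℕ} (T : Finset (Fin 4)) (i : Idx n) : i ∈ slc T i := by
  unfold slc
  simp

theorem marg_Gibbs_bound {n : ℕ} (hn : 1 ≤ n) {K : Type} [Fintype K] (T : Finset (Fin 4))
    (q χ : Idx n × K → ℝ)
    (hq : ∀ z, 0 ≤ q z) (h0 : ∀ z, 0 ≤ χ z)
    (hc : ∀ z, ∀ i' ∈ slc T z.1, χ (i', z.2) = χ z) (B : ℝ)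
    (h : ∑ z, χ z ≤ B * (n : ℝ) ^ T.card) :
    ∑ z, q z * (χ z / qT T q z) ≤ B := by
  have hn' : (0 : ℝ) < (n : ℝ) ^ T.card := by
    have : (0 : ℝ) < n := by exact_mod_cast hn
    positivity
  have h2 : ∀ k : K, (n : ℝ) ^ T.card * ∑ i, q (i, k) * (χ (i, k) / qT T q (i, k)) ≤
      ∑ i, χ (i, k) := by
    intro k
    rw [← sl_sum T (fun i => q (i, k)) (fun i => χ (i, k) / qT T q (i, k))]
    · refine Finset.sum_le_sum fun i _ => ?_
      have e : Sl T (fun i => q (i, k)) i = qT T q (i, k) := rfl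
      rw [e]
      by_cases hz : qT T q (i, k) = 0
      · rw [hz, mul_zero]; exact h0 _
      · rw [div_mul_cancel₀ _ hz]
    · intro i i' hi'
      have e1 := hc (i, k) i' hi'
      have e2 : qT T q (i', k) = qT T q (i, k) := by
        unfold qT
        simp only
        rw [marg_Gibbs_slc T i i' hi']
      simp only at e1 ⊢
      rw [e1, e2]
  have h3 : (n : ℝ) ^ T.card * ∑ z, q z * (χ z / qT T q z) ≤ B * (n : ℝ) ^ T.card := by
    refine le_trans ?_ h
    rw [Fintype.sum_prod_type_right, Fintype.sum_prod_type_right, Finset.mul_sum]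
    exact Finset.sum_le_sum fun k _ => h2 k
  rw [mul_comm] at h3
  exact le_of_mul_le_mul_right h3 hn'

/-- HINT: `∑ q log (χ / qT) ≤ log ∑_{q z > 0} q χ/qT` (Jensen, or `log x ≤ x - 1` after scaling by `B / n^{|T|}`), and
`∑_z q z χ z / qT z ≤ n^{-|T|} ∑_z χ z` because `χ/qT` is constant on slices (`sl_sum`). -/
theorem marg_Gibbs {n : ℕ} (hn : 1 ≤ n) {K : Type} [Fintype K] (T : Finset (Fin 4)) (q χ : Idx n × K → ℝ)
    (hq : ∀ z, 0 ≤ q z) (h1 : ∑ z, q z = 1) (h0 : ∀ z, 0 ≤ χ z) (hχ : ∀ z, 0 < q z → 0 < χ z)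
    (hc : ∀ z, ∀ i' ∈ slc T z.1, χ (i', z.2) = χ z) (B : ℝ) (hB : 0 < B) (h : ∑ z, χ z ≤ B * (n : ℝ) ^ T.card) :
    ∑ z, q z * Real.log (χ z) ≤ Real.log B + ∑ z, q z * Real.log (qT T q z) := by
  have hb := marg_Gibbs_bound hn T q χ hq h0 hc B h
  have hpt : ∀ z, q z * Real.log (χ z) ≤ q z * Real.log B + q z * Real.log (qT T q z) +
      (q z * (χ z / qT T q z) * B⁻¹ - q z) := by
    intro z
    rcases (hq z).eq_or_lt with hz | hz
    · rw [← hz]; simp
    · have hqT : 0 < qT T q z := by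
        unfold qT
        exact lt_of_lt_of_le hz (Finset.single_le_sum (f := fun i => q (i, z.2))
          (fun i _ => hq _) (marg_Gibbs_self T z.1))
      have hχz := hχ z hz
      have h2 := Real.log_le_sub_one_of_pos (show 0 < χ z / (B * qT T q z) by positivity)
      rw [Real.log_div hχz.ne' (by positivity), Real.log_mul hB.ne' hqT.ne'] at h2
      have h3 := mul_le_mul_of_nonneg_left h2 hz.le
      have h4 : χ z / (B * qT T q z) = χ z / qT T q z * B⁻¹ := by
        field_simp
      rw [h4] at h3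
      nlinarith [h3]
  have hsum := Finset.sum_le_sum fun z (_ : z ∈ (Finset.univ : Finset (Idx n × K))) => hpt z
  rw [Finset.sum_add_distrib, Finset.sum_add_distrib, Finset.sum_sub_distrib, ← Finset.sum_mul,
    ← Finset.sum_mul, h1, one_mul] at hsum
  have h5 : (∑ z, q z * (χ z / qT T q z)) * B⁻¹ ≤ 1 := by
    rw [← div_eq_mul_inv, div_le_one hB]
    exact hb
  linarith

end

end Pool.EQ
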