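import Pool.Agent.Helper364.EQ.Defs
import Pool.Agent.Helper364.EQ.P_Gibbs
import Pool.Agent.Helper364.EQ.P_cond_Gibbs
import Pool.Agent.Helper364.EQ.P_marg_Gibbs
set_option autoImplicit false
set_option linter.unusedVariables false

open Finset
open scoped ENNReal

namespace Pool.EQ

noncomputable section






--#TARGET: prove this one (put helper lemmas between this line and the target, prefix their names with `dens_`)

theorem dens_slc_empty {n : ℕ} (a : Idx n) : slc ∅ a = {a} := by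
  ext i
  simp [slc, funext_iff]

theorem dens_slc_self {n : ℕ} (T : Finset (Fin 4)) (a : Idx n) : a ∈ slc T a := by
  simp [slc]

theorem dens_slc_eq {n : ℕ} (T : Finset (Fin 4)) (a b : Idx n) (h : b ∈ slc T a) : slc T b = slc T a := by
  simp only [slc, mem_filter, mem_univ, true_and] at h
  ext i
  simp only [slc, mem_filter, mem_univ, true_and]
  constructor
  · intro hi l hl; rw [hi l hl, h l hl]
  · intro hi l hl; rw [hi l hl, h l hl]

theorem dens_Sl_empty {n : ℕ} (v : Idx n → ℝ) (a : Idx n) : Sl ∅ v a = v a := by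
  simp [Sl, dens_slc_empty]

theorem dens_arith1 (Ef Eg h0 hT Es L N lm lC₁ lC₂ p l2 : ℝ)
    (a2 : 4 / 3 * Eg ≤ lC₂ + N - h0) (a3 : N - l2 - h0 ≤ Ef + Eg)
    (a4 : 2 * Ef ≤ Es - h0 + hT) (a5 : 2 * Es ≤ (N + lC₁ - p * lm + L) - hT) :
    p * lm - (lC₁ + 3 * lC₂ + 4 * l2) ≤ L + hT - h0 := by
  linarith

theorem dens_arith2 (Ef Eg h0 hT Et L N lm lC₁ lC₂ p l2 : ℝ)
    (a1 : 4 * Ef ≤ lC₁ + N - h0) (a3 : N - l2 - h0 ≤ Ef + Eg)
    (a4 : 2 * Eg ≤ Et - h0 + hT) (a5 : 2 / 3 * Et ≤ (N + lC₂ + p / 3 * lm - L / 3) - hT) :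
    L + hT - h0 ≤ p * lm + (lC₁ + 3 * lC₂ + 4 * l2) := by
  linarith

/-- The two bounds for `Δ_T = |T| log n + HT T q - HT ∅ q`. Here `q = f g / Z`.
HINT: write `E φ = ∑ q log φ`, `N = n⁴ = card (Idx n)`, `h0 = HT ∅ q = -E q`, `hT = HT T q = -E qT`. `Z ≥ N/2`.
(1) `Gibbs` with `φ = f⁴`, `B = C₁N` (hypothesis for `∅`: `Sl ∅ v a = v a`): `4 E f ≤ log C₁ + log N - h0`; with
`φ = g^{4/3}`, `B = C₂N`: `(4/3) E g ≤ log C₂ + log N - h0`; `E f + E g = log Z - h0 ≥ log N - log 2 - h0`.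
(2) lower bound: `s = Sl T f²`: `2 E f ≤ E s - h0 + hT` (`cond_Gibbs`), `2 E s ≤ log(N C₁ m^{-psi} n^{|T|}) - hT`
(`marg_Gibbs` with `χ = s²`). Then `psi(T) log m ≤ Δ_T + log C₁ + 4 log 2 + 3 log C₂`.
(3) upper bound: `t = Sl T g²`: `2 E g ≤ E t - h0 + hT`, `(2/3) E t ≤ log(N C₂ m^{psi/3} n^{-|T|/3}) - hT` (`marg_Gibbs` with
`χ = t^{2/3}`), so `Δ_T ≤ psi(T) log m + 3 log C₂ + 4 log 2 + log C₁`. -/
theorem dens {n m : ℕ} (hn : 1 ≤ n) (hm : 1 ≤ m) {K : Type} [Fintype K] (f g : Idx n → K → ℝ)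
    (hf : ∀ i k, 0 ≤ f i k) (hg : ∀ i k, 0 ≤ g i k) (C₁ C₂ : ℝ) (h1 : 1 ≤ C₁) (h2 : 1 ≤ C₂)
    (ha : ∀ T a, ∑ k, (Sl T (fun i => f i k ^ 2) a) ^ 2 ≤ C₁ * (1 / (m : ℝ)) ^ (psi T) * (n : ℝ) ^ (2 * T.card))
    (hb : ∀ T a, ∑ k, (Sl T (fun i => g i k ^ 2) a) ^ ((2 : ℝ) / 3) ≤
      C₂ * (m : ℝ) ^ ((psi T : ℝ) / 3) * (n : ℝ) ^ (2 * (T.card : ℝ) / 3))
    (hc : ∀ i, 1 / 2 ≤ ∑ k, f i k * g i k) (T : Finset (Fin 4)) (q : Idx n × K → ℝ)
    (hqd : q = fun z => f z.1 z.2 * g z.1 z.2 / ∑ z' : Idx n × K, f z'.1 z'.2 * g z'.1 z'.2) :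
    ((psi T : ℝ) * Real.log m - (Real.log C₁ + 3 * Real.log C₂ + 4 * Real.log 2) ≤
      (T.card : ℝ) * Real.log n + HT T q - HT ∅ q) ∧
    ((T.card : ℝ) * Real.log n + HT T q - HT ∅ q ≤
      (psi T : ℝ) * Real.log m + (Real.log C₁ + 3 * Real.log C₂ + 4 * Real.log 2)) := by
  classical
  have hn0 : (0 : ℝ) < n := by exact_mod_cast hn
  have hm0 : (0 : ℝ) < m := by exact_mod_cast hm
  have hC1 : 0 < C₁ := by linarith
  have hC2 : 0 < C₂ := by linarith
  have hcard : (Fintype.card (Idx n) : ℝ) = (n : ℝ) ^ 4 := by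
    simp [Idx]
  have hN : (0 : ℝ) < (n : ℝ) ^ 4 := by positivity
  set Z : ℝ := ∑ z' : Idx n × K, f z'.1 z'.2 * g z'.1 z'.2 with hZdef
  have hZ : (n : ℝ) ^ 4 / 2 ≤ Z := by
    rw [hZdef, Fintype.sum_prod_type]
    calc (n : ℝ) ^ 4 / 2 = ∑ i : Idx n, (1 / 2 : ℝ) := by
          rw [sum_const, card_univ, nsmul_eq_mul, hcard]; ring
      _ ≤ _ := sum_le_sum fun i _ => hc i
  have hZ0 : 0 < Z := by linarith
  have hqz : ∀ z, q z = f z.1 z.2 * g z.1 z.2 / Z := fun z => by rw [hqd]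
  have hq0 : ∀ z, 0 ≤ q z := fun z => by
    rw [hqz]; exact div_nonneg (mul_nonneg (hf _ _) (hg _ _)) hZ0.le
  have hq1 : ∑ z, q z = 1 := by
    simp_rw [hqz]
    rw [← sum_div, ← hZdef, div_self hZ0.ne']
  have hfp : ∀ z, 0 < q z → 0 < f z.1 z.2 := by
    intro z hz
    rcases (hf z.1 z.2).eq_or_lt with h | h
    · rw [hqz, ← h] at hz; simp at hz
    · exact h
  have hgp : ∀ z, 0 < q z → 0 < g z.1 z.2 := by
    intro z hz
    rcases (hg z.1 z.2).eq_or_lt with h | h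
    · rw [hqz, ← h] at hz; simp at hz
    · exact h
  have hsumcongr : ∀ (φ ψ : Idx n × K → ℝ), (∀ z, 0 < q z → φ z = ψ z) →
      ∑ z, q z * φ z = ∑ z, q z * ψ z := by
    intro φ ψ h
    apply sum_congr rfl
    intro z _
    rcases (hq0 z).eq_or_lt with h' | h'
    · rw [← h']; simp
    · rw [h z h']
  set Ef : ℝ := ∑ z, q z * Real.log (f z.1 z.2) with hEf
  set Eg : ℝ := ∑ z, q z * Real.log (g z.1 z.2) with hEg
  have hmul : ∀ (c : ℝ) (φ : Idx n × K → ℝ), ∑ z, q z * (c * φ z) = c * ∑ z, q z * φ z := by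
    intro c φ
    rw [mul_sum]
    exact sum_congr rfl fun z _ => by ring
  have hqlog : ∑ z, q z * Real.log (q z) = - HT ∅ q := by
    simp only [HT, qT, dens_slc_empty, sum_singleton, neg_neg]
  have hqTlog : ∑ z, q z * Real.log (qT T q z) = - HT T q := by
    simp only [HT, neg_neg]
  have e3 : Real.log ((n : ℝ) ^ 4) - Real.log 2 - HT ∅ q ≤ Ef + Eg := by
    have : Ef + Eg = Real.log Z - HT ∅ q := by
      rw [hEf, hEg, ← sum_add_distrib]
      have h1' : ∑ z, (q z * Real.log (f z.1 z.2) + q z * Real.log (g z.1 z.2)) =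
          ∑ z, q z * (Real.log Z + Real.log (q z)) := by
        rw [← hsumcongr (fun z => Real.log (f z.1 z.2) + Real.log (g z.1 z.2)) _ _]
        · exact sum_congr rfl fun z _ => by ring
        · intro z hz
          rw [← Real.log_mul (hfp z hz).ne' (hgp z hz).ne', ← Real.log_mul hZ0.ne' hz.ne']
          congr 1
          rw [hqz]; field_simp
      rw [h1']
      simp_rw [mul_add]
      rw [sum_add_distrib, ← sum_mul, hq1, hqlog]
      ring
    rw [this]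
    have : Real.log ((n : ℝ) ^ 4) - Real.log 2 ≤ Real.log Z := by
      rw [← Real.log_div hN.ne' (by norm_num)]
      exact Real.log_le_log (by positivity) hZ
    linarith
  have e1 : 4 * Ef ≤ Real.log C₁ + Real.log ((n : ℝ) ^ 4) - HT ∅ q := by
    have hG := Gibbs q (fun z => f z.1 z.2 ^ 4) hq0 hq1 (fun z hz => pow_pos (hfp z hz) 4)
      (C₁ * (n : ℝ) ^ 4) (by positivity) (by
        refine (sum_le_sum_of_subset_of_nonneg (filter_subset _ _) (fun z _ _ => by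
          have := hf z.1 z.2; positivity)).trans ?_
        rw [Fintype.sum_prod_type]
        calc ∑ i : Idx n, ∑ k, f i k ^ 4 ≤ ∑ i : Idx n, C₁ := by
              apply sum_le_sum
              intro i _
              have := ha ∅ i
              simp only [dens_Sl_empty, card_empty, mul_zero, pow_zero, mul_one] at this
              have hp : psi ∅ = 0 := by simp [psi]
              rw [hp, pow_zero, mul_one] at this
              refine le_trans (le_of_eq ?_) this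
              exact sum_congr rfl fun k _ => by ring
          _ = C₁ * (n : ℝ) ^ 4 := by rw [sum_const, card_univ, nsmul_eq_mul, hcard]; ring)
    rw [hqlog, Real.log_mul hC1.ne' hN.ne'] at hG
    have : ∑ z, q z * Real.log (f z.1 z.2 ^ 4) = 4 * Ef := by
      rw [hEf, ← hmul]
      exact sum_congr rfl fun z _ => by rw [Real.log_pow]; norm_num
    rw [this] at hG
    linarith
  have e2 : 4 / 3 * Eg ≤ Real.log C₂ + Real.log ((n : ℝ) ^ 4) - HT ∅ q := by
    have hG := Gibbs q (fun z => (g z.1 z.2 ^ 2) ^ ((2 : ℝ) / 3)) hq0 hq1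
      (fun z hz => Real.rpow_pos_of_pos (pow_pos (hgp z hz) 2) _)
      (C₂ * (n : ℝ) ^ 4) (by positivity) (by
        refine (sum_le_sum_of_subset_of_nonneg (filter_subset _ _) (fun z _ _ => by
          positivity)).trans ?_
        rw [Fintype.sum_prod_type]
        calc ∑ i : Idx n, ∑ k, (g i k ^ 2) ^ ((2 : ℝ) / 3) ≤ ∑ i : Idx n, C₂ := by
              apply sum_le_sum
              intro i _
              have := hb ∅ i
              have hp : psi ∅ = 0 := by simp [psi]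
              simpa [dens_Sl_empty, hp] using this
          _ = C₂ * (n : ℝ) ^ 4 := by rw [sum_const, card_univ, nsmul_eq_mul, hcard]; ring)
    rw [hqlog, Real.log_mul hC2.ne' hN.ne'] at hG
    have : ∑ z, q z * Real.log ((g z.1 z.2 ^ 2) ^ ((2 : ℝ) / 3)) = 4 / 3 * Eg := by
      rw [hEg, ← hmul]
      apply hsumcongr
      intro z hz
      rw [Real.log_rpow (pow_pos (hgp z hz) 2), Real.log_pow]
      push_cast
      ring
    rw [this] at hG
    linarith
  have hsl : ∀ (F : Idx n → K → ℝ) (z : Idx n × K),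
      qT T (fun z => F z.1 z.2 ^ 2) z = Sl T (fun i => F i z.2 ^ 2) z.1 := fun F z => rfl
  have hslp : ∀ (F : Idx n → K → ℝ) (z : Idx n × K), 0 < F z.1 z.2 →
      0 < Sl T (fun i => F i z.2 ^ 2) z.1 := by
    intro F z hz
    have : F z.1 z.2 ^ 2 ≤ Sl T (fun i => F i z.2 ^ 2) z.1 :=
      single_le_sum (f := fun i => F i z.2 ^ 2) (fun i _ => sq_nonneg _) (dens_slc_self T z.1)
    have h2 : 0 < F z.1 z.2 ^ 2 := by positivity
    linarith
  have hsl0 : ∀ (F : Idx n → K → ℝ) (a : Idx n) (k : K), 0 ≤ Sl T (fun i => F i k ^ 2) a :=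
    fun F a k => sum_nonneg fun i _ => sq_nonneg _
  have hslc : ∀ (F : Idx n → K → ℝ) (z : Idx n × K), ∀ i' ∈ slc T z.1,
      Sl T (fun i => F i z.2 ^ 2) i' = Sl T (fun i => F i z.2 ^ 2) z.1 := by
    intro F z i' hi'
    simp only [Sl, dens_slc_eq T _ _ hi']
  have e4 : 2 * Ef ≤ (∑ z, q z * Real.log (Sl T (fun i => f i z.2 ^ 2) z.1)) - HT ∅ q + HT T q := by
    have hG := cond_Gibbs T q (fun z => f z.1 z.2 ^ 2) hq0 hq1 (fun z => sq_nonneg _)
      (fun z hz => pow_pos (hfp z hz) 2)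
    simp only [hsl] at hG
    rw [hqlog, hqTlog] at hG
    have : ∑ z, q z * Real.log (f z.1 z.2 ^ 2) = 2 * Ef := by
      rw [hEf, ← hmul]
      exact sum_congr rfl fun z _ => by rw [Real.log_pow]; norm_num
    rw [this] at hG
    linarith
  have e4' : 2 * Eg ≤ (∑ z, q z * Real.log (Sl T (fun i => g i z.2 ^ 2) z.1)) - HT ∅ q + HT T q := by
    have hG := cond_Gibbs T q (fun z => g z.1 z.2 ^ 2) hq0 hq1 (fun z => sq_nonneg _)
      (fun z hz => pow_pos (hgp z hz) 2)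
    simp only [hsl] at hG
    rw [hqlog, hqTlog] at hG
    have : ∑ z, q z * Real.log (g z.1 z.2 ^ 2) = 2 * Eg := by
      rw [hEg, ← hmul]
      exact sum_congr rfl fun z _ => by rw [Real.log_pow]; norm_num
    rw [this] at hG
    linarith
  have e5 : 2 * (∑ z, q z * Real.log (Sl T (fun i => f i z.2 ^ 2) z.1)) ≤
      (Real.log ((n : ℝ) ^ 4) + Real.log C₁ - (psi T : ℝ) * Real.log m + (T.card : ℝ) * Real.log n) - HT T q := by
    have hG := marg_Gibbs hn T q (fun z => (Sl T (fun i => f i z.2 ^ 2) z.1) ^ 2) hq0 hq1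
      (fun z => sq_nonneg _) (fun z hz => pow_pos (hslp f z (hfp z hz)) 2)
      (fun z i' hi' => by simp only [hslc f z i' hi'])
      ((n : ℝ) ^ 4 * C₁ * (1 / (m : ℝ)) ^ (psi T) * (n : ℝ) ^ T.card) (by positivity) (by
        rw [Fintype.sum_prod_type]
        calc ∑ i : Idx n, ∑ k, (Sl T (fun j => f j k ^ 2) i) ^ 2
            ≤ ∑ i : Idx n, (C₁ * (1 / (m : ℝ)) ^ (psi T) * (n : ℝ) ^ (2 * T.card)) :=
              sum_le_sum fun i _ => ha T i
          _ = (n : ℝ) ^ 4 * C₁ * (1 / (m : ℝ)) ^ (psi T) * (n : ℝ) ^ T.card * (n : ℝ) ^ T.card := by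
              rw [sum_const, card_univ, nsmul_eq_mul, hcard]; ring)
    rw [hqTlog] at hG
    have hl : Real.log ((n : ℝ) ^ 4 * C₁ * (1 / (m : ℝ)) ^ (psi T) * (n : ℝ) ^ T.card) =
        Real.log ((n : ℝ) ^ 4) + Real.log C₁ - (psi T : ℝ) * Real.log m + (T.card : ℝ) * Real.log n := by
      have a1 : (1 / (m : ℝ)) ^ (psi T) ≠ 0 := by positivity
      have a2 : (n : ℝ) ^ T.card ≠ 0 := by positivity
      rw [Real.log_mul (by positivity) a2, Real.log_mul (by positivity) a1, Real.log_mul hN.ne' hC1.ne',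
        Real.log_pow (1 / (m : ℝ)) (psi T), Real.log_pow (n : ℝ) T.card, one_div, Real.log_inv]
      ring
    rw [hl] at hG
    have : ∑ z, q z * Real.log ((Sl T (fun i => f i z.2 ^ 2) z.1) ^ 2) =
        2 * (∑ z, q z * Real.log (Sl T (fun i => f i z.2 ^ 2) z.1)) := by
      rw [← hmul]
      exact sum_congr rfl fun z _ => by rw [Real.log_pow]; norm_num
    rw [this] at hG
    linarith
  have e5' : 2 / 3 * (∑ z, q z * Real.log (Sl T (fun i => g i z.2 ^ 2) z.1)) ≤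
      (Real.log ((n : ℝ) ^ 4) + Real.log C₂ + (psi T : ℝ) / 3 * Real.log m -
        (T.card : ℝ) * Real.log n / 3) - HT T q := by
    have hG := marg_Gibbs hn T q (fun z => (Sl T (fun i => g i z.2 ^ 2) z.1) ^ ((2 : ℝ) / 3)) hq0 hq1
      (fun z => Real.rpow_nonneg (hsl0 g _ _) _)
      (fun z hz => Real.rpow_pos_of_pos (hslp g z (hgp z hz)) _)
      (fun z i' hi' => by simp only [hslc g z i' hi'])
      ((n : ℝ) ^ 4 * C₂ * (m : ℝ) ^ ((psi T : ℝ) / 3) * (n : ℝ) ^ (-(T.card : ℝ) / 3)) (by positivity) (by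
        rw [Fintype.sum_prod_type]
        calc ∑ i : Idx n, ∑ k, (Sl T (fun j => g j k ^ 2) i) ^ ((2 : ℝ) / 3)
            ≤ ∑ i : Idx n, (C₂ * (m : ℝ) ^ ((psi T : ℝ) / 3) * (n : ℝ) ^ (2 * (T.card : ℝ) / 3)) :=
              sum_le_sum fun i _ => hb T i
          _ = (n : ℝ) ^ 4 * C₂ * (m : ℝ) ^ ((psi T : ℝ) / 3) *
              ((n : ℝ) ^ (-(T.card : ℝ) / 3) * (n : ℝ) ^ (T.card : ℝ)) := by
              rw [sum_const, card_univ, nsmul_eq_mul, hcard, ← Real.rpow_add hn0]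
              ring_nf
          _ = _ := by rw [Real.rpow_natCast]; ring)
    rw [hqTlog] at hG
    have hl : Real.log ((n : ℝ) ^ 4 * C₂ * (m : ℝ) ^ ((psi T : ℝ) / 3) * (n : ℝ) ^ (-(T.card : ℝ) / 3)) =
        Real.log ((n : ℝ) ^ 4) + Real.log C₂ + (psi T : ℝ) / 3 * Real.log m -
        (T.card : ℝ) * Real.log n / 3 := by
      have a1 : (m : ℝ) ^ ((psi T : ℝ) / 3) ≠ 0 := by positivity
      have a2 : (n : ℝ) ^ (-(T.card : ℝ) / 3) ≠ 0 := by positivity
      rw [Real.log_mul (by positivity) a2, Real.log_mul (by positivity) a1, Real.log_mul hN.ne' hC2.ne',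
        Real.log_rpow hm0, Real.log_rpow hn0]
      ring
    rw [hl] at hG
    have : ∑ z, q z * Real.log ((Sl T (fun i => g i z.2 ^ 2) z.1) ^ ((2 : ℝ) / 3)) =
        2 / 3 * (∑ z, q z * Real.log (Sl T (fun i => g i z.2 ^ 2) z.1)) := by
      rw [← hmul]
      apply hsumcongr
      intro z hz
      rw [Real.log_rpow (hslp g z (hgp z hz))]
    rw [this] at hG
    linarith
  exact ⟨dens_arith1 Ef Eg (HT ∅ q) (HT T q) _ _ _ _ _ _ _ _ e2 e3 e4 e5,
    dens_arith2 Ef Eg (HT ∅ q) (HT T q) _ _ _ _ _ _ _ _ e1 e3 e4' e5'⟩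

end

end Pool.EQ
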