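import Pool.Agent.Helper364.EQ.Defs
import Pool.Agent.Helper364.EQ.P_dens
import Pool.Agent.Helper364.EQ.P_ZYT
set_option autoImplicit false
set_option linter.unusedVariables false

open Finset
open scoped ENNReal

namespace Pool.EQ

noncomputable section





--#TARGET: prove this one (put helper lemmas between this line and the target, prefix their names with `ENT_`)

/-- HINT: `q = f g / Z`; `ZYT` and `dens` (upper bounds for the sets with positive coefficient, lower bounds for the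
others; `∑ coef·|T| = 0`, `∑ coef = 0`): `0 ≤ -log m + 22 c`, `c = log C₁ + 3 log C₂ + 4 log 2`
(`psi {0,3} = 3`, ..., `psi {0,1} = 4`, by `decide`). -/
theorem ENT {n m : ℕ} (hn : 1 ≤ n) (hm : 1 ≤ m) {K : Type} [Fintype K] (f g : Idx n → K → ℝ)
    (hf : ∀ i k, 0 ≤ f i k) (hg : ∀ i k, 0 ≤ g i k) (C₁ C₂ : ℝ) (h1 : 1 ≤ C₁) (h2 : 1 ≤ C₂)
    (ha : ∀ T a, ∑ k, (Sl T (fun i => f i k ^ 2) a) ^ 2 ≤ C₁ * (1 / (m : ℝ)) ^ (psi T) * (n : ℝ) ^ (2 * T.card))
    (hb : ∀ T a, ∑ k, (Sl T (fun i => g i k ^ 2) a) ^ ((2 : ℝ) / 3) ≤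
      C₂ * (m : ℝ) ^ ((psi T : ℝ) / 3) * (n : ℝ) ^ (2 * (T.card : ℝ) / 3))
    (hc : ∀ i, 1 / 2 ≤ ∑ k, f i k * g i k) :
    Real.log m ≤ 22 * (Real.log C₁ + 3 * Real.log C₂ + 4 * Real.log 2) := by
  obtain ⟨q, hqd⟩ : ∃ q : Idx n × K → ℝ, q = fun z => f z.1 z.2 * g z.1 z.2 /
      ∑ z' : Idx n × K, f z'.1 z'.2 * g z'.1 z'.2 := ⟨_, rfl⟩
  have hq : ∀ z, 0 ≤ q z := by
    intro z
    rw [hqd]
    apply div_nonneg (mul_nonneg (hf _ _) (hg _ _))
    exact Finset.sum_nonneg fun z' _ => mul_nonneg (hf _ _) (hg _ _)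
  have hZ := ZYT q hq
  have hD := fun T => dens hn hm f g hf hg C₁ C₂ h1 h2 ha hb hc T q hqd
  have p03 : psi {0, 3} = 3 := by decide
  have p13 : psi {1, 3} = 3 := by decide
  have p23 : psi {2, 3} = 3 := by decide
  have p02 : psi {0, 2} = 3 := by decide
  have p12 : psi {1, 2} = 3 := by decide
  have p01 : psi {0, 1} = 4 := by decide
  have p013 : psi {0, 1, 3} = 4 := by decide
  have p023 : psi {0, 2, 3} = 4 := by decide
  have p123 : psi {1, 2, 3} = 4 := by decide
  have p2 : psi {2} = 2 := by decide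
  have p3 : psi {3} = 2 := by decide
  have c03 : ({0, 3} : Finset (Fin 4)).card = 2 := by decide
  have c13 : ({1, 3} : Finset (Fin 4)).card = 2 := by decide
  have c23 : ({2, 3} : Finset (Fin 4)).card = 2 := by decide
  have c02 : ({0, 2} : Finset (Fin 4)).card = 2 := by decide
  have c12 : ({1, 2} : Finset (Fin 4)).card = 2 := by decide
  have c01 : ({0, 1} : Finset (Fin 4)).card = 2 := by decide
  have c013 : ({0, 1, 3} : Finset (Fin 4)).card = 3 := by decide
  have c023 : ({0, 2, 3} : Finset (Fin 4)).card = 3 := by decide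
  have c123 : ({1, 2, 3} : Finset (Fin 4)).card = 3 := by decide
  have c2 : ({2} : Finset (Fin 4)).card = 1 := by decide
  have c3 : ({3} : Finset (Fin 4)).card = 1 := by decide
  have u03 := (hD {0, 3}).2
  have u13 := (hD {1, 3}).2
  have u23 := (hD {2, 3}).2
  have u02 := (hD {0, 2}).2
  have u12 := (hD {1, 2}).2
  have l01 := (hD {0, 1}).1
  have l013 := (hD {0, 1, 3}).1
  have l023 := (hD {0, 2, 3}).1
  have l123 := (hD {1, 2, 3}).1
  have l2 := (hD {2}).1
  have l3 := (hD {3}).1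
  rw [p03, c03] at u03
  rw [p13, c13] at u13
  rw [p23, c23] at u23
  rw [p02, c02] at u02
  rw [p12, c12] at u12
  rw [p01, c01] at l01
  rw [p013, c013] at l013
  rw [p023, c023] at l023
  rw [p123, c123] at l123
  rw [p2, c2] at l2
  rw [p3, c3] at l3
  push_cast at *
  linarith

end

end Pool.EQ
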