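import Pool.Agent.Helper364.EQ.Defs
set_option autoImplicit false
set_option linter.unusedVariables false

open Finset
open scoped ENNReal

namespace Pool.EQ

noncomputable section


--#TARGET: prove this one (put helper lemmas between this line and the target, prefix their names with `flat_`)

theorem flat_mem {n : ℕ} (T : Finset (Fin 4)) (a i : Idx n) :
    i ∈ slc T a ↔ ∀ l, l ∉ T → i l = a l := by
  unfold slc
  rw [mem_filter]
  exact ⟨fun h => h.2, fun h => ⟨mem_univ _, h⟩⟩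

theorem flat_card {n : ℕ} (T : Finset (Fin 4)) (a : Idx n) : (slc T a).card = n ^ T.card := by
  have h : slc T a =
      Fintype.piFinset (fun l => if l ∈ T then (univ : Finset (Fin n)) else {a l}) := by
    ext i
    rw [flat_mem, Fintype.mem_piFinset]
    constructor
    · intro h l
      by_cases hl : l ∈ T
      · rw [if_pos hl]
        exact mem_univ _
      · rw [if_neg hl, mem_singleton]
        exact h l hl
    · intro h l hl
      have h1 := h l
      rw [if_neg hl, mem_singleton] at h1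
      exact h1
  rw [h, Fintype.card_piFinset]
  have h2 : ∀ l : Fin 4, (if l ∈ T then (univ : Finset (Fin n)) else {a l}).card =
      if l ∈ T then n else 1 := by
    intro l
    by_cases hl : l ∈ T
    · rw [if_pos hl, if_pos hl, card_univ, Fintype.card_fin]
    · rw [if_neg hl, if_neg hl, card_singleton]
  rw [prod_congr rfl (fun l _ => h2 l), prod_ite_mem, univ_inter, prod_const]

theorem flat_NT {n : ℕ} (T T' : Finset (Fin 4)) (a : Idx n) :
    NT T' (fun i => if i ∈ slc T a then (1 : ℝ) else 0) =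
      (n : ℝ) ^ T.card * (n : ℝ) ^ (T ∩ T').card := by
  have h1 : ∀ i : Idx n, (if i ∈ slc T a then (1 : ℝ) else 0) *
      Sl T' (fun i => if i ∈ slc T a then (1 : ℝ) else 0) i =
      if i ∈ slc T a then (n : ℝ) ^ (T ∩ T').card else 0 := by
    intro i
    by_cases hi : i ∈ slc T a
    · rw [if_pos hi, if_pos hi, one_mul]
      unfold Sl
      rw [sum_boole]
      have h2 : (slc T' i).filter (fun i' => i' ∈ slc T a) = slc (T ∩ T') i := by
        ext i'
        rw [mem_filter, flat_mem, flat_mem, flat_mem]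
        rw [flat_mem] at hi
        constructor
        · rintro ⟨h3, h4⟩ l hl
          by_cases hl' : l ∈ T'
          · have hlT : l ∉ T := fun h5 => hl (mem_inter.2 ⟨h5, hl'⟩)
            rw [h4 l hlT, hi l hlT]
          · exact h3 l hl'
        · intro h3
          refine ⟨fun l hl => h3 l (fun h5 => hl (mem_inter.1 h5).2), fun l hl => ?_⟩
          rw [h3 l (fun h5 => hl (mem_inter.1 h5).1), hi l hl]
      rw [h2, flat_card]
      push_cast
      rfl
    · rw [if_neg hi, if_neg hi, zero_mul]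
  unfold NT
  rw [sum_congr rfl (fun i _ => h1 i), ← sum_filter]
  have h3 : (univ : Finset (Idx n)).filter (fun i => i ∈ slc T a) = slc T a := by
    ext i
    rw [mem_filter]
    exact ⟨fun h => h.2, fun h => ⟨mem_univ _, h⟩⟩
  rw [h3, sum_const, flat_card, nsmul_eq_mul]
  push_cast
  rfl

theorem flat_psi_mono : ∀ T T' : Finset (Fin 4), T ⊆ T' → psi T ≤ psi T' := by
  unfold psi
  decide

theorem flat_psi_le : ∀ T : Finset (Fin 4), psi T ≤ 4 := by
  unfold psi
  decide

theorem flat_term {n m : ℕ} (hm : 1 ≤ m) (hn : m ^ 4 ≤ n) (T T' : Finset (Fin 4)) :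
    (1 / (m : ℝ)) ^ (psi T') * ((n : ℝ) ^ T.card * (n : ℝ) ^ (T ∩ T').card) ≤
      (1 / (m : ℝ)) ^ (psi T) * (n : ℝ) ^ (2 * T.card) := by
  have hm1 : (1 : ℝ) ≤ m := by exact_mod_cast hm
  have hm0 : (0 : ℝ) < m := by linarith
  have hn4 : (m : ℝ) ^ 4 ≤ n := by exact_mod_cast hn
  have hn1 : (1 : ℝ) ≤ n := (one_le_pow₀ hm1).trans hn4
  have hinv0 : 0 ≤ 1 / (m : ℝ) := by positivity
  have hinv1 : 1 / (m : ℝ) ≤ 1 := by
    rw [div_le_one hm0]
    exact hm1
  by_cases hTT : T ⊆ T'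
  · have h1 : T ∩ T' = T := inter_eq_left.2 hTT
    rw [h1, two_mul, pow_add]
    refine mul_le_mul_of_nonneg_right ?_ (by positivity)
    exact pow_le_pow_of_le_one hinv0 hinv1 (flat_psi_mono T T' hTT)
  · have h1 : (T ∩ T').card + 1 ≤ T.card := by
      refine Nat.succ_le_of_lt (card_lt_card ?_)
      refine ⟨inter_subset_left, fun h => hTT ?_⟩
      exact h.trans inter_subset_right
    have h2 : (1 / (m : ℝ)) ^ (psi T') ≤ 1 := pow_le_one₀ hinv0 hinv1
    have h3 : 1 ≤ (1 / (m : ℝ)) ^ (psi T) * n := by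
      have h4 : (1 / (m : ℝ)) ^ 4 ≤ (1 / (m : ℝ)) ^ (psi T) :=
        pow_le_pow_of_le_one hinv0 hinv1 (flat_psi_le T)
      calc (1 : ℝ) = (1 / (m : ℝ)) ^ 4 * (m : ℝ) ^ 4 := by
            rw [← mul_pow, one_div, inv_mul_cancel₀ hm0.ne', one_pow]
        _ ≤ (1 / (m : ℝ)) ^ (psi T) * n :=
            mul_le_mul h4 hn4 (by positivity) (by positivity)
    calc (1 / (m : ℝ)) ^ (psi T') * ((n : ℝ) ^ T.card * (n : ℝ) ^ (T ∩ T').card)
        ≤ 1 * ((n : ℝ) ^ T.card * (n : ℝ) ^ (T ∩ T').card) :=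
          mul_le_mul_of_nonneg_right h2 (by positivity)
      _ ≤ ((1 / (m : ℝ)) ^ (psi T) * n) * ((n : ℝ) ^ T.card * (n : ℝ) ^ (T ∩ T').card) :=
          mul_le_mul_of_nonneg_right h3 (by positivity)
      _ = (1 / (m : ℝ)) ^ (psi T) * (n : ℝ) ^ (T.card + ((T ∩ T').card + 1)) := by
          rw [pow_add, pow_succ]
          ring
      _ ≤ (1 / (m : ℝ)) ^ (psi T) * (n : ℝ) ^ (2 * T.card) := by
          refine mul_le_mul_of_nonneg_left ?_ (by positivity)
          exact pow_le_pow_right₀ hn1 (by omega)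

/-- HINT: `NT T' 1_{slc T a} = #{(i,i') : i ∈ slc T a, i' ∈ slc T a, i' ∈ slc T' i} = n^{|T|} n^{|T ∩ T'|}`. If `T ⊆ T'`:
`m^{-psi T'} ≤ m^{-psi T}` (psi monotone, decide); else `|T ∩ T'| ≤ |T| - 1`, and `n ≥ m⁴ ≥ m^{psi T}`. 16 sets `T'`. -/
theorem flat {n m : ℕ} (hm : 1 ≤ m) (hn : m ^ 4 ≤ n) (T : Finset (Fin 4)) (a : Idx n) (e : Idx n → ℝ)
    (he : ∀ i, e i ^ 2 = 1) :
    EN m (fun i => if i ∈ slc T a then e i else 0) ≤
      16 * (1 / (m : ℝ)) ^ (psi T) * (n : ℝ) ^ (2 * T.card) := by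
  have h1 : (fun i : Idx n => (if i ∈ slc T a then e i else 0) ^ 2) =
      fun i => if i ∈ slc T a then (1 : ℝ) else 0 := by
    funext i
    by_cases hi : i ∈ slc T a
    · rw [if_pos hi, if_pos hi, he i]
    · rw [if_neg hi, if_neg hi]
      norm_num
  unfold EN
  rw [h1]
  have h2 : ∀ T' : Finset (Fin 4), (1 / (m : ℝ)) ^ (psi T') *
      NT T' (fun i => if i ∈ slc T a then (1 : ℝ) else 0) ≤
      (1 / (m : ℝ)) ^ (psi T) * (n : ℝ) ^ (2 * T.card) := by
    intro T'
    rw [flat_NT]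
    exact flat_term hm hn T T'
  refine (sum_le_sum (fun T' _ => h2 T')).trans (le_of_eq ?_)
  rw [sum_const, card_univ, Fintype.card_finset, Fintype.card_fin, nsmul_eq_mul]
  norm_num
  ring

end

end Pool.EQ
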