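import Pool.Agent.Helper364.EQ.Defs
import Pool.Agent.Helper364.EQ.P_KH4
import Pool.Agent.Helper364.EQ.P_EN_EN4
import Pool.Agent.Helper364.EQ.P_flat
set_option autoImplicit false
set_option linter.unusedVariables false

open Finset
open scoped ENNReal

namespace Pool.EQ

noncomputable section






--#TARGET: prove this one (put helper lemmas between this line and the target, prefix their names with `fac_a_`)

/-- HINT: for signs `ε`: `∑_{k∈Kf} |∑_{i∈slc T a} ε_i (J e_i) k|⁴ ≤ ‖J(∑_{i ∈ slc} ε_i e_i)‖⁴ ≤ C⁴ EN4 m (ε 1_slc) ≤ 3 C⁴ EN ≤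
48 C⁴ m^{-psi T} n^{2|T|}` (`flat`, `EN_EN4`; `lp` norm to the 4th power is `∑' k |·|⁴`, `lp.norm_rpow_eq_tsum` or
`lp.sum_rpow_le_norm_rpow`), average over `ε : Idx n → Bool` (`Av`), `KH4` lower bound for each `k`. -/
theorem fac_a {n m : ℕ} (hm : 1 ≤ m) (hn : m ^ 4 ≤ n) (C : ℝ) (hC : 1 ≤ C)
    (J : (Idx n → ℝ) →ₗ[ℝ] lp (fun _ : ℕ => ℝ) 4) (hJ : ∀ ξ, ‖J ξ‖ ^ 4 ≤ C ^ 4 * EN4 m ξ)
    (Kf : Finset ℕ) (T : Finset (Fin 4)) (a : Idx n) :
    ∑ k ∈ Kf, (Sl T (fun i => |(J (Pi.single i 1) : ∀ _ : ℕ, ℝ) k| ^ 2) a) ^ 2 ≤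
      (48 * C ^ 4) * (1 / (m : ℝ)) ^ (psi T) * (n : ℝ) ^ (2 * T.card) := by
  have hn1 : 1 ≤ n := by
    rcases Nat.eq_zero_or_pos n with h | h
    · exfalso
      have : 1 ≤ m ^ 4 := Nat.one_le_pow _ _ hm
      omega
    · exact h
  obtain ⟨c, hc⟩ : ∃ c : Idx n → ℕ → ℝ, ∀ i k, c i k = (J (Pi.single i 1) : ∀ _ : ℕ, ℝ) k :=
    ⟨_, fun _ _ => rfl⟩
  have hJx : ∀ (ε : Idx n → Bool) (k : ℕ),
      (J (fun i => if i ∈ slc T a then sg (ε i) else 0) : ∀ _ : ℕ, ℝ) k =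
      ∑ i ∈ slc T a, sg (ε i) * c i k := by
    intro ε k
    have h1 : (fun i => if i ∈ slc T a then sg (ε i) else 0) =
        ∑ i ∈ slc T a, sg (ε i) • (Pi.single i (1 : ℝ) : Idx n → ℝ) := by
      funext j
      rw [Finset.sum_apply]
      simp only [Pi.smul_apply, smul_eq_mul, Pi.single_apply, mul_ite, mul_one, mul_zero]
      rw [Finset.sum_ite_eq]
    rw [h1, map_sum]
    simp only [map_smul]
    rw [lp.coeFn_sum, Finset.sum_apply]
    apply Finset.sum_congr rfl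
    intro i _
    rw [lp.coeFn_smul, Pi.smul_apply, smul_eq_mul, hc]
  have hB : ∀ ε : Idx n → Bool, ∑ k ∈ Kf, (∑ i ∈ slc T a, sg (ε i) * c i k) ^ 4 ≤
      (48 * C ^ 4) * (1 / (m : ℝ)) ^ (psi T) * (n : ℝ) ^ (2 * T.card) := by
    intro ε
    have h1 := lp.sum_rpow_le_norm_rpow (p := 4) (by norm_num)
      (J (fun i => if i ∈ slc T a then sg (ε i) else 0)) Kf
    have h2 : (4 : ℝ≥0∞).toReal = ((4 : ℕ) : ℝ) := by norm_num
    rw [h2] at h1
    simp only [Real.rpow_natCast, hJx, Real.norm_eq_abs, Even.pow_abs (by decide : Even 4)] at h1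
    have h3 := hJ (fun i => if i ∈ slc T a then sg (ε i) else 0)
    have h4 := (EN_EN4 hn1 m (fun i => if i ∈ slc T a then sg (ε i) else 0)).2
    have h5 := flat hm hn T a (fun i => sg (ε i)) (by
      intro i
      unfold sg
      split_ifs <;> norm_num)
    have hC4 : 0 ≤ C ^ 4 := by positivity
    calc _ ≤ C ^ 4 * EN4 m (fun i => if i ∈ slc T a then sg (ε i) else 0) := h1.trans h3
      _ ≤ C ^ 4 * (3 * (16 * (1 / (m : ℝ)) ^ (psi T) * (n : ℝ) ^ (2 * T.card))) := by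
          apply mul_le_mul_of_nonneg_left _ hC4
          linarith
      _ = _ := by ring
  have hK : ∀ k ∈ Kf, (Sl T (fun i => |(J (Pi.single i 1) : ∀ _ : ℕ, ℝ) k| ^ 2) a) ^ 2 ≤
      Av (fun ε : Idx n → Bool => (∑ i ∈ slc T a, sg (ε i) * c i k) ^ 4) := by
    intro k _
    have := (KH4 (slc T a) (fun i => c i k)).1
    unfold Sl
    simp only [sq_abs, ← hc]
    exact this
  refine (Finset.sum_le_sum hK).trans ?_
  unfold Av
  rw [← Finset.sum_div, Finset.sum_comm]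
  have hcard : (0 : ℝ) < (Fintype.card (Idx n → Bool) : ℝ) := by
    exact_mod_cast Fintype.card_pos
  rw [div_le_iff₀ hcard]
  refine (Finset.sum_le_sum (fun ε _ => hB ε)).trans ?_
  rw [Finset.sum_const, Finset.card_univ, nsmul_eq_mul, mul_comm]

end

end Pool.EQ
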