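import Pool.Agent.Helper364.EQ.Defs
import Pool.Agent.Helper364.EQ.P_KH4
set_option autoImplicit false
set_option linter.unusedVariables false

open Finset
open scoped ENNReal

namespace Pool.EQ

noncomputable section




--#TARGET: prove this one (put helper lemmas between this line and the target, prefix their names with `KH43_`)

/-- HINT: with `S = |∑ ε_i a_i|`, `V = ∑ a_i²`, `E S² = V` and `E S⁴ ≤ 3V²` (KH4). Hölder with exponents 4/3 and 4 for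
`S² = S · S`: `E S² ≤ (E S^{4/3})^{3/4} (E S⁴)^{1/4}` (`Real.inner_le_Lp_mul_Lq`). So
`V ≤ (E S^{4/3})^{3/4} 3^{1/4} V^{1/2}`, hence (if `V > 0`; `V = 0` is trivial) `V^{1/2} ≤ 3^{1/4}(E S^{4/3})^{3/4}`; raise to
the power 4/3. -/
theorem KH43 {ι : Type} [Fintype ι] [DecidableEq ι] (s : Finset ι) (a : ι → ℝ) :
    (∑ i ∈ s, a i ^ 2) ^ ((2 : ℝ) / 3) ≤
      (3 : ℝ) ^ ((1 : ℝ) / 3) * Av (fun ε : ι → Bool => |∑ i ∈ s, sg (ε i) * a i| ^ ((4 : ℝ) / 3)) := by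
  obtain ⟨-, h4, h2⟩ := KH4 s a
  set V : ℝ := ∑ i ∈ s, a i ^ 2 with hV
  have hV0 : 0 ≤ V := Finset.sum_nonneg fun i _ => sq_nonneg _
  set S : (ι → Bool) → ℝ := fun ε => ∑ i ∈ s, sg (ε i) * a i with hS
  have hN : (0 : ℝ) < (Fintype.card (ι → Bool) : ℝ) := by
    exact_mod_cast Fintype.card_pos
  set N : ℝ := (Fintype.card (ι → Bool) : ℝ) with hNdef
  set A : ℝ := Av (fun ε : ι → Bool => |S ε| ^ ((4 : ℝ) / 3)) with hA
  have hA' : ∑ ε, |S ε| ^ ((4 : ℝ) / 3) = N * A := by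
    rw [hA, Av, ← hNdef]; field_simp
  have hB' : ∑ ε, (S ε) ^ 4 ≤ N * (3 * V ^ 2) := by
    have : Av (fun ε : ι → Bool => (S ε) ^ 4) ≤ 3 * V ^ 2 := h4
    rw [Av, div_le_iff₀ hN] at this
    linarith
  have hC' : ∑ ε, (S ε) ^ 2 = N * V := by
    have : Av (fun ε : ι → Bool => (S ε) ^ 2) = V := h2
    rw [Av, div_eq_iff hN.ne'] at this
    linarith
  have hX0 : 0 ≤ ∑ ε, |S ε| ^ ((4 : ℝ) / 3) :=
    Finset.sum_nonneg fun ε _ => Real.rpow_nonneg (abs_nonneg _) _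
  have hY0 : 0 ≤ ∑ ε, (S ε) ^ 4 := Finset.sum_nonneg fun ε _ => by positivity
  have hA0 : 0 ≤ A := by
    by_contra h
    push Not at h
    have : N * A < 0 := mul_neg_of_pos_of_neg hN h
    rw [← hA'] at this
    linarith
  have hconj : ((4 : ℝ) / 3).HolderConjugate 4 := by
    rw [Real.holderConjugate_iff]; norm_num
  have hH := Real.inner_le_Lp_mul_Lq (Finset.univ) (fun ε => |S ε|) (fun ε => |S ε|) hconj
  have e1 : ∀ ε, |S ε| * |S ε| = S ε ^ 2 := fun ε => by rw [abs_mul_abs_self, sq]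
  have e2 : ∀ ε, |S ε| ^ (4 : ℝ) = S ε ^ 4 := fun ε => by
    rw [show (4 : ℝ) = ((4 : ℕ) : ℝ) by norm_num, Real.rpow_natCast]
    rw [show (4 : ℕ) = 2 * 2 by norm_num, pow_mul, pow_mul, sq_abs]
  simp only [e1, abs_abs] at hH
  simp only [e2] at hH
  have h5 : (N * V) ^ 4 ≤ (N * A) ^ 3 * (N * (3 * V ^ 2)) := by
    rw [hC', hA'] at hH
    have hNV : 0 ≤ N * V := mul_nonneg hN.le hV0
    have hNA : 0 ≤ N * A := mul_nonneg hN.le hA0
    calc (N * V) ^ 4 ≤ ((N * A) ^ (1 / ((4 : ℝ) / 3)) * (∑ ε, S ε ^ 4) ^ (1 / (4 : ℝ))) ^ 4 :=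
          pow_le_pow_left₀ hNV hH 4
      _ = (N * A) ^ 3 * (∑ ε, S ε ^ 4) := by
          rw [mul_pow, ← Real.rpow_natCast ((N * A) ^ (1 / ((4 : ℝ) / 3))) 4,
            ← Real.rpow_natCast ((∑ ε, S ε ^ 4) ^ (1 / (4 : ℝ))) 4, ← Real.rpow_mul hNA,
            ← Real.rpow_mul hY0, ← Real.rpow_natCast (N * A) 3]
          norm_num
      _ ≤ (N * A) ^ 3 * (N * (3 * V ^ 2)) :=
          mul_le_mul_of_nonneg_left hB' (pow_nonneg hNA 3)
  rcases hV0.eq_or_lt with hV1 | hV1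
  · rw [← hV1, Real.zero_rpow (by norm_num)]
    positivity
  · have h6 : V ^ 2 ≤ 3 * A ^ 3 := by
      have h7 : (N ^ 4 * V ^ 2) * V ^ 2 ≤ (N ^ 4 * V ^ 2) * (3 * A ^ 3) := by
        calc (N ^ 4 * V ^ 2) * V ^ 2 = (N * V) ^ 4 := by ring
          _ ≤ (N * A) ^ 3 * (N * (3 * V ^ 2)) := h5
          _ = (N ^ 4 * V ^ 2) * (3 * A ^ 3) := by ring
      exact le_of_mul_le_mul_left h7 (by positivity)
    have h8 : V ^ ((2 : ℝ) / 3) = (V ^ 2) ^ ((1 : ℝ) / 3) := by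
      rw [← Real.rpow_natCast V 2, ← Real.rpow_mul hV0]
      norm_num
    have h9 : (3 * A ^ 3) ^ ((1 : ℝ) / 3) = (3 : ℝ) ^ ((1 : ℝ) / 3) * A := by
      rw [Real.mul_rpow (by norm_num) (pow_nonneg hA0 3), ← Real.rpow_natCast A 3,
        ← Real.rpow_mul hA0]
      norm_num
    rw [h8, ← h9]
    exact Real.rpow_le_rpow (sq_nonneg V) h6 (by norm_num)

end

end Pool.EQ
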