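import Pool.Agent.Helper364.EQ.Defs
import Pool.Agent.Helper364.EQ.P_KH43
import Pool.Agent.Helper364.EQ.P_NT_basic
import Pool.Agent.Helper364.EQ.P_EN_EN4
set_option autoImplicit false
set_option linter.unusedVariables false

open Finset
open scoped ENNReal

namespace Pool.EQ

noncomputable section






--#TARGET: prove this one (put helper lemmas between this line and the target, prefix their names with `fac_b_`)

theorem fac_b_card {n : ℕ} (T : Finset (Fin 4)) (a : Idx n) : (slc T a).card = n ^ T.card := by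
  have h : slc T a = Fintype.piFinset (fun l => if l ∈ T then (univ : Finset (Fin n)) else {a l}) := by
    ext i
    simp only [slc, Finset.mem_filter, Finset.mem_univ, true_and, Fintype.mem_piFinset]
    refine forall_congr' fun l => ?_
    by_cases hl : l ∈ T
    · simp [hl]
    · simp [hl]
  rw [h, Fintype.card_piFinset]
  have : ∀ l : Fin 4, (if l ∈ T then (univ : Finset (Fin n)) else {a l}).card = if l ∈ T then n else 1 := by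
    intro l
    split_ifs <;> simp
  simp only [this]
  rw [Finset.prod_ite_mem, Finset.univ_inter, Finset.prod_const]

theorem fac_b_sg (b : Bool) : sg b ^ 2 = 1 := by
  unfold sg; split_ifs <;> norm_num

theorem fac_b_lnk {n m : ℕ} (hm : 1 ≤ m) (T : Finset (Fin 4)) (ξ : Idx n → ℝ) (a : Idx n) :
    (∑ i ∈ slc T a, ξ i ^ 2) ^ 2 ≤ (m : ℝ) ^ (psi T) * EN m ξ := by
  have hm0 : (0:ℝ) < m := by exact_mod_cast hm
  have hNT : ∀ T', 0 ≤ NT T' (fun i => ξ i ^ 2) := fun T' => (NT_basic T' _ (fun i => sq_nonneg (ξ i))).1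
  have h1 : (∑ i ∈ slc T a, ξ i ^ 2) ^ 2 ≤ NT T (fun i => ξ i ^ 2) :=
    (NT_basic T _ (fun i => sq_nonneg (ξ i))).2.1 a
  have h2 : (1 / (m : ℝ)) ^ (psi T) * NT T (fun i => ξ i ^ 2) ≤ EN m ξ := by
    unfold EN
    exact Finset.single_le_sum (f := fun T => (1 / (m : ℝ)) ^ (psi T) * NT T (fun i => ξ i ^ 2))
      (fun T' _ => mul_nonneg (by positivity) (hNT T')) (Finset.mem_univ T)
  have h3 : (m : ℝ) ^ (psi T) * ((1 / (m : ℝ)) ^ (psi T) * NT T (fun i => ξ i ^ 2)) = NT T (fun i => ξ i ^ 2) := by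
    rw [← mul_assoc, ← mul_pow, mul_one_div_cancel hm0.ne', one_pow, one_mul]
  calc (∑ i ∈ slc T a, ξ i ^ 2) ^ 2 ≤ NT T (fun i => ξ i ^ 2) := h1
    _ = (m : ℝ) ^ (psi T) * ((1 / (m : ℝ)) ^ (psi T) * NT T (fun i => ξ i ^ 2)) := h3.symm
    _ ≤ (m : ℝ) ^ (psi T) * EN m ξ := mul_le_mul_of_nonneg_left h2 (by positivity)

theorem fac_b_key {n m : ℕ} (hm : 1 ≤ m) (hn : m ^ 4 ≤ n) (C : ℝ) (hC : 1 ≤ C)
    (P : lp (fun _ : ℕ => ℝ) 4 →ₗ[ℝ] (Idx n → ℝ)) (hP : ∀ y, EN4 m (P y) ≤ C ^ 4 * ‖y‖ ^ 4)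
    (Kf : Finset ℕ) (T : Finset (Fin 4)) (a : Idx n) (ε : Idx n → Bool) :
    ∑ k ∈ Kf, |∑ i ∈ slc T a, sg (ε i) * P (lp.single 4 k (1 : ℝ)) i| ^ ((4 : ℝ) / 3) ≤
      C ^ ((4:ℝ) / 3) * (m : ℝ) ^ ((psi T : ℝ) / 3) * (n : ℝ) ^ (2 * (T.card : ℝ) / 3) := by
  have hn1 : 1 ≤ n := le_trans (Nat.one_le_pow _ _ hm) hn
  have hC0 : 0 < C := by linarith
  obtain ⟨c, hc⟩ : ∃ c : ℕ → ℝ, ∀ k, c k = ∑ i ∈ slc T a, sg (ε i) * P (lp.single 4 k (1 : ℝ)) i := ⟨_, fun k => rfl⟩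
  obtain ⟨f, hf⟩ : ∃ f : ℕ → ℝ, ∀ k, f k = if 0 ≤ c k then |c k| ^ ((1:ℝ)/3) else - |c k| ^ ((1:ℝ)/3) := ⟨_, fun k => rfl⟩
  have hcf : ∀ k, f k * c k = |c k| ^ ((4:ℝ)/3) := by
    intro k
    have e : |c k| ^ ((4:ℝ)/3) = |c k| * |c k| ^ ((1:ℝ)/3) := by
      rcases eq_or_lt_of_le (abs_nonneg (c k)) with h0 | h0
      · rw [← h0, Real.zero_rpow (by norm_num), zero_mul]
      · have : (4:ℝ)/3 = 1 + 1/3 := by norm_num
        rw [this, Real.rpow_add h0, Real.rpow_one]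
    rw [hf, e]
    split_ifs with h
    · rw [abs_of_nonneg h]; ring
    · push Not at h
      rw [abs_of_neg h]; ring
  have hf4 : ∀ k, ‖f k‖ ^ (4:ℕ) = |c k| ^ ((4:ℝ)/3) := by
    intro k
    have e1 : ‖f k‖ = |c k| ^ ((1:ℝ)/3) := by
      rw [hf]
      have h0 : 0 ≤ |c k| ^ ((1:ℝ)/3) := Real.rpow_nonneg (abs_nonneg _) _
      split_ifs
      · rw [Real.norm_of_nonneg h0]
      · rw [norm_neg, Real.norm_of_nonneg h0]
    rw [e1, ← Real.rpow_natCast, ← Real.rpow_mul (abs_nonneg _)]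
    norm_num
  set A : ℝ := ∑ k ∈ Kf, |c k| ^ ((4:ℝ)/3) with hA
  have hA0 : 0 ≤ A := Finset.sum_nonneg fun k _ => Real.rpow_nonneg (abs_nonneg _) _
  have hgoal : ∑ k ∈ Kf, |∑ i ∈ slc T a, sg (ε i) * P (lp.single 4 k (1 : ℝ)) i| ^ ((4 : ℝ) / 3) = A := by
    rw [hA]; refine Finset.sum_congr rfl fun k _ => ?_
    rw [hc]
  rw [hgoal]
  obtain ⟨F, hF⟩ : ∃ F : lp (fun _ : ℕ => ℝ) 4, F = ∑ k ∈ Kf, lp.single 4 k (f k) := ⟨_, rfl⟩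
  have hnF : ‖F‖ ^ 4 = A := by
    have h := lp.norm_sum_single (p := (4:ℝ≥0∞)) (E := fun _ : ℕ => ℝ) (by norm_num) f Kf
    rw [← hF] at h
    have h4 : (4:ℝ≥0∞).toReal = ((4:ℕ):ℝ) := by norm_num
    rw [h4, Real.rpow_natCast] at h
    rw [h, hA]
    refine Finset.sum_congr rfl fun k _ => ?_
    rw [Real.rpow_natCast, hf4]
  have hPF : ∀ i, P F i = ∑ k ∈ Kf, f k * P (lp.single 4 k (1 : ℝ)) i := by
    intro i
    rw [hF, map_sum, Finset.sum_apply]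
    refine Finset.sum_congr rfl fun k _ => ?_
    have e : (lp.single 4 k (f k) : lp (fun _ : ℕ => ℝ) 4) = f k • lp.single 4 k (1:ℝ) := by
      rw [← lp.single_smul, smul_eq_mul, mul_one]
    rw [e, map_smul, Pi.smul_apply, smul_eq_mul]
  have hAsum : A = ∑ i ∈ slc T a, sg (ε i) * P F i := by
    rw [hA]
    have : ∀ k ∈ Kf, |c k| ^ ((4:ℝ)/3) = ∑ i ∈ slc T a, sg (ε i) * (f k * P (lp.single 4 k (1 : ℝ)) i) := by
      intro k _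
      rw [← hcf, hc, Finset.mul_sum]
      refine Finset.sum_congr rfl fun i _ => ?_
      ring
    rw [Finset.sum_congr rfl this, Finset.sum_comm]
    refine Finset.sum_congr rfl fun i _ => ?_
    rw [hPF, Finset.mul_sum]
  have hA2 : A ^ 2 ≤ (n : ℝ) ^ T.card * ∑ i ∈ slc T a, (P F i) ^ 2 := by
    rw [hAsum]
    have h := Finset.sum_mul_sq_le_sq_mul_sq (slc T a) (fun i => sg (ε i)) (fun i => P F i)
    have e : ∑ i ∈ slc T a, sg (ε i) ^ 2 = (n : ℝ) ^ T.card := by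
      simp only [fac_b_sg, Finset.sum_const, fac_b_card, nsmul_eq_mul, mul_one]
      push_cast; rfl
    rw [e] at h
    exact h
  have hV := fac_b_lnk hm T (P F) a
  have hEN := (EN_EN4 hn1 m (P F)).1
  have hPFn := hP F
  rw [hnF] at hPFn
  have hm0 : (0:ℝ) < m := by exact_mod_cast hm
  have hn0 : (0:ℝ) < n := by exact_mod_cast hn1
  have hV' : (∑ i ∈ slc T a, (P F i) ^ 2) ^ 2 ≤ (m : ℝ) ^ (psi T) * (C ^ 4 * A) :=
    hV.trans (mul_le_mul_of_nonneg_left (hEN.trans hPFn) (by positivity))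
  have hA4 : A ^ 4 ≤ (n : ℝ) ^ (2 * T.card) * (m : ℝ) ^ (psi T) * C ^ 4 * A := by
    calc A ^ 4 = (A ^ 2) ^ 2 := by ring
      _ ≤ ((n : ℝ) ^ T.card * ∑ i ∈ slc T a, (P F i) ^ 2) ^ 2 := by
          refine pow_le_pow_left₀ (sq_nonneg _) hA2 2
      _ = (n : ℝ) ^ (2 * T.card) * (∑ i ∈ slc T a, (P F i) ^ 2) ^ 2 := by
          rw [mul_pow, ← pow_mul, mul_comm T.card 2]
      _ ≤ (n : ℝ) ^ (2 * T.card) * ((m : ℝ) ^ (psi T) * (C ^ 4 * A)) :=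
          mul_le_mul_of_nonneg_left hV' (by positivity)
      _ = _ := by ring
  rcases eq_or_lt_of_le hA0 with h0 | h0
  · rw [← h0]; positivity
  have hA3 : A ^ 3 ≤ (n : ℝ) ^ (2 * T.card) * (m : ℝ) ^ (psi T) * C ^ 4 := by
    have : A ^ 3 * A ≤ ((n : ℝ) ^ (2 * T.card) * (m : ℝ) ^ (psi T) * C ^ 4) * A := by
      calc A ^ 3 * A = A ^ 4 := by ring
        _ ≤ _ := hA4
    exact le_of_mul_le_mul_right this h0
  have hA1 : A = (A ^ 3) ^ ((1:ℝ)/3) := by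
    rw [← Real.rpow_natCast, ← Real.rpow_mul hA0]
    norm_num
  rw [hA1]
  calc (A ^ 3) ^ ((1:ℝ)/3) ≤ ((n : ℝ) ^ (2 * T.card) * (m : ℝ) ^ (psi T) * C ^ 4) ^ ((1:ℝ)/3) :=
        Real.rpow_le_rpow (by positivity) hA3 (by norm_num)
    _ = C ^ ((4:ℝ) / 3) * (m : ℝ) ^ ((psi T : ℝ) / 3) * (n : ℝ) ^ (2 * (T.card : ℝ) / 3) := by
        rw [Real.mul_rpow (by positivity) (by positivity), Real.mul_rpow (by positivity) (by positivity)]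
        rw [← Real.rpow_natCast (n:ℝ), ← Real.rpow_natCast (m:ℝ), ← Real.rpow_natCast C,
          ← Real.rpow_mul hn0.le, ← Real.rpow_mul hm0.le, ← Real.rpow_mul hC0.le]
        push_cast
        have e1 : (2 * (T.card:ℝ)) * (1/3) = 2 * (T.card:ℝ) / 3 := by ring
        have e2 : (psi T : ℝ) * (1/3) = (psi T : ℝ)/3 := by ring
        have e3 : (4:ℝ) * (1/3) = 4/3 := by ring
        rw [e1, e2, e3]
        ring

/-- HINT: for signs `ε` put `c_k = ∑_{i∈slc T a} ε_i (P e_k) i` (`e_k = lp.single 4 k 1`) and test with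
`F = ∑_{k∈Kf} sign(c_k)|c_k|^{1/3} e_k`: `∑_{k∈Kf} |c_k|^{4/3} = ∑_{i∈slc} ε_i (P F) i ≤ n^{|T|/2} (∑_{slc} (PF)_i²)^{1/2}
≤ n^{|T|/2} (m^{psi T} EN m (PF))^{1/4} ≤ n^{|T|/2} m^{psi/4} C ‖F‖` (`NT_basic`: `(Sl T v a)² ≤ NT T v ≤ m^{psi T} EN`, `EN ≤ EN4`),
`‖F‖ = (∑|c_k|^{4/3})^{1/4}`; hence `∑ |c_k|^{4/3} ≤ C^{4/3} m^{psi/3} n^{2|T|/3}`. Average over `ε`, `KH43`;
`3^{1/3} C^{4/3} ≤ 3 C²`. -/
theorem fac_b {n m : ℕ} (hm : 1 ≤ m) (hn : m ^ 4 ≤ n) (C : ℝ) (hC : 1 ≤ C)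
    (P : lp (fun _ : ℕ => ℝ) 4 →ₗ[ℝ] (Idx n → ℝ)) (hP : ∀ y, EN4 m (P y) ≤ C ^ 4 * ‖y‖ ^ 4)
    (Kf : Finset ℕ) (T : Finset (Fin 4)) (a : Idx n) :
    ∑ k ∈ Kf, (Sl T (fun i => |P (lp.single 4 k (1 : ℝ)) i| ^ 2) a) ^ ((2 : ℝ) / 3) ≤
      (3 * C ^ 2) * (m : ℝ) ^ ((psi T : ℝ) / 3) * (n : ℝ) ^ (2 * (T.card : ℝ) / 3) := by
  have hC0 : 0 < C := by linarith
  have hn1 : 1 ≤ n := le_trans (Nat.one_le_pow _ _ hm) hn
  have hm0 : (0:ℝ) < m := by exact_mod_cast hm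
  have hn0 : (0:ℝ) < n := by exact_mod_cast hn1
  set B : ℝ := C ^ ((4:ℝ) / 3) * (m : ℝ) ^ ((psi T : ℝ) / 3) * (n : ℝ) ^ (2 * (T.card : ℝ) / 3) with hB
  have h1 : ∀ k ∈ Kf, (Sl T (fun i => |P (lp.single 4 k (1 : ℝ)) i| ^ 2) a) ^ ((2 : ℝ) / 3) ≤
      (3 : ℝ) ^ ((1 : ℝ) / 3) * Av (fun ε : Idx n → Bool =>
        |∑ i ∈ slc T a, sg (ε i) * P (lp.single 4 k (1 : ℝ)) i| ^ ((4 : ℝ) / 3)) := by
    intro k _
    have := KH43 (slc T a) (P (lp.single 4 k (1 : ℝ)))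
    have e : Sl T (fun i => |P (lp.single 4 k (1 : ℝ)) i| ^ 2) a = ∑ i ∈ slc T a, (P (lp.single 4 k (1 : ℝ)) i) ^ 2 := by
      unfold Sl
      simp only [sq_abs]
    rw [e]
    exact this
  have h2 := Finset.sum_le_sum h1
  refine h2.trans ?_
  rw [← Finset.mul_sum]
  have h3 : ∑ k ∈ Kf, Av (fun ε : Idx n → Bool =>
        |∑ i ∈ slc T a, sg (ε i) * P (lp.single 4 k (1 : ℝ)) i| ^ ((4 : ℝ) / 3)) ≤ B := by
    unfold Av
    rw [← Finset.sum_div, Finset.sum_comm]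
    have hcard : (0:ℝ) < (Fintype.card (Idx n → Bool) : ℝ) := by
      exact_mod_cast Fintype.card_pos
    rw [div_le_iff₀ hcard]
    calc ∑ ε : Idx n → Bool, ∑ k ∈ Kf, |∑ i ∈ slc T a, sg (ε i) * P (lp.single 4 k (1 : ℝ)) i| ^ ((4 : ℝ) / 3)
        ≤ ∑ ε : Idx n → Bool, B := Finset.sum_le_sum fun ε _ => fac_b_key hm hn C hC P hP Kf T a ε
      _ = B * (Fintype.card (Idx n → Bool) : ℝ) := by
        rw [Finset.sum_const, nsmul_eq_mul, Finset.card_univ, mul_comm]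
  calc (3 : ℝ) ^ ((1 : ℝ) / 3) * ∑ k ∈ Kf, Av (fun ε : Idx n → Bool =>
        |∑ i ∈ slc T a, sg (ε i) * P (lp.single 4 k (1 : ℝ)) i| ^ ((4 : ℝ) / 3))
      ≤ (3 : ℝ) ^ ((1 : ℝ) / 3) * B := mul_le_mul_of_nonneg_left h3 (by positivity)
    _ = ((3 : ℝ) ^ ((1 : ℝ) / 3) * C ^ ((4:ℝ) / 3)) * (m : ℝ) ^ ((psi T : ℝ) / 3) * (n : ℝ) ^ (2 * (T.card : ℝ) / 3) := by
        rw [hB]; ring
    _ ≤ (3 * C ^ 2) * (m : ℝ) ^ ((psi T : ℝ) / 3) * (n : ℝ) ^ (2 * (T.card : ℝ) / 3) := by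
        have e1 : (3 : ℝ) ^ ((1 : ℝ) / 3) ≤ 3 := by
          calc (3 : ℝ) ^ ((1 : ℝ) / 3) ≤ (3:ℝ) ^ (1:ℝ) := Real.rpow_le_rpow_of_exponent_le (by norm_num) (by norm_num)
            _ = 3 := Real.rpow_one 3
        have e2 : C ^ ((4:ℝ) / 3) ≤ C ^ 2 := by
          calc C ^ ((4:ℝ) / 3) ≤ C ^ (2:ℝ) := Real.rpow_le_rpow_of_exponent_le hC (by norm_num)
            _ = C ^ 2 := by norm_cast
        have e3 : (3 : ℝ) ^ ((1 : ℝ) / 3) * C ^ ((4:ℝ) / 3) ≤ 3 * C ^ 2 :=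
          mul_le_mul e1 e2 (by positivity) (by norm_num)
        have e4 : 0 ≤ (m : ℝ) ^ ((psi T : ℝ) / 3) := by positivity
        have e5 : 0 ≤ (n : ℝ) ^ (2 * (T.card : ℝ) / 3) := by positivity
        exact mul_le_mul_of_nonneg_right (mul_le_mul_of_nonneg_right e3 e4) e5

end

end Pool.EQ
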