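import Pool.Agent.Helper364.EQ.Defs
import Pool.Agent.Helper364.EQ.P_NT_basic
import Pool.Agent.Helper364.EQ.P_EN_EN4
set_option autoImplicit false
set_option linter.unusedVariables false

open Finset
open scoped ENNReal

namespace Pool.EQ

noncomputable section





--#TARGET: prove this one (put helper lemmas between this line and the target, prefix their names with `fac_c_`)

theorem fac_c_bd {n m : ℕ} (hn : 1 ≤ n) (ξ : Idx n → ℝ) (i : Idx n) : |ξ i| ^ 4 ≤ EN4 m ξ := by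
  refine le_trans ?_ (EN_EN4 hn m ξ).1
  have hv : ∀ j, 0 ≤ (fun j => ξ j ^ 2) j := fun j => sq_nonneg _
  have h1 : (1 / (m : ℝ)) ^ (psi ∅) * NT ∅ (fun i => ξ i ^ 2) ≤ EN m ξ := by
    unfold EN
    refine Finset.single_le_sum (f := fun T : Finset (Fin 4) => (1 / (m : ℝ)) ^ (psi T) * NT T (fun i => ξ i ^ 2))
      (fun T _ => ?_) (Finset.mem_univ ∅)
    have := (NT_basic T (fun i => ξ i ^ 2) hv).1
    positivity
  have h2 : psi ∅ = 0 := by simp [psi]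
  rw [h2, pow_zero, one_mul, (NT_basic ∅ (fun i => ξ i ^ 2) hv).2.2.2.2.2.1] at h1
  refine le_trans ?_ h1
  have h3 : |ξ i| ^ 4 = (ξ i ^ 2) ^ 2 := by
    rw [← sq_abs (ξ i)]; ring
  rw [h3]
  exact Finset.single_le_sum (f := fun j => (ξ j ^ 2) ^ 2) (fun j _ => by positivity) (Finset.mem_univ i)

/-- HINT: `J e_i = ∑_k (J e_i)(k) e_k` in `lp` (`lp.hasSum_single`), `P` is continuous (each coordinate is bounded:
`|P y i|⁴ ≤ NT ∅ ((P y)²) ≤ EN m (P y) ≤ EN4 ≤ C⁴ ‖y‖⁴`), so `1 = P (J e_i) i = ∑_k (J e_i)(k) (P e_k) i`; the partial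
sums over large finite sets exceed `1/2` for all (finitely many) `i`; `x y ≤ |x| |y|`. -/
theorem fac_c {n m : ℕ} (hm : 1 ≤ m) (hn : m ^ 4 ≤ n) (C : ℝ) (hC : 1 ≤ C)
    (J : (Idx n → ℝ) →ₗ[ℝ] lp (fun _ : ℕ => ℝ) 4) (P : lp (fun _ : ℕ => ℝ) 4 →ₗ[ℝ] (Idx n → ℝ))
    (hPJ : ∀ ξ, P (J ξ) = ξ) (hP : ∀ y, EN4 m (P y) ≤ C ^ 4 * ‖y‖ ^ 4) :
    ∃ Kf : Finset ℕ, ∀ i : Idx n, 1 / 2 ≤ ∑ k ∈ Kf,
      |(J (Pi.single i 1) : ∀ _ : ℕ, ℝ) k| * |P (lp.single 4 k (1 : ℝ)) i| := by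
  classical
  have hn1 : 1 ≤ n := le_trans (Nat.one_le_pow _ _ hm) hn
  have hb : ∀ (i : Idx n) (y : lp (fun _ : ℕ => ℝ) 4), ‖P y i‖ ≤ C * ‖y‖ := by
    intro i y
    have h1 := (fac_c_bd (m := m) hn1 (P y) i).trans (hP y)
    rw [← mul_pow] at h1
    rw [Real.norm_eq_abs]
    exact le_of_pow_le_pow_left₀ (by norm_num) (by positivity) h1
  have key : ∀ i : Idx n, ∃ s : Finset ℕ, ∀ t, s ⊆ t → 1 / 2 ≤ ∑ k ∈ t,
      |(J (Pi.single i 1) : ∀ _ : ℕ, ℝ) k| * |P (lp.single 4 k (1 : ℝ)) i| := by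
    intro i
    set y : lp (fun _ : ℕ => ℝ) 4 := J (Pi.single i 1) with hy
    set φ : lp (fun _ : ℕ => ℝ) 4 →ₗ[ℝ] ℝ := (LinearMap.proj i).comp P with hφ
    set Φ : lp (fun _ : ℕ => ℝ) 4 →L[ℝ] ℝ := φ.mkContinuous C (fun z => hb i z) with hΦ
    have hs := lp.hasSum_single (p := 4) (by norm_num) y
    have hs2 : HasSum (fun k => Φ (lp.single 4 k (y k))) (Φ y) := Φ.hasSum hs
    have hΦy : Φ y = 1 := by
      have : Φ y = P (J (Pi.single i 1)) i := rfl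
      rw [this, hPJ]; simp
    rw [hΦy] at hs2
    have hterm : ∀ k, Φ (lp.single 4 k (y k)) = (y : ∀ _ : ℕ, ℝ) k * P (lp.single 4 k (1:ℝ)) i := by
      intro k
      have e1 : (lp.single 4 k ((y : ∀ _ : ℕ, ℝ) k) : lp (fun _ : ℕ => ℝ) 4) = ((y : ∀ _ : ℕ, ℝ) k) • lp.single 4 k (1:ℝ) := by
        rw [← lp.single_smul]; simp
      rw [e1, map_smul]
      rfl
    have h4 : ∀ᶠ s in Filter.atTop, (1/2 : ℝ) < ∑ k ∈ s, Φ (lp.single 4 k (y k)) :=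
      hs2.eventually (lt_mem_nhds (by norm_num))
    obtain ⟨s, hs3⟩ := Filter.eventually_atTop.1 h4
    refine ⟨s, fun t ht => ?_⟩
    refine (hs3 t ht).le.trans (Finset.sum_le_sum (fun k _ => ?_))
    rw [hterm, ← abs_mul]
    exact le_abs_self _
  choose s hs using key
  exact ⟨Finset.univ.biUnion s, fun i => hs i _ (Finset.subset_biUnion_of_mem s (Finset.mem_univ i))⟩

end

end Pool.EQ
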