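import Pool.Agent.Helper364.EQ.Defs
import Pool.Agent.Helper364.EQ.P_ENT
import Pool.Agent.Helper364.EQ.P_fac_a
import Pool.Agent.Helper364.EQ.P_fac_b
import Pool.Agent.Helper364.EQ.P_fac_c
set_option autoImplicit false
set_option linter.unusedVariables false

open Finset
open scoped ENNReal

namespace Pool.EQ

noncomputable section







--#TARGET: prove this one (put helper lemmas between this line and the target, prefix their names with `fac_`)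

/-- HINT: `fac_c` gives `Kf`; apply `ENT` with the type `K = Kf` (subtype), `f i k = |(J e_i) k|`, `g i k = |(P e_k) i|`,
`C₁ = 48 C⁴`, `C₂ = 3 C²` (`Finset.sum_coe_sort`). -/
theorem fac {n m : ℕ} (hm : 1 ≤ m) (hn : m ^ 4 ≤ n) (C : ℝ) (hC : 1 ≤ C)
    (J : (Idx n → ℝ) →ₗ[ℝ] lp (fun _ : ℕ => ℝ) 4) (P : lp (fun _ : ℕ => ℝ) 4 →ₗ[ℝ] (Idx n → ℝ))
    (hPJ : ∀ ξ, P (J ξ) = ξ) (hJ : ∀ ξ, ‖J ξ‖ ^ 4 ≤ C ^ 4 * EN4 m ξ) (hP : ∀ y, EN4 m (P y) ≤ C ^ 4 * ‖y‖ ^ 4) :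
    Real.log m ≤ 22 * (Real.log (48 * C ^ 4) + 3 * Real.log (3 * C ^ 2) + 4 * Real.log 2) := by
  obtain ⟨Kf, hK⟩ := fac_c hm hn C hC J P hPJ hP
  have hn1 : 1 ≤ n := (Nat.one_le_pow _ _ hm).trans hn
  have hC4 : (1 : ℝ) ≤ C ^ 4 := one_le_pow₀ hC
  have hC2 : (1 : ℝ) ≤ C ^ 2 := one_le_pow₀ hC
  refine ENT hn1 hm (K := Kf) (fun i k => |(J (Pi.single i 1) : ∀ _ : ℕ, ℝ) k|)
    (fun i k => |P (lp.single 4 (k : ℕ) (1 : ℝ)) i|) (fun i k => abs_nonneg _)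
    (fun i k => abs_nonneg _) (48 * C ^ 4) (3 * C ^ 2) (by linarith) (by linarith) ?_ ?_ ?_
  · intro T a
    have := fac_a hm hn C hC J hJ Kf T a
    rwa [← Finset.sum_coe_sort Kf] at this
  · intro T a
    have := fac_b hm hn C hC P hP Kf T a
    rwa [← Finset.sum_coe_sort Kf] at this
  · intro i
    have := hK i
    rwa [← Finset.sum_coe_sort Kf] at this

end

end Pool.EQ
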