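import Pool.Agent.Helper364.EQ.Defs
set_option autoImplicit false
set_option linter.unusedVariables false

open Finset
open scoped ENNReal

namespace Pool.EQ

noncomputable section


--#TARGET: prove this one (put helper lemmas between this line and the target, prefix their names with `glue_Q_`)

theorem glue_Q_rp (x : ℝ) : x ^ (4 : ℝ≥0∞).toReal = x ^ 4 := by
  rw [ENNReal.toReal_ofNat]
  exact_mod_cast Real.rpow_natCast x 4

theorem glue_Q_mem {E : ℕ → Type} [∀ m, NormedAddCommGroup (E m)] (f : ∀ m, E m) :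
    Memℓp f 4 ↔ Summable (fun m => ‖f m‖ ^ 4) := by
  rw [memℓp_gen_iff (by norm_num)]
  simp only [glue_Q_rp]

theorem glue_Q_norm {E : ℕ → Type} [∀ m, NormedAddCommGroup (E m)] (f : lp E 4) :
    ‖f‖ ^ 4 = ∑' m, ‖f m‖ ^ 4 := by
  have h := lp.norm_rpow_eq_tsum (by norm_num : 0 < (4 : ℝ≥0∞).toReal) f
  simpa only [glue_Q_rp] using h

/-- block sums -/
theorem glue_Q_block (K : ℕ → Type) [∀ m, Fintype (K m)] (e : (Σ m, K m) ≃ ℕ) (F : ℕ → ℝ)
    (hF : Summable (fun n => ‖F n‖ ^ 4)) :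
    Summable (fun m => ∑ k, (F (e ⟨m, k⟩)) ^ 4) ∧
      ∑' m, ∑ k, (F (e ⟨m, k⟩)) ^ 4 = ∑' n, ‖F n‖ ^ 4 := by
  have h4 : ∀ x : ℝ, ‖x‖ ^ 4 = x ^ 4 := fun x => by
    rw [Real.norm_eq_abs]
    exact Even.pow_abs (by decide) x
  have h1 : Summable (fun z : Σ m, K m => (F (e z)) ^ 4) := by
    have := (e.summable_iff (f := fun n => ‖F n‖ ^ 4)).mpr hF
    simp only [Function.comp_def, h4] at this
    exact this
  have h2 := h1.sigma
  simp only [tsum_fintype] at h2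
  refine ⟨h2, ?_⟩
  have h3 := h1.tsum_sigma
  simp only [tsum_fintype] at h3
  rw [← h3]
  have h5 := e.tsum_eq (fun n => ‖F n‖ ^ 4)
  rw [← h5]
  simp only [h4]


/-- HINT: `T F = (q m (F restricted to the block m))_m`, blocks via `Σ m, K m ≃ ℕ`; bounded: `∑_m ‖q m F_m‖⁴ ≤ C ∑ F⁴`;
surjective: choose the lifts `F_m`, `∑_m ∑_k F_m(k)⁴ ≤ C ∑ ‖x_m‖⁴ < ∞`. -/
theorem glue_Q {XX : ℕ → Type} [∀ m, NormedAddCommGroup (XX m)] [∀ m, NormedSpace ℝ (XX m)]
    (K : ℕ → Type) [∀ m, Fintype (K m)] [∀ m, Nonempty (K m)] (q : ∀ m, (K m → ℝ) →ₗ[ℝ] XX m) (C : ℝ)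
    (hq : ∀ m F, ‖q m F‖ ^ 4 ≤ C * ∑ k, (F k) ^ 4)
    (hs : ∀ m x, ∃ F, q m F = x ∧ ∑ k, (F k) ^ 4 ≤ C * ‖x‖ ^ 4) :
    ∃ T : lp (fun _ : ℕ => ℝ) 4 →L[ℝ] lp XX 4, Function.Surjective T := by
  classical
  have h4 : ∀ x : ℝ, ‖x‖ ^ 4 = x ^ 4 := fun x => by
    rw [Real.norm_eq_abs]
    exact Even.pow_abs (by decide) x
  have hC : 0 ≤ C := by
    have h1 := hq 0 (fun _ => 1)
    simp only [one_pow, Finset.sum_const, Finset.card_univ, nsmul_eq_mul, mul_one] at h1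
    have h2 : (0 : ℝ) < (Fintype.card (K 0) : ℝ) := by exact_mod_cast Fintype.card_pos
    have h3 : 0 ≤ ‖q 0 (fun _ => 1)‖ ^ 4 := by positivity
    by_contra hcon
    push Not at hcon
    have := mul_neg_of_neg_of_pos hcon h2
    linarith
  have hinf : Infinite (Σ m, K m) :=
    Infinite.of_injective (fun m : ℕ => (⟨m, Classical.arbitrary (K m)⟩ : Σ m, K m))
      (fun a b hab => by
        have := congrArg Sigma.fst hab
        exact this)
  obtain ⟨e⟩ : Nonempty ((Σ m, K m) ≃ ℕ) := nonempty_equiv_of_countable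
  have hblk := fun F hF => glue_Q_block K e F hF
  -- the linear map
  let T₀ : lp (fun _ : ℕ => ℝ) 4 →ₗ[ℝ] lp XX 4 :=
    { toFun := fun F => ⟨fun m => q m (fun k => F (e ⟨m, k⟩)), by
        show Memℓp _ 4
        rw [glue_Q_mem]
        have hF : Summable (fun n => ‖F n‖ ^ 4) := (glue_Q_mem _).mp F.2
        refine Summable.of_nonneg_of_le (fun m => by positivity) (fun m => hq m _) ?_
        exact ((hblk F hF).1).mul_left C⟩
      map_add' := by
        intro F G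
        apply Subtype.ext
        funext m
        show q m (fun k => (F + G : lp (fun _ : ℕ => ℝ) 4) (e ⟨m, k⟩)) = _
        have : (fun k => (F + G : lp (fun _ : ℕ => ℝ) 4) (e ⟨m, k⟩)) =
            (fun k => F (e ⟨m, k⟩)) + (fun k => G (e ⟨m, k⟩)) := rfl
        rw [this, map_add]
        rfl
      map_smul' := by
        intro c F
        apply Subtype.ext
        funext m
        show q m (fun k => (c • F : lp (fun _ : ℕ => ℝ) 4) (e ⟨m, k⟩)) = _
        have : (fun k => (c • F : lp (fun _ : ℕ => ℝ) 4) (e ⟨m, k⟩)) =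
            c • (fun k => F (e ⟨m, k⟩)) := rfl
        rw [this, map_smul]
        rfl }
  have hT₀ : ∀ F m, T₀ F m = q m (fun k => F (e ⟨m, k⟩)) := fun F m => rfl
  have hbound : ∀ F, ‖T₀ F‖ ≤ (C + 1) * ‖F‖ := by
    intro F
    have hF : Summable (fun n => ‖F n‖ ^ 4) := (glue_Q_mem _).mp F.2
    have h1 : ‖T₀ F‖ ^ 4 ≤ C * ‖F‖ ^ 4 := by
      rw [glue_Q_norm, glue_Q_norm, ← (hblk F hF).2, ← tsum_mul_left]
      refine Summable.tsum_le_tsum (fun m => ?_) ((glue_Q_mem _).mp (T₀ F).2)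
        (((hblk F hF).1).mul_left C)
      rw [hT₀]
      exact hq m _
    have h2 : C * ‖F‖ ^ 4 ≤ ((C + 1) * ‖F‖) ^ 4 := by
      rw [mul_pow]
      refine mul_le_mul_of_nonneg_right ?_ (by positivity)
      have h3 : (C + 1) ^ 4 = C + (C * 3 + 6 * C ^ 2 + 4 * C ^ 3 + C ^ 4 + 1) := by ring
      rw [h3]
      have : 0 ≤ C * 3 + 6 * C ^ 2 + 4 * C ^ 3 + C ^ 4 + 1 := by positivity
      linarith
    exact (pow_le_pow_iff_left₀ (norm_nonneg _) (by positivity) (by norm_num : (4 : ℕ) ≠ 0)).mp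
      (h1.trans h2)
  refine ⟨T₀.mkContinuous (C + 1) hbound, ?_⟩
  intro x
  choose! F hF1 hF2 using fun m => hs m (x m)
  have hx : Summable (fun m => ‖x m‖ ^ 4) := (glue_Q_mem _).mp x.2
  have hsum : Summable (fun z : Σ m, K m => (F z.1 z.2) ^ 4) := by
    rw [summable_sigma_of_nonneg (fun z => by positivity)]
    refine ⟨fun m => (hasSum_fintype _).summable, ?_⟩
    simp only [tsum_fintype]
    exact Summable.of_nonneg_of_le (fun m => Finset.sum_nonneg (fun k _ => by positivity)) hF2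
      (hx.mul_left C)
  have hG : Memℓp (fun n => F (e.symm n).1 (e.symm n).2) 4 := by
    rw [glue_Q_mem]
    simp only [h4]
    exact (e.symm.summable_iff (f := fun z : Σ m, K m => (F z.1 z.2) ^ 4)).mpr hsum
  refine ⟨⟨_, hG⟩, ?_⟩
  apply Subtype.ext
  funext m
  show q m (fun k => F (e.symm (e ⟨m, k⟩)).1 (e.symm (e ⟨m, k⟩)).2) = x m
  have : (fun k => F (e.symm (e ⟨m, k⟩)).1 (e.symm (e ⟨m, k⟩)).2) = F m := by
    funext k
    rw [Equiv.symm_apply_apply]
  rw [this, hF1]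

end

end Pool.EQ
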