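import Pool.Agent.Helper364.EQ.Defs
set_option autoImplicit false
set_option linter.unusedVariables false

open Finset
open scoped ENNReal

namespace Pool.EQ

noncomputable section


--#TARGET: prove this one (put helper lemmas between this line and the target, prefix their names with `glue_S_`)

theorem glue_S_sum {XX : ℕ → Type} [∀ m, NormedAddCommGroup (XX m)] [∀ m, NormedSpace ℝ (XX m)]
    (K : ℕ → Type) [∀ m, Fintype (K m)] (j : ∀ m, XX m →ₗ[ℝ] (K m → ℝ))
    (hj : ∀ m x, ∑ k, (j m x k) ^ 4 = ‖x‖ ^ 4) (x : lp XX 4) :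
    HasSum (fun p : Σ m, K m => ‖j p.1 (x p.1) p.2‖ ^ 4) (‖x‖ ^ 4) := by
  have h4 : (4 : ℝ≥0∞).toReal = 4 := by simp
  have h1 : HasSum (fun m => ‖x m‖ ^ 4) (‖x‖ ^ 4) := by
    have := lp.hasSum_norm (p := 4) (by rw [h4]; norm_num) x
    rw [h4] at this
    simpa using this
  have h2 : ∀ m, ∑ k, ‖j m (x m) k‖ ^ 4 = ‖x m‖ ^ 4 := by
    intro m
    rw [← hj]
    refine Finset.sum_congr rfl fun k _ => ?_
    rw [Real.norm_eq_abs, Even.pow_abs (by decide)]
  have hs : Summable (fun p : Σ m, K m => ‖j p.1 (x p.1) p.2‖ ^ 4) := by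
    rw [summable_sigma_of_nonneg (fun p => by positivity)]
    refine ⟨fun m => (hasSum_fintype _).summable, ?_⟩
    simp only [tsum_fintype, h2]
    exact h1.summable
  have h3 := hs.hasSum.sigma (fun m => hasSum_fintype (fun k => ‖j m (x m) k‖ ^ 4))
  simp only [h2] at h3
  rw [← h3.unique h1]
  exact hs.hasSum

theorem glue_S_sumN {XX : ℕ → Type} [∀ m, NormedAddCommGroup (XX m)] [∀ m, NormedSpace ℝ (XX m)]
    (K : ℕ → Type) [∀ m, Fintype (K m)] (j : ∀ m, XX m →ₗ[ℝ] (K m → ℝ))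
    (hj : ∀ m x, ∑ k, (j m x k) ^ 4 = ‖x‖ ^ 4) (e : ℕ ≃ Σ m, K m) (x : lp XX 4) :
    HasSum (fun n : ℕ => ‖j (e n).1 (x (e n).1) (e n).2‖ ^ (4 : ℝ≥0∞).toReal)
      (‖x‖ ^ (4 : ℝ≥0∞).toReal) := by
  have h4 : (4 : ℝ≥0∞).toReal = 4 := by simp
  have h1 := (Equiv.hasSum_iff e).mpr (glue_S_sum K j hj x)
  rw [h4]
  simpa [Function.comp_def] using h1

/-- HINT: the map `x ↦ (j m (x m) k)_{(m,k)}` is a linear isometry of `lp XX 4` into `lp` over the countable infinite type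
`Σ m, K m ≃ ℕ`; `S` = its range (`LinearEquiv.ofInjective`/`LinearIsometry.equivRange`). -/
theorem glue_S {XX : ℕ → Type} [∀ m, NormedAddCommGroup (XX m)] [∀ m, NormedSpace ℝ (XX m)]
    (K : ℕ → Type) [∀ m, Fintype (K m)] [∀ m, Nonempty (K m)] (j : ∀ m, XX m →ₗ[ℝ] (K m → ℝ))
    (hj : ∀ m x, ∑ k, (j m x k) ^ 4 = ‖x‖ ^ 4) :
    ∃ S : Submodule ℝ (lp (fun _ : ℕ => ℝ) 4), Nonempty (lp XX 4 ≃L[ℝ] S) := by
  have h4 : (4 : ℝ≥0∞).toReal = 4 := by simp
  have h4' : 0 < (4 : ℝ≥0∞).toReal := by rw [h4]; norm_num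
  haveI : Infinite (Σ m, K m) :=
    Infinite.of_injective (fun m : ℕ => (⟨m, Classical.arbitrary (K m)⟩ : Σ m, K m))
      (fun a b hab => congrArg Sigma.fst hab)
  obtain ⟨e⟩ : Nonempty (ℕ ≃ Σ m, K m) := nonempty_equiv_of_countable
  let T : lp XX 4 →ₗᵢ[ℝ] lp (fun _ : ℕ => ℝ) 4 :=
    { toFun := fun x => ⟨fun n => j (e n).1 (x (e n).1) (e n).2,
        memℓp_gen (glue_S_sumN K j hj e x).summable⟩
      map_add' := fun x y => by
        ext n
        change j (e n).1 ((x + y : lp XX 4) (e n).1) (e n).2 =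
          j (e n).1 (x (e n).1) (e n).2 + j (e n).1 (y (e n).1) (e n).2
        rw [lp.coeFn_add, Pi.add_apply, map_add, Pi.add_apply]
      map_smul' := fun c x => by
        ext n
        change j (e n).1 ((c • x : lp XX 4) (e n).1) (e n).2 =
          c • j (e n).1 (x (e n).1) (e n).2
        rw [lp.coeFn_smul, Pi.smul_apply, map_smul, Pi.smul_apply]
      norm_map' := fun x => by
        have h1 := glue_S_sumN K j hj e x
        have h2 := lp.hasSum_norm h4' (⟨fun n => j (e n).1 (x (e n).1) (e n).2,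
          memℓp_gen h1.summable⟩ : lp (fun _ : ℕ => ℝ) 4)
        have h3 := h2.unique h1
        exact (Real.rpow_left_inj (norm_nonneg _) (norm_nonneg _) h4'.ne').mp h3 }
  exact ⟨LinearMap.range T.toLinearMap, ⟨T.equivRange.toContinuousLinearEquiv⟩⟩

end

end Pool.EQ
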