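import Pool.Agent.Helper364.EQ.Defs
set_option autoImplicit false
set_option linter.unusedVariables false

open Finset
open scoped ENNReal

namespace Pool.EQ

noncomputable section


--#TARGET: prove this one (put helper lemmas between this line and the target, prefix their names with `glue_fac_`)

/-- HINT: `J = Φ ∘ lp.single`, `P = (evaluation at m) ∘ Φ⁻¹`, `C = max ‖Φ‖ ‖Φ⁻¹‖ + 1`; `lp.norm_single`,
`lp.norm_apply_le_norm`. -/
theorem glue_fac {XX : ℕ → Type} [∀ m, NormedAddCommGroup (XX m)] [∀ m, NormedSpace ℝ (XX m)]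
    (Φ : lp XX 4 ≃L[ℝ] lp (fun _ : ℕ => ℝ) 4) :
    ∃ C : ℝ, 1 ≤ C ∧ ∀ m, ∃ (J : XX m →ₗ[ℝ] lp (fun _ : ℕ => ℝ) 4) (P : lp (fun _ : ℕ => ℝ) 4 →ₗ[ℝ] XX m),
      (∀ x, P (J x) = x) ∧ (∀ x, ‖J x‖ ≤ C * ‖x‖) ∧ (∀ y, ‖P y‖ ≤ C * ‖y‖) := by
  
  have hp : (0 : ℝ≥0∞) < 4 := by norm_num
  set A : lp XX 4 →L[ℝ] lp (fun _ : ℕ => ℝ) 4 := (Φ : lp XX 4 →L[ℝ] lp (fun _ : ℕ => ℝ) 4) with hA
  set B : lp (fun _ : ℕ => ℝ) 4 →L[ℝ] lp XX 4 :=
    (Φ.symm : lp (fun _ : ℕ => ℝ) 4 →L[ℝ] lp XX 4) with hB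
  refine ⟨max ‖A‖ ‖B‖ + 1, ?_, ?_⟩
  · have := le_max_left ‖A‖ ‖B‖
    linarith [norm_nonneg A]
  intro m
  let J : XX m →ₗ[ℝ] lp (fun _ : ℕ => ℝ) 4 :=
    { toFun := fun x => A (lp.single 4 m x)
      map_add' := fun x y => by
        rw [← map_add]
        congr 1
        exact lp.single_add 4 m x y
      map_smul' := fun c x => by
        rw [RingHom.id_apply, ← map_smul]
        congr 1
        exact lp.single_smul 4 m c x }
  let P : lp (fun _ : ℕ => ℝ) 4 →ₗ[ℝ] XX m :=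
    { toFun := fun y => (B y : ∀ i, XX i) m
      map_add' := fun x y => by
        rw [map_add]
        rfl
      map_smul' := fun c x => by
        rw [map_smul]
        rfl }
  refine ⟨J, P, ?_, ?_, ?_⟩
  · intro x
    change (B (A (lp.single 4 m x)) : ∀ i, XX i) m = x
    have : B (A (lp.single 4 m x)) = lp.single 4 m x := by
      rw [hA, hB]
      exact Φ.symm_apply_apply _
    rw [this]
    exact lp.single_apply_self 4 m x
  · intro x
    change ‖A (lp.single 4 m x)‖ ≤ _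
    refine (A.le_opNorm _).trans ?_
    have h1 : ‖(lp.single 4 m x : lp XX 4)‖ = ‖x‖ := lp.norm_single hp m x
    rw [h1]
    apply mul_le_mul_of_nonneg_right _ (norm_nonneg _)
    have := le_max_left ‖A‖ ‖B‖
    linarith
  · intro y
    change ‖(B y : ∀ i, XX i) m‖ ≤ _
    refine (lp.norm_apply_le_norm hp.ne' _ m).trans ?_
    refine (B.le_opNorm _).trans ?_
    apply mul_le_mul_of_nonneg_right _ (norm_nonneg _)
    have := le_max_right ‖A‖ ‖B‖
    linarith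

end

end Pool.EQ
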