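import Pool.Agent.Helper364.EQ.Defs
set_option autoImplicit false
set_option linter.unusedVariables false

open Finset
open scoped ENNReal

namespace Pool.EQ

noncomputable section


--#TARGET: prove this one (put helper lemmas between this line and the target, prefix their names with `glue_inf_`)

/-- HINT: choose `x_m ≠ 0` in `XX m`; the elements `lp.single 4 m (x_m)` are linearly independent (look at coordinates). -/
theorem glue_inf {XX : ℕ → Type} [∀ m, NormedAddCommGroup (XX m)] [∀ m, NormedSpace ℝ (XX m)]
    [∀ m, Nontrivial (XX m)] : ¬ FiniteDimensional ℝ (lp XX 4) := by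
  intro hfd
  have hx : ∀ m, ∃ x : XX m, x ≠ 0 := fun m => exists_ne 0
  choose x hx0 using hx
  have hli : LinearIndependent ℝ (fun m : ℕ => (lp.single 4 m (x m) : lp XX 4)) := by
    rw [linearIndependent_iff']
    intro s g hsum i hi
    have h := congrArg (fun F : lp XX 4 => (F : ∀ m, XX m) i) hsum
    simp only [lp.coeFn_sum, Finset.sum_apply, lp.coeFn_smul, Pi.smul_apply, lp.coeFn_zero,
      Pi.zero_apply] at h
    rw [Finset.sum_eq_single i] at h
    · rw [lp.single_apply_self] at h
      rcases smul_eq_zero.1 h with h1 | h1
      · exact h1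
      · exact absurd h1 (hx0 i)
    · intro j _ hj
      rw [lp.single_apply_ne _ _ _ (Ne.symm hj), smul_zero]
    · intro h'; exact absurd hi h'
  have := hli.finite
  exact not_finite ℕ

end

end Pool.EQ
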