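import Pool.Agent.Helper364.EQ.Defs
import Pool.Agent.Helper364.EQ.P_KH4
set_option autoImplicit false
set_option linter.unusedVariables false

open Finset
open scoped ENNReal

namespace Pool.EQ

noncomputable section




--#TARGET: prove this one (put helper lemmas between this line and the target, prefix their names with `Lf_bd_`)

theorem Lf_bd_prod {A B : Type} [Fintype A] [Fintype B] (F : A × B → ℝ) :
    Av F = Av (fun a => Av (fun b => F (a, b))) := by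
  unfold Av
  rw [Fintype.sum_prod_type, Fintype.card_prod, ← Finset.sum_div, div_div]
  push_cast
  rw [mul_comm (Fintype.card A : ℝ)]

theorem Lf_bd_mono {A : Type} [Fintype A] (F G : A → ℝ) (h : ∀ a, F a ≤ G a) : Av F ≤ Av G := by
  unfold Av
  exact div_le_div_of_nonneg_right (Finset.sum_le_sum (fun a _ => h a)) (by positivity)

theorem Lf_bd_sum {A ι : Type} [Fintype A] (s : Finset ι) (F : ι → A → ℝ) :
    Av (fun a => ∑ i ∈ s, F i a) = ∑ i ∈ s, Av (F i) := by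
  unfold Av
  rw [Finset.sum_comm, Finset.sum_div]

theorem Lf_bd_mul {A : Type} [Fintype A] (c : ℝ) (F : A → ℝ) :
    Av (fun a => c * F a) = c * Av F := by
  unfold Av
  rw [← Finset.mul_sum, mul_div_assoc]

theorem Lf_bd_ind (P Q : Prop) : ind P ^ 2 * ind Q ^ 2 = ind (P ∧ Q) := by
  unfold ind
  by_cases hP : P <;> by_cases hQ : Q <;> simp [hP, hQ]

/-- HINT: for fixed `w`, `KH4` (upper bound) with `a_i = ξ_i m 1_{M i w}`: average over signs `≤ 3 (∑ ξ_i² m² 1_{M i w})²`;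
expand the square and average over `w`: `3 m⁴ ∑_{i,i'} ξ_i² ξ_{i'}² Pr(M i ∧ M i') ≤ 3 ∑_{i,i'} ξ_i² ξ_{i'}² m^{-d(D(i,i'))}`
and `D(i,i') = T` implies `i' ∈ slc T i`. -/
theorem Lf_bd {n m : ℕ} (hm : 1 ≤ m) {Λ : Type} [Fintype Λ] [Nonempty Λ] {M : Idx n → Λ → Prop}
    {d u : Finset (Fin 4) → ℕ} (h : Good n m Λ M 4 d u) (ξ : Idx n → ℝ) :
    Av (fun z => (LfM m M ξ z) ^ 4) ≤
      3 * ∑ T : Finset (Fin 4), (1 / (m : ℝ)) ^ (d T) * NT T (fun i => ξ i ^ 2) := by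
  have hm0 : (0 : ℝ) < m := by exact_mod_cast hm
  rw [Lf_bd_prod]
  have h1 : ∀ w, Av (fun ε => (LfM m M ξ (w, ε)) ^ 4) ≤
      3 * ∑ i, ∑ i', (ξ i ^ 2 * ξ i' ^ 2 * (m : ℝ) ^ 4) * ind (M i w ∧ M i' w) := by
    intro w
    have h2 := (KH4 univ (fun i => ξ i * ((m : ℝ) * ind (M i w)))).2.1
    have h3 : (fun ε : Idx n → Bool => (LfM m M ξ (w, ε)) ^ 4) =
        (fun ε : Idx n → Bool => (∑ i, sg (ε i) * (ξ i * ((m : ℝ) * ind (M i w)))) ^ 4) := by
      funext ε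
      unfold LfM
      congr 1
      exact Finset.sum_congr rfl (fun i _ => by ring)
    rw [h3]
    refine h2.trans (le_of_eq ?_)
    congr 1
    rw [sq, Finset.sum_mul_sum]
    refine Finset.sum_congr rfl (fun i _ => Finset.sum_congr rfl (fun i' _ => ?_))
    rw [← Lf_bd_ind]
    ring
  refine (Lf_bd_mono _ _ h1).trans ?_
  rw [Lf_bd_mul]
  refine mul_le_mul_of_nonneg_left ?_ (by norm_num)
  rw [Lf_bd_sum]
  have h4 : ∀ i : Idx n, Av (fun w => ∑ i', (ξ i ^ 2 * ξ i' ^ 2 * (m : ℝ) ^ 4) * ind (M i w ∧ M i' w)) ≤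
      ∑ T : Finset (Fin 4), (1 / (m : ℝ)) ^ (d T) * (ξ i ^ 2 * Sl T (fun i => ξ i ^ 2) i) := by
    intro i
    rw [Lf_bd_sum]
    have h5 : ∀ i' : Idx n, Av (fun w => (ξ i ^ 2 * ξ i' ^ 2 * (m : ℝ) ^ 4) * ind (M i w ∧ M i' w)) ≤
        ∑ T : Finset (Fin 4), (1 / (m : ℝ)) ^ (d T) * (ξ i ^ 2 * (if i' ∈ slc T i then ξ i' ^ 2 else 0)) := by
      intro i'
      rw [Lf_bd_mul]
      have h6 := h.two i i'
      unfold Pr at h6
      have h7 : (ξ i ^ 2 * ξ i' ^ 2 * (m : ℝ) ^ 4) * Av (fun w => ind (M i w ∧ M i' w)) ≤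
          (ξ i ^ 2 * ξ i' ^ 2 * (m : ℝ) ^ 4) * (1 / (m : ℝ)) ^ (4 + d (univ.filter fun l => i l ≠ i' l)) :=
        mul_le_mul_of_nonneg_left h6 (by positivity)
      refine h7.trans ?_
      have h8 : (ξ i ^ 2 * ξ i' ^ 2 * (m : ℝ) ^ 4) * (1 / (m : ℝ)) ^ (4 + d (univ.filter fun l => i l ≠ i' l)) =
          (1 / (m : ℝ)) ^ (d (univ.filter fun l => i l ≠ i' l)) * (ξ i ^ 2 *
            (if i' ∈ slc (univ.filter fun l => i l ≠ i' l) i then ξ i' ^ 2 else 0)) := by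
        have hmem : i' ∈ slc (univ.filter fun l => i l ≠ i' l) i := by
          unfold slc
          rw [Finset.mem_filter]
          refine ⟨Finset.mem_univ _, fun l hl => ?_⟩
          by_contra hne
          apply hl
          rw [Finset.mem_filter]
          exact ⟨Finset.mem_univ _, fun hh => hne hh.symm⟩
        rw [if_pos hmem, pow_add]
        have : (m : ℝ) ^ 4 * (1 / (m : ℝ)) ^ 4 = 1 := by
          rw [← mul_pow, mul_one_div_cancel hm0.ne', one_pow]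
        calc ξ i ^ 2 * ξ i' ^ 2 * (m : ℝ) ^ 4 * ((1 / (m : ℝ)) ^ 4 * (1 / (m : ℝ)) ^ (d (univ.filter fun l => i l ≠ i' l)))
            = ((m : ℝ) ^ 4 * (1 / (m : ℝ)) ^ 4) * ((1 / (m : ℝ)) ^ (d (univ.filter fun l => i l ≠ i' l)) * (ξ i ^ 2 * ξ i' ^ 2)) := by ring
          _ = _ := by rw [this, one_mul]
      rw [h8]
      refine Finset.single_le_sum (f := fun T : Finset (Fin 4) => (1 / (m : ℝ)) ^ (d T) * (ξ i ^ 2 *
        (if i' ∈ slc T i then ξ i' ^ 2 else 0))) (fun T _ => ?_) (Finset.mem_univ _)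
      have : (0 : ℝ) ≤ (if i' ∈ slc T i then ξ i' ^ 2 else 0) := by
        split_ifs <;> positivity
      positivity
    refine (Finset.sum_le_sum (fun i' _ => h5 i')).trans (le_of_eq ?_)
    rw [Finset.sum_comm]
    refine Finset.sum_congr rfl (fun T _ => ?_)
    rw [← Finset.mul_sum, ← Finset.mul_sum]
    congr 2
    unfold Sl
    rw [← Finset.sum_filter]
    refine Finset.sum_congr ?_ (fun _ _ => rfl)
    ext x
    simp
  refine (Finset.sum_le_sum (fun i _ => h4 i)).trans (le_of_eq ?_)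
  rw [Finset.sum_comm]
  refine Finset.sum_congr rfl (fun T _ => ?_)
  rw [← Finset.mul_sum]
  rfl

end

end Pool.EQ
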