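import Pool.Agent.Helper364.EQ.Defs
import Pool.Agent.Helper364.EQ.P_NT_eq
set_option autoImplicit false
set_option linter.unusedVariables false

open Finset
open scoped ENNReal

namespace Pool.EQ

noncomputable section




--#TARGET: prove this one (put helper lemmas between this line and the target, prefix their names with `NT_add_`)

/-- HINT: by `NT_eq`, `NT T` is a nonnegative quadratic form (for `n = 0` the sums are empty or treat separately: for
`n = 0` the index type is empty), `(x+y)² ≤ 2x²+2y²` for the slice sums. -/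
theorem NT_add {n : ℕ} (T : Finset (Fin 4)) (v w : Idx n → ℝ) :
    NT T (fun i => v i + w i) ≤ 2 * NT T v + 2 * NT T w := by
  rcases Nat.eq_zero_or_pos n with hn | hn
  · subst hn
    haveI : IsEmpty (Idx 0) := ⟨fun a => Fin.elim0 (a 0)⟩
    have h0 : ∀ v : Idx 0 → ℝ, NT T v = 0 := by
      intro v
      unfold NT
      exact Finset.sum_of_isEmpty _
    rw [h0, h0, h0]
    norm_num
  · rw [NT_eq hn, NT_eq hn, NT_eq hn]
    have hsl : ∀ a, Sl T (fun i => v i + w i) a = Sl T v a + Sl T w a := by
      intro a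
      unfold Sl
      exact Finset.sum_add_distrib
    have hle : ∑ a : Idx n, (Sl T (fun i => v i + w i) a) ^ 2 ≤
        2 * ∑ a : Idx n, (Sl T v a) ^ 2 + 2 * ∑ a : Idx n, (Sl T w a) ^ 2 := by
      rw [Finset.mul_sum, Finset.mul_sum, ← Finset.sum_add_distrib]
      refine Finset.sum_le_sum fun a _ => ?_
      rw [hsl]
      nlinarith [sq_nonneg (Sl T v a - Sl T w a)]
    have hc : 0 ≤ (1 / (n : ℝ)) ^ T.card := by positivity
    calc (1 / (n : ℝ)) ^ T.card * ∑ a : Idx n, (Sl T (fun i => v i + w i) a) ^ 2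
        ≤ (1 / (n : ℝ)) ^ T.card *
          (2 * ∑ a : Idx n, (Sl T v a) ^ 2 + 2 * ∑ a : Idx n, (Sl T w a) ^ 2) :=
          mul_le_mul_of_nonneg_left hle hc
      _ = _ := by ring

end

end Pool.EQ
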