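import Pool.Agent.Helper364.EQ.Defs
set_option autoImplicit false
set_option linter.unusedVariables false

open Finset
open scoped ENNReal

namespace Pool.EQ

noncomputable section


--#TARGET: prove this one (put helper lemmas between this line and the target, prefix their names with `sg_orth_`)

/-- HINT: `i = j`: `sg^2 = 1`. `i ≠ j`: flip the bit `i` (an involution of `ι → Bool`), the sum changes sign. -/
theorem sg_orth {ι : Type} [Fintype ι] [DecidableEq ι] (i j : ι) :
    Av (fun ε : ι → Bool => sg (ε i) * sg (ε j)) = if i = j then 1 else 0 := by
  have hcard : (Fintype.card (ι → Bool) : ℝ) ≠ 0 := by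
    have : 0 < Fintype.card (ι → Bool) := Fintype.card_pos
    positivity
  by_cases h : i = j
  · subst h
    rw [if_pos rfl]
    unfold Av
    have h1 : ∀ ε : ι → Bool, sg (ε i) * sg (ε i) = 1 := by
      intro ε
      unfold sg
      cases ε i <;> simp
    simp only [h1]
    rw [Finset.sum_const, Finset.card_univ, nsmul_eq_mul, mul_one, div_self hcard]
  · rw [if_neg h]
    unfold Av
    have h1 : ∑ ε : ι → Bool, sg (ε i) * sg (ε j) = 0 := by
      refine Finset.sum_involution (fun ε _ => Function.update ε i (!ε i)) ?_ ?_ ?_ ?_
      · intro ε _
        rw [Function.update_self, Function.update_of_ne (Ne.symm h)]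
        unfold sg
        cases ε i <;> cases ε j <;> simp
      · intro ε _ _ hne
        have h2 := congrFun hne i
        rw [Function.update_self] at h2
        exact absurd h2 (by cases ε i <;> simp)
      · intro ε _
        exact Finset.mem_univ _
      · intro ε _
        funext k
        by_cases hk : k = i
        · subst hk
          simp
        · simp [Function.update_of_ne hk]
    rw [h1, zero_div]

end

end Pool.EQ
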