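import Pool.Agent.Helper364.EQ.Defs
import Pool.Agent.Helper364.EQ.P_sg_orth
set_option autoImplicit false
set_option linter.unusedVariables false

open Finset
open scoped ENNReal

namespace Pool.EQ

noncomputable section




--#TARGET: prove this one (put helper lemmas between this line and the target, prefix their names with `PiLf_`)

theorem PiLf_prod {A B : Type} [Fintype A] [Fintype B] (F : A × B → ℝ) :
    Av F = Av (fun a => Av (fun b => F (a, b))) := by
  unfold Av
  rw [Fintype.sum_prod_type, Fintype.card_prod, ← Finset.sum_div, Nat.cast_mul, div_div]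
  congr 1
  ring

theorem PiLf_sum {A B : Type} [Fintype A] [Fintype B] (c : B → ℝ) (F : B → A → ℝ) :
    Av (fun a => ∑ b, c b * F b a) = ∑ b, c b * Av (F b) := by
  unfold Av
  rw [Finset.sum_comm, Finset.sum_div]
  apply Finset.sum_congr rfl
  intro b _
  rw [← Finset.mul_sum, mul_div_assoc]

theorem PiLf_mul {A : Type} [Fintype A] (c : ℝ) (F : A → ℝ) :
    Av (fun a => c * F a) = c * Av F := by
  unfold Av
  rw [← Finset.mul_sum, mul_div_assoc]

/-- HINT: expand, average over the signs first (`sg_orth`): only the term `j = i` remains,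
`Av_w [m · m³ · 1_{M i}] = m⁴ Pr (M i) = 1`. -/
theorem PiLf {n m : ℕ} (hm : 1 ≤ m) {Λ : Type} [Fintype Λ] {M : Idx n → Λ → Prop} {d u : Finset (Fin 4) → ℕ}
    (h : Good n m Λ M 4 d u) (ξ : Idx n → ℝ) : PiM m M (LfM m M ξ) = ξ := by
  classical
  funext i
  have hm0 : (m : ℝ) ≠ 0 := by
    have : 0 < m := hm
    exact_mod_cast this.ne'
  unfold PiM LfM
  rw [PiLf_prod]
  have h1 : ∀ w : Λ, Av (fun ε : Idx n → Bool => (∑ j, ξ j * (sg (ε j) * ((m : ℝ) * ind (M j w)))) *
      (sg (ε i) * ((m : ℝ) ^ 3 * ind (M i w)))) = (ξ i * (m : ℝ) ^ 4) * ind (M i w) := by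
    intro w
    have h2 : (fun ε : Idx n → Bool => (∑ j, ξ j * (sg (ε j) * ((m : ℝ) * ind (M j w)))) *
      (sg (ε i) * ((m : ℝ) ^ 3 * ind (M i w)))) = fun ε : Idx n → Bool =>
        ∑ j, (ξ j * ((m : ℝ) * ind (M j w)) * ((m : ℝ) ^ 3 * ind (M i w))) *
          (sg (ε j) * sg (ε i)) := by
      funext ε
      rw [Finset.sum_mul]
      apply Finset.sum_congr rfl
      intro j _
      ring
    rw [h2, PiLf_sum (fun j => ξ j * ((m : ℝ) * ind (M j w)) * ((m : ℝ) ^ 3 * ind (M i w)))
      (fun j (ε : Idx n → Bool) => sg (ε j) * sg (ε i))]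
    simp only [sg_orth]
    rw [Finset.sum_eq_single i]
    · rw [if_pos rfl]
      unfold ind
      split_ifs <;> ring
    · intro j _ hji
      rw [if_neg hji, mul_zero]
    · intro h
      exact absurd (Finset.mem_univ i) h
  have h3 : (fun w : Λ => Av (fun ε : Idx n → Bool =>
      (∑ j, ξ j * (sg ((w, ε).2 j) * ((m : ℝ) * ind (M j (w, ε).1)))) *
      (sg ((w, ε).2 i) * ((m : ℝ) ^ 3 * ind (M i (w, ε).1))))) =
      fun w => (ξ i * (m : ℝ) ^ 4) * ind (M i w) := by
    funext w
    exact h1 w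
  rw [h3, PiLf_mul]
  have h4 := h.one i
  unfold Pr at h4
  rw [h4]
  field_simp

end

end Pool.EQ
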