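import Pool.Agent.Helper364.EQ.Defs
import Pool.Agent.Helper364.EQ.P_sg_orth
set_option autoImplicit false
set_option linter.unusedVariables false

open Finset
open scoped ENNReal

namespace Pool.EQ

noncomputable section




--#TARGET: prove this one (put helper lemmas between this line and the target, prefix their names with `Bessel_`)

theorem Bessel_add {Ω : Type} [Fintype Ω] (F G : Ω → ℝ) :
    Av (fun w => F w + G w) = Av F + Av G := by
  unfold Av
  rw [Finset.sum_add_distrib, add_div]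

theorem Bessel_sub {Ω : Type} [Fintype Ω] (F G : Ω → ℝ) :
    Av (fun w => F w - G w) = Av F - Av G := by
  unfold Av
  rw [Finset.sum_sub_distrib, sub_div]

theorem Bessel_smul {Ω : Type} [Fintype Ω] (c : ℝ) (F : Ω → ℝ) :
    Av (fun w => c * F w) = c * Av F := by
  unfold Av
  rw [← Finset.mul_sum, mul_div_assoc]

theorem Bessel_sum {Ω κ : Type} [Fintype Ω] (s : Finset κ) (F : κ → Ω → ℝ) :
    Av (fun w => ∑ k ∈ s, F k w) = ∑ k ∈ s, Av (F k) := by
  unfold Av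
  rw [Finset.sum_comm, Finset.sum_div]

theorem Bessel_nonneg {Ω : Type} [Fintype Ω] (F : Ω → ℝ) (h : ∀ w, 0 ≤ F w) : 0 ≤ Av F :=
  div_nonneg (Finset.sum_nonneg fun w _ => h w) (Nat.cast_nonneg _)

theorem Bessel_const {Ω : Type} [Fintype Ω] [Nonempty Ω] (c : ℝ) : Av (fun _ : Ω => c) = c := by
  unfold Av
  have h : (Fintype.card Ω : ℝ) ≠ 0 := by exact_mod_cast Fintype.card_ne_zero
  rw [Finset.sum_const, Finset.card_univ, nsmul_eq_mul, mul_div_assoc, mul_comm,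
    div_mul_cancel₀ _ h]

theorem Bessel_sq {Ω : Type} [Fintype Ω] [Nonempty Ω] (F : Ω → ℝ) :
    (Av F) ^ 2 ≤ Av (fun w => F w ^ 2) := by
  have h1 : 0 ≤ Av (fun w => (F w - Av F) ^ 2) := Bessel_nonneg _ fun w => sq_nonneg _
  have h2 : (fun w => (F w - Av F) ^ 2) = fun w => (F w ^ 2 - (2 * Av F) * F w) + (Av F) ^ 2 := by
    funext w; ring
  rw [h2, Bessel_add (fun w => F w ^ 2 - (2 * Av F) * F w) (fun _ => (Av F) ^ 2),
    Bessel_sub (fun w => F w ^ 2) (fun w => (2 * Av F) * F w), Bessel_smul, Bessel_const] at h1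
  nlinarith

/-- HINT: `c_i = Av (G ε · sg (ε i))`; `0 ≤ Av (G - ∑ c_i sg(ε_i))² = Av G² - ∑ c_i²`; and `(Av G²)² ≤ Av G⁴`. -/
theorem Bessel {ι : Type} [Fintype ι] [DecidableEq ι] (G : (ι → Bool) → ℝ) :
    (∑ i, (Av (fun ε => G ε * sg (ε i))) ^ 2) ^ 2 ≤ Av (fun ε => G ε ^ 4) := by
  set c : ι → ℝ := fun i => Av (fun ε => G ε * sg (ε i)) with hc
  have h1 : 0 ≤ Av (fun ε => (G ε - ∑ i, c i * sg (ε i)) ^ 2) :=
    Bessel_nonneg _ fun w => sq_nonneg _
  have h2 : (fun ε : ι → Bool => (G ε - ∑ i, c i * sg (ε i)) ^ 2) =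
      fun ε => (G ε ^ 2 - 2 * ∑ i, c i * (G ε * sg (ε i))) +
        ∑ i, ∑ j, (c i * c j) * (sg (ε i) * sg (ε j)) := by
    funext ε
    have e1 : (∑ i, c i * sg (ε i)) ^ 2 = ∑ i, ∑ j, (c i * c j) * (sg (ε i) * sg (ε j)) := by
      rw [sq, Finset.sum_mul_sum]
      refine Finset.sum_congr rfl fun i _ => Finset.sum_congr rfl fun j _ => ?_
      ring
    have e2 : ∑ i, c i * (G ε * sg (ε i)) = G ε * ∑ i, c i * sg (ε i) := by
      rw [Finset.mul_sum]
      refine Finset.sum_congr rfl fun i _ => ?_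
      ring
    rw [← e1, e2]
    ring
  have h3 : Av (fun ε : ι → Bool => ∑ i, c i * (G ε * sg (ε i))) = ∑ i, c i ^ 2 := by
    rw [Bessel_sum Finset.univ (fun i (ε : ι → Bool) => c i * (G ε * sg (ε i)))]
    refine Finset.sum_congr rfl fun i _ => ?_
    rw [Bessel_smul, sq]
  have h4 : Av (fun ε : ι → Bool => ∑ i, ∑ j, (c i * c j) * (sg (ε i) * sg (ε j))) =
      ∑ i, c i ^ 2 := by
    rw [Bessel_sum Finset.univ (fun i (ε : ι → Bool) => ∑ j, (c i * c j) * (sg (ε i) * sg (ε j)))]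
    refine Finset.sum_congr rfl fun i _ => ?_
    rw [Bessel_sum Finset.univ (fun j (ε : ι → Bool) => (c i * c j) * (sg (ε i) * sg (ε j)))]
    rw [Finset.sum_eq_single i]
    · rw [Bessel_smul, sg_orth, if_pos rfl, mul_one, sq]
    · intro j _ hj
      rw [Bessel_smul, sg_orth, if_neg (Ne.symm hj), mul_zero]
    · intro h
      exact absurd (Finset.mem_univ i) h
  rw [h2, Bessel_add (fun ε => G ε ^ 2 - 2 * ∑ i, c i * (G ε * sg (ε i)))
    (fun ε => ∑ i, ∑ j, (c i * c j) * (sg (ε i) * sg (ε j))),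
    Bessel_sub (fun ε => G ε ^ 2) (fun ε => 2 * ∑ i, c i * (G ε * sg (ε i))),
    Bessel_smul, h3, h4] at h1
  have h5 : ∑ i, c i ^ 2 ≤ Av (fun ε => G ε ^ 2) := by linarith
  have h6 : 0 ≤ ∑ i, c i ^ 2 := Finset.sum_nonneg fun i _ => sq_nonneg _
  have h7 := Bessel_sq (fun ε => G ε ^ 2)
  have h8 : (fun ε : ι → Bool => (G ε ^ 2) ^ 2) = fun ε => G ε ^ 4 := by
    funext ε; ring
  rw [h8] at h7
  calc (∑ i, c i ^ 2) ^ 2 ≤ (Av (fun ε => G ε ^ 2)) ^ 2 := pow_le_pow_left₀ h6 h5 2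
    _ ≤ _ := h7

end

end Pool.EQ
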