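import Pool.Agent.Helper364.EQ.Defs
set_option autoImplicit false
set_option linter.unusedVariables false

open Finset
open scoped ENNReal

namespace Pool.EQ

noncomputable section


--#TARGET: prove this one (put helper lemmas between this line and the target, prefix their names with `slice_bd_`)

theorem slice_bd_ind_mul {P Q : Prop} (h : Q → P) : ind P * ind Q = ind Q := by
  unfold ind
  by_cases hq : Q
  · rw [if_pos hq, if_pos (h hq)]; norm_num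
  · rw [if_neg hq, mul_zero]

theorem slice_bd_ind_sq (P : Prop) : ind P ^ 2 = ind P := by
  rw [sq]
  exact slice_bd_ind_mul id

/-- Abstract slice estimate. HINT: `D_i = Av_w [c_i(w) k 1_{M i w}]`, `s = ∑_{i∈A} D_i²`, `k = m³`, `Pr (M i) = m^{-4}`.
`s = k Av_w[∑_{i∈A} D_i c_i 1_{M_i}] ≤ k Av_w[(∑ c_i²)^{1/2} (∑ D_i² 1_{M_i})^{1/2} 1_U]`, `U = ⋃_{i∈A} M_i`; Cauchy-Schwarz:
`s² ≤ m⁶ Av[1_U ∑ c_i²] · Av[∑ D_i² 1_{M_i}] = m⁶ Av[1_U ∑ c_i²] m^{-4} s`, so `s ≤ m² Av[1_U ∑ c_i²]`, and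
`s² ≤ m⁴ Pr(U) Av[(∑ c_i²)²]`. -/
theorem slice_bd {n m : ℕ} (hm : 1 ≤ m) {Λ : Type} [Fintype Λ] [Nonempty Λ] {M : Idx n → Λ → Prop}
    (h1 : ∀ i, Pr (M i) = (1 / (m : ℝ)) ^ 4) (A : Finset (Idx n)) (c : Idx n → Λ → ℝ) :
    (∑ i ∈ A, (Av (fun w => c i w * ((m : ℝ) ^ 3 * ind (M i w)))) ^ 2) ^ 2 ≤
      (m : ℝ) ^ 4 * Pr (fun w => ∃ i ∈ A, M i w) * Av (fun w => (∑ i ∈ A, (c i w) ^ 2) ^ 2) := by
  classical
  set D : Idx n → ℝ := fun i => Av (fun w => c i w * ((m : ℝ) ^ 3 * ind (M i w))) with hD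
  set X : Λ → ℝ := fun w => ind (∃ i ∈ A, M i w) with hX
  set S : Λ → ℝ := fun w => ∑ i ∈ A, (c i w) ^ 2 with hS
  set s : ℝ := ∑ i ∈ A, D i ^ 2 with hs
  set N : ℝ := (Fintype.card Λ : ℝ) with hN
  have hNpos : 0 < N := by
    rw [hN]
    exact_mod_cast Fintype.card_pos
  have hm0 : (0 : ℝ) < m := by exact_mod_cast hm
  have hs0 : 0 ≤ s := Finset.sum_nonneg fun i _ => sq_nonneg _
  have e1 : s * N = (m : ℝ) ^ 3 * ∑ p ∈ (Finset.univ : Finset Λ) ×ˢ A,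
      (c p.2 p.1 * X p.1) * (D p.2 * ind (M p.2 p.1)) := by
    rw [Finset.sum_product_right, Finset.mul_sum, hs, Finset.sum_mul]
    refine Finset.sum_congr rfl fun i hi => ?_
    have h2 : D i * N = ∑ w, c i w * ((m : ℝ) ^ 3 * ind (M i w)) := by
      simp only [hD, Av]
      exact div_mul_cancel₀ _ hNpos.ne'
    calc D i ^ 2 * N = D i * (D i * N) := by ring
      _ = (m : ℝ) ^ 3 * ∑ w, (c i w * X w) * (D i * ind (M i w)) := by
        rw [h2, Finset.mul_sum, Finset.mul_sum]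
        refine Finset.sum_congr rfl fun w _ => ?_
        have h3 : X w * ind (M i w) = ind (M i w) := slice_bd_ind_mul fun h => ⟨i, hi, h⟩
        calc D i * (c i w * ((m : ℝ) ^ 3 * ind (M i w)))
            = (m : ℝ) ^ 3 * (c i w * (D i * ind (M i w))) := by ring
          _ = (m : ℝ) ^ 3 * (c i w * (D i * (X w * ind (M i w)))) := by rw [h3]
          _ = _ := by ring
  have cs1 := Finset.sum_mul_sq_le_sq_mul_sq ((Finset.univ : Finset Λ) ×ˢ A)
    (fun p => c p.2 p.1 * X p.1) (fun p => D p.2 * ind (M p.2 p.1))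
  have e2 : ∑ p ∈ (Finset.univ : Finset Λ) ×ˢ A, (c p.2 p.1 * X p.1) ^ 2 = ∑ w, X w * S w := by
    rw [Finset.sum_product]
    refine Finset.sum_congr rfl fun w _ => ?_
    rw [hS, Finset.mul_sum]
    refine Finset.sum_congr rfl fun i _ => ?_
    have h3 : X w ^ 2 = X w := slice_bd_ind_sq _
    rw [mul_pow, h3]
    ring
  have e3 : ∑ p ∈ (Finset.univ : Finset Λ) ×ˢ A, (D p.2 * ind (M p.2 p.1)) ^ 2 =
      N * (1 / (m : ℝ)) ^ 4 * s := by
    rw [Finset.sum_product_right, hs, Finset.mul_sum]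
    refine Finset.sum_congr rfl fun i _ => ?_
    have h4 : ∑ w, ind (M i w) = N * (1 / (m : ℝ)) ^ 4 := by
      rw [← h1 i]
      simp only [Pr, Av]
      rw [← hN]
      field_simp
    calc ∑ w, (D i * ind (M i w)) ^ 2 = ∑ w, D i ^ 2 * ind (M i w) := by
          refine Finset.sum_congr rfl fun w _ => ?_
          rw [mul_pow, slice_bd_ind_sq]
      _ = N * (1 / (m : ℝ)) ^ 4 * D i ^ 2 := by
          rw [← Finset.mul_sum, h4]
          ring
  rw [e2, e3] at cs1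
  have hX0 : ∀ w, 0 ≤ X w := by
    intro w
    simp only [hX]
    unfold ind
    split_ifs <;> norm_num
  have hS0 : ∀ w, 0 ≤ S w := fun w => Finset.sum_nonneg fun i _ => sq_nonneg _
  have hXS0 : 0 ≤ ∑ w, X w * S w := Finset.sum_nonneg fun w _ => mul_nonneg (hX0 w) (hS0 w)
  have h5 : (s * N) ^ 2 ≤ (m : ℝ) ^ 2 * (∑ w, X w * S w) * (s * N) := by
    rw [e1, mul_pow]
    calc ((m : ℝ) ^ 3) ^ 2 * (∑ p ∈ (Finset.univ : Finset Λ) ×ˢ A,
          (c p.2 p.1 * X p.1) * (D p.2 * ind (M p.2 p.1))) ^ 2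
        ≤ ((m : ℝ) ^ 3) ^ 2 * ((∑ w, X w * S w) * (N * (1 / (m : ℝ)) ^ 4 * s)) :=
          mul_le_mul_of_nonneg_left cs1 (by positivity)
      _ = (m : ℝ) ^ 2 * (∑ w, X w * S w) * (s * N) := by
          field_simp
      _ = _ := by rw [e1]
  have h6 : s * N ≤ (m : ℝ) ^ 2 * (∑ w, X w * S w) := by
    rcases eq_or_lt_of_le hs0 with h0 | h0
    · rw [← h0, zero_mul]
      positivity
    · have h7 : 0 < s * N := mul_pos h0 hNpos
      rw [sq] at h5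
      exact le_of_mul_le_mul_right h5 h7
  have cs2 := Finset.sum_mul_sq_le_sq_mul_sq (Finset.univ : Finset Λ) X S
  have h8 : (s * N) ^ 2 ≤ (m : ℝ) ^ 4 * ((∑ w, X w) * ∑ w, S w ^ 2) := by
    calc (s * N) ^ 2 ≤ ((m : ℝ) ^ 2 * (∑ w, X w * S w)) ^ 2 :=
          pow_le_pow_left₀ (by positivity) h6 2
      _ = (m : ℝ) ^ 4 * (∑ w, X w * S w) ^ 2 := by ring
      _ ≤ (m : ℝ) ^ 4 * ((∑ w, X w ^ 2) * ∑ w, S w ^ 2) :=
          mul_le_mul_of_nonneg_left cs2 (by positivity)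
      _ = _ := by
          have h9 : ∀ w, X w ^ 2 = X w := fun w => slice_bd_ind_sq _
          simp only [h9]
  have h10 : (m : ℝ) ^ 4 * Pr (fun w => ∃ i ∈ A, M i w) * Av (fun w => S w ^ 2) =
      (m : ℝ) ^ 4 * ((∑ w, X w) * ∑ w, S w ^ 2) / N ^ 2 := by
    simp only [Pr, Av]
    rw [← hN]
    change (m : ℝ) ^ 4 * ((∑ w, X w) / N) * ((∑ w, S w ^ 2) / N) = _
    field_simp
  rw [h10, le_div_iff₀ (by positivity)]
  calc s ^ 2 * N ^ 2 = (s * N) ^ 2 := by ring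
    _ ≤ _ := h8

end

end Pool.EQ
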