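import Pool.Agent.Helper364.EQ.Defs
import Pool.Agent.Helper364.EQ.P_NT_eq
import Pool.Agent.Helper364.EQ.P_NT_basic
import Pool.Agent.Helper364.EQ.P_Bessel
import Pool.Agent.Helper364.EQ.P_slice_bd
set_option autoImplicit false
set_option linter.unusedVariables false

open Finset
open scoped ENNReal

namespace Pool.EQ

noncomputable section







--#TARGET: prove this one (put helper lemmas between this line and the target, prefix their names with `Pi_bd_`)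

theorem Pi_bd_mono {Ω : Type} [Fintype Ω] {F G : Ω → ℝ} (h : ∀ w, F w ≤ G w) : Av F ≤ Av G := by
  unfold Av
  exact div_le_div_of_nonneg_right (Finset.sum_le_sum fun w _ => h w) (Nat.cast_nonneg _)

theorem Pi_bd_nonneg {Ω : Type} [Fintype Ω] {F : Ω → ℝ} (h : ∀ w, 0 ≤ F w) : 0 ≤ Av F := by
  unfold Av
  exact div_nonneg (Finset.sum_nonneg fun w _ => h w) (Nat.cast_nonneg _)

theorem Pi_bd_prod {Ω Ω' : Type} [Fintype Ω] [Fintype Ω'] (G : Ω × Ω' → ℝ) :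
    Av G = Av (fun w => Av (fun e => G (w, e))) := by
  unfold Av
  rw [Fintype.sum_prod_type, Fintype.card_prod, ← Finset.sum_div, div_div]
  push_cast
  rw [mul_comm (Fintype.card Ω' : ℝ)]

theorem Pi_bd_mul_right {Ω : Type} [Fintype Ω] (F : Ω → ℝ) (c : ℝ) :
    Av (fun w => F w * c) = Av F * c := by
  unfold Av
  rw [← Finset.sum_mul]
  ring

theorem Pi_bd_mul_left {Ω : Type} [Fintype Ω] (F : Ω → ℝ) (c : ℝ) :
    Av (fun w => c * F w) = c * Av F := by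
  unfold Av
  rw [← Finset.mul_sum]
  ring

theorem Pi_bd_sum {Ω ι : Type} [Fintype Ω] (s : Finset ι) (F : ι → Ω → ℝ) :
    Av (fun w => ∑ a ∈ s, F a w) = ∑ a ∈ s, Av (F a) := by
  unfold Av
  rw [Finset.sum_comm, Finset.sum_div]

theorem Pi_bd_PiM {n : ℕ} (m : ℕ) {Λ : Type} [Fintype Λ] (M : Idx n → Λ → Prop)
    (F : Λ × (Idx n → Bool) → ℝ) (i : Idx n) :
    PiM m M F i = Av (fun w => Av (fun ε : Idx n → Bool => F (w, ε) * sg (ε i)) *
      ((m : ℝ) ^ 3 * ind (M i w))) := by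
  unfold PiM
  rw [Pi_bd_prod]
  congr 1
  funext w
  rw [← Pi_bd_mul_right]
  congr 1
  funext e
  ring

/-- HINT: `c_i(w) = Av_ε (F (w,ε) sg (ε i))`, `PiM F i = Av_w [c_i m³ 1_{M i}]` (Fubini for `Av`). By `slice_bd` and
`h.uni`: `(Sl T (PiM F)² a)² ≤ m⁴ m^{-u T} Av_w (Sl T c(w)² a)²`; sum over `a` with weight `n^{-|T|}` (`NT_eq`):
`NT T (PiM F)² ≤ m⁴ m^{-u T} Av_w NT T (c(w)²) ≤ m⁴ m^{-u T} Av_w (∑ c_i²)² ≤ m⁴ m^{-u T} Av F⁴` (`NT_basic`, `Bessel`). -/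
theorem Pi_bd {n m : ℕ} (hn : 1 ≤ n) (hm : 1 ≤ m) {Λ : Type} [Fintype Λ] [Nonempty Λ] {M : Idx n → Λ → Prop}
    {d u : Finset (Fin 4) → ℕ} (h : Good n m Λ M 4 d u) (F : Λ × (Idx n → Bool) → ℝ) (T : Finset (Fin 4)) :
    NT T (fun i => (PiM m M F i) ^ 2) ≤ (m : ℝ) ^ 4 * (1 / (m : ℝ)) ^ (u T) * Av (fun z => F z ^ 4) := by
  set c : Idx n → Λ → ℝ := fun i w => Av (fun ε : Idx n → Bool => F (w, ε) * sg (ε i)) with hc
  have hP : ∀ i, PiM m M F i = Av (fun w => c i w * ((m : ℝ) ^ 3 * ind (M i w))) :=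
    fun i => Pi_bd_PiM m M F i
  have hK : (0 : ℝ) ≤ (m : ℝ) ^ 4 * (1 / (m : ℝ)) ^ (u T) := by positivity
  have hN : (0 : ℝ) ≤ (1 / (n : ℝ)) ^ T.card := by positivity
  have h1 : ∀ a : Idx n, (Sl T (fun i => (PiM m M F i) ^ 2) a) ^ 2 ≤
      (m : ℝ) ^ 4 * (1 / (m : ℝ)) ^ (u T) * Av (fun w => (Sl T (fun i => (c i w) ^ 2) a) ^ 2) := by
    intro a
    have hb := slice_bd hm h.one (slc T a) c
    have hA : 0 ≤ Av (fun w => (∑ i ∈ slc T a, (c i w) ^ 2) ^ 2) :=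
      Pi_bd_nonneg fun w => sq_nonneg _
    have hu := h.uni T a
    unfold Sl
    simp only [hP]
    refine hb.trans ?_
    exact mul_le_mul_of_nonneg_right (mul_le_mul_of_nonneg_left hu (by positivity)) hA
  rw [NT_eq hn]
  calc (1 / (n : ℝ)) ^ T.card * ∑ a : Idx n, (Sl T (fun i => (PiM m M F i) ^ 2) a) ^ 2
      ≤ (1 / (n : ℝ)) ^ T.card * ∑ a : Idx n, ((m : ℝ) ^ 4 * (1 / (m : ℝ)) ^ (u T) *
          Av (fun w => (Sl T (fun i => (c i w) ^ 2) a) ^ 2)) :=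
        mul_le_mul_of_nonneg_left (Finset.sum_le_sum fun a _ => h1 a) hN
    _ = (m : ℝ) ^ 4 * (1 / (m : ℝ)) ^ (u T) *
          Av (fun w => (1 / (n : ℝ)) ^ T.card * ∑ a : Idx n, (Sl T (fun i => (c i w) ^ 2) a) ^ 2) := by
        rw [Pi_bd_mul_left, Pi_bd_sum, ← Finset.mul_sum]
        ring
    _ = (m : ℝ) ^ 4 * (1 / (m : ℝ)) ^ (u T) * Av (fun w => NT T (fun i => (c i w) ^ 2)) := by
        congr 2
        funext w
        rw [NT_eq hn]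
    _ ≤ (m : ℝ) ^ 4 * (1 / (m : ℝ)) ^ (u T) * Av (fun w => (∑ i, (c i w) ^ 2) ^ 2) :=
        mul_le_mul_of_nonneg_left (Pi_bd_mono fun w =>
          (NT_basic T (fun i => (c i w) ^ 2) (fun i => sq_nonneg _)).2.2.2.2.2.2) hK
    _ ≤ (m : ℝ) ^ 4 * (1 / (m : ℝ)) ^ (u T) *
          Av (fun w => Av (fun ε : Idx n → Bool => F (w, ε) ^ 4)) :=
        mul_le_mul_of_nonneg_left (Pi_bd_mono fun w => Bessel (fun ε => F (w, ε))) hK
    _ = (m : ℝ) ^ 4 * (1 / (m : ℝ)) ^ (u T) * Av (fun z => F z ^ 4) := by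
        rw [Pi_bd_prod (fun z : Λ × (Idx n → Bool) => F z ^ 4)]

end

end Pool.EQ
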