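import Pool.Agent.Helper364.EQ.Defs
set_option autoImplicit false
set_option linter.unusedVariables false

open Finset
open scoped ENNReal

namespace Pool.EQ

noncomputable section


--#TARGET: prove this one (put helper lemmas between this line and the target, prefix their names with `Good_prod_`)

theorem Good_prod_ind (P Q : Prop) : ind (P ∧ Q) = ind P * ind Q := by
  unfold ind
  by_cases h1 : P <;> by_cases h2 : Q <;> simp [h1, h2]

theorem Good_prod_ind_nonneg (P : Prop) : 0 ≤ ind P := by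
  unfold ind
  split_ifs <;> norm_num

theorem Good_prod_ind_mono {P Q : Prop} (h : P → Q) : ind P ≤ ind Q := by
  unfold ind
  by_cases h1 : P
  · rw [if_pos h1, if_pos (h h1)]
  · rw [if_neg h1]
    split_ifs <;> norm_num

theorem Good_prod_pr {Λ₁ Λ₂ : Type} [Fintype Λ₁] [Fintype Λ₂] (A : Λ₁ → Prop) (B : Λ₂ → Prop) :
    Pr (fun w : Λ₁ × Λ₂ => A w.1 ∧ B w.2) = Pr A * Pr B := by
  unfold Pr Av
  rw [Fintype.card_prod, Nat.cast_mul, Fintype.sum_prod_type]
  simp only [Good_prod_ind]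
  rw [div_mul_div_comm, Finset.sum_mul_sum]

theorem Good_prod_pr_nonneg {Λ : Type} [Fintype Λ] (A : Λ → Prop) : 0 ≤ Pr A := by
  unfold Pr Av
  exact div_nonneg (Finset.sum_nonneg fun w _ => Good_prod_ind_nonneg _) (Nat.cast_nonneg _)

theorem Good_prod_pr_mono {Λ : Type} [Fintype Λ] {A B : Λ → Prop} (h : ∀ w, A w → B w) :
    Pr A ≤ Pr B := by
  unfold Pr Av
  exact div_le_div_of_nonneg_right (Finset.sum_le_sum fun w _ => Good_prod_ind_mono (h w))
    (Nat.cast_nonneg _)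

/-- HINT: `Pr` on a product of events is the product (`Av` over a product type of a product function); the union event
of the product is contained in the product of the union events. -/
theorem Good_prod {n m : ℕ} {Λ₁ Λ₂ : Type} [Fintype Λ₁] [Fintype Λ₂] {M₁ : Idx n → Λ₁ → Prop}
    {M₂ : Idx n → Λ₂ → Prop} {p₁ p₂ : ℕ} {d₁ d₂ u₁ u₂ : Finset (Fin 4) → ℕ}
    (h₁ : Good n m Λ₁ M₁ p₁ d₁ u₁) (h₂ : Good n m Λ₂ M₂ p₂ d₂ u₂) :
    Good n m (Λ₁ × Λ₂) (fun i w => M₁ i w.1 ∧ M₂ i w.2) (p₁ + p₂) (fun T => d₁ T + d₂ T)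
      (fun T => u₁ T + u₂ T) := by
  have hm : (0:ℝ) ≤ 1 / (m : ℝ) := by positivity
  refine ⟨fun i => ?_, fun i i' => ?_, fun T a => ?_⟩
  · rw [Good_prod_pr, h₁.one, h₂.one, pow_add]
  · have h3 : (fun w : Λ₁ × Λ₂ => (M₁ i w.1 ∧ M₂ i w.2) ∧ (M₁ i' w.1 ∧ M₂ i' w.2)) =
        (fun w : Λ₁ × Λ₂ => (M₁ i w.1 ∧ M₁ i' w.1) ∧ (M₂ i w.2 ∧ M₂ i' w.2)) := by
      funext w
      apply propext
      tauto
    have h4 := Good_prod_pr (fun w => M₁ i w ∧ M₁ i' w) (fun w => M₂ i w ∧ M₂ i' w)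
    rw [h3]
    refine (le_of_eq h4).trans ?_
    have h5 : p₁ + p₂ + (d₁ (univ.filter fun l => i l ≠ i' l) +
        d₂ (univ.filter fun l => i l ≠ i' l)) =
        (p₁ + d₁ (univ.filter fun l => i l ≠ i' l)) +
        (p₂ + d₂ (univ.filter fun l => i l ≠ i' l)) := by ring
    rw [h5, pow_add]
    exact mul_le_mul (h₁.two i i') (h₂.two i i') (Good_prod_pr_nonneg _) (by positivity)
  · have h4 := Good_prod_pr (fun w => ∃ i ∈ slc T a, M₁ i w) (fun w => ∃ i ∈ slc T a, M₂ i w)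
    rw [pow_add]
    refine le_trans (Good_prod_pr_mono (B := fun w : Λ₁ × Λ₂ =>
      (∃ i ∈ slc T a, M₁ i w.1) ∧ (∃ i ∈ slc T a, M₂ i w.2)) ?_) ?_
    · rintro w ⟨i, hi, h5, h6⟩
      exact ⟨⟨i, hi, h5⟩, ⟨i, hi, h6⟩⟩
    · refine (le_of_eq h4).trans ?_
      exact mul_le_mul (h₁.uni T a) (h₂.uni T a) (Good_prod_pr_nonneg _) (by positivity)

end

end Pool.EQ
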