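import Pool.Agent.Helper364.EQ.Defs
set_option autoImplicit false
set_option linter.unusedVariables false

open Finset
open scoped ENNReal

namespace Pool.EQ

noncomputable section


--#TARGET: prove this one (put helper lemmas between this line and the target, prefix their names with `zero_count_`)

/-- HINT: the functions vanishing on `S` are in bijection with the functions on the complement; or write the sum over
`J → Fin m` of a product as a product of sums (`Finset.prod_univ_sum`, `Fintype.piFinset`). -/
theorem zero_count {J : Type} [Fintype J] [DecidableEq J] (m : ℕ) [NeZero m] (S : Finset J) :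
    Pr (fun w : J → Fin m => ∀ x ∈ S, w x = 0) = (1 / (m : ℝ)) ^ S.card := by
  classical
  have hm : (m : ℝ) ≠ 0 := by exact_mod_cast NeZero.ne m
  unfold Pr Av
  have h1 : ∀ w : J → Fin m, ind (∀ x ∈ S, w x = 0) =
      ∏ x : J, (if x ∈ S then (if w x = 0 then (1 : ℝ) else 0) else 1) := by
    intro w
    unfold ind
    split_ifs with h
    · symm
      refine Finset.prod_eq_one fun x _ => ?_
      by_cases hx : x ∈ S
      · rw [if_pos hx, if_pos (h x hx)]
      · rw [if_neg hx]
    · push Not at h
      obtain ⟨x, hx, hx0⟩ := h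
      symm
      refine Finset.prod_eq_zero (Finset.mem_univ x) ?_
      rw [if_pos hx, if_neg hx0]
  have h2 : ∑ w : J → Fin m, ∏ x : J, (if x ∈ S then (if w x = 0 then (1 : ℝ) else 0) else 1) =
      ∏ x : J, ∑ a : Fin m, (if x ∈ S then (if a = 0 then (1 : ℝ) else 0) else 1) := by
    rw [Finset.prod_univ_sum]
    rw [Fintype.piFinset_univ]
  have h3 : ∀ x : J, ∑ a : Fin m, (if x ∈ S then (if a = 0 then (1 : ℝ) else 0) else 1) =
      if x ∈ S then 1 else (m : ℝ) := by
    intro x
    by_cases hx : x ∈ S
    · simp [hx]
    · simp [hx]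
  have h4 : (Fintype.card (J → Fin m) : ℝ) = ∏ _x : J, (m : ℝ) := by
    rw [Fintype.card_fun, Fintype.card_fin, Finset.prod_const, Finset.card_univ]
    push_cast
    rfl
  have h5 : ∑ w : J → Fin m, ind (∀ x ∈ S, w x = 0) = ∏ x : J, (if x ∈ S then 1 else (m : ℝ)) := by
    rw [Finset.sum_congr rfl fun w _ => h1 w, h2]
    exact Finset.prod_congr rfl fun x _ => h3 x
  rw [h5, h4, ← Finset.prod_div_distrib]
  have h6 : ∀ x : J, (if x ∈ S then 1 else (m : ℝ)) / m = if x ∈ S then 1 / (m : ℝ) else 1 := by
    intro x
    split_ifs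
    · rfl
    · exact div_self hm
  rw [Finset.prod_congr rfl fun x _ => h6 x, Finset.prod_ite_mem, Finset.univ_inter,
    Finset.prod_const]

end

end Pool.EQ
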