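import Pool.Agent.Helper364.EQ.Defs
import Pool.Agent.Helper364.EQ.P_zero_count
set_option autoImplicit false
set_option linter.unusedVariables false

open Finset
open scoped ENNReal

namespace Pool.EQ

noncomputable section




--#TARGET: prove this one (put helper lemmas between this line and the target, prefix their names with `coinAll_`)

theorem coinAll_congr {Ω : Type} [Fintype Ω] {E F : Ω → Prop} (h : ∀ w, E w ↔ F w) :
    Pr E = Pr F := by
  have : E = F := funext (fun w => propext (h w))
  rw [this]

theorem coinAll_le_one {Ω : Type} [Fintype Ω] (E : Ω → Prop) : Pr E ≤ 1 := by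
  unfold Pr Av
  refine div_le_one_of_le₀ ?_ (Nat.cast_nonneg _)
  calc ∑ w, ind (E w) ≤ ∑ _w : Ω, (1:ℝ) := by
        refine Finset.sum_le_sum (fun w _ => ?_)
        unfold ind
        split_ifs <;> norm_num
    _ = (Fintype.card Ω : ℝ) := by simp

theorem coinAll_one (n m : ℕ) [NeZero m] (i : Idx n) :
    Pr (fun w : Idx n → Fin m => w i = 0) = (1 / (m : ℝ)) ^ 1 := by
  have h := zero_count (J := Idx n) m {i}
  rw [Finset.card_singleton] at h
  rw [← h]
  exact coinAll_congr (fun w => by simp)

/-- HINT: `zero_count` with `J = Idx n`, `S = {i}` or `{i, i'}`; a slice in direction `∅` is a single point. -/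
theorem coinAll (n m : ℕ) [NeZero m] :
    Good n m (Idx n → Fin m) (fun i w => w i = 0) 1 (fun D => if D.card = 0 then 0 else 1)
      (fun T => if T.card = 0 then 1 else 0) := by
  refine ⟨fun i => coinAll_one n m i, fun i i' => ?_, fun T a => ?_⟩
  · by_cases hii : i = i'
    · subst hii
      have hD : (univ.filter fun l => i l ≠ i l).card = 0 := by simp
      simp only [hD, if_true, add_zero]
      rw [← coinAll_one n m i]
      exact le_of_eq (coinAll_congr (fun w => and_self_iff))
    · have hD : (univ.filter fun l => i l ≠ i' l).card ≠ 0 := by
        intro h0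
        apply hii
        funext l
        by_contra hl
        rw [Finset.card_eq_zero] at h0
        have : l ∈ (univ.filter fun l => i l ≠ i' l) := by simp [hl]
        rw [h0] at this
        simp at this
      simp only [hD, if_false]
      have h := zero_count (J := Idx n) m {i, i'}
      rw [Finset.card_pair hii] at h
      rw [show (1 + 1) = 2 from rfl, ← h]
      exact le_of_eq (coinAll_congr (fun w => by simp))
  · by_cases hT : T.card = 0
    · simp only [hT, if_true]
      rw [← coinAll_one n m a]
      refine le_of_eq (coinAll_congr (fun w => ?_))
      rw [Finset.card_eq_zero] at hT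
      subst hT
      constructor
      · rintro ⟨i, hi, hw⟩
        have : i = a := by
          funext l
          exact (Finset.mem_filter.1 hi).2 l (by simp)
        rw [← this]; exact hw
      · intro hw
        exact ⟨a, Finset.mem_filter.2 ⟨Finset.mem_univ _, fun l _ => rfl⟩, hw⟩
    · simp only [hT, if_false, pow_zero]
      exact coinAll_le_one _

end

end Pool.EQ
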