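import Pool.Agent.Helper364.EQ.Defs
set_option autoImplicit false
set_option linter.unusedVariables false

open Finset
open scoped ENNReal

namespace Pool.EQ

noncomputable section


--#TARGET: prove this one (put helper lemmas between this line and the target, prefix their names with `eq_count_`)

theorem eq_count_fix {J : Type} [Fintype J] [DecidableEq J] (m : ℕ) [NeZero m] (A : Finset J)
    (f : J → Fin m) :
    Av (fun w : J → Fin m => ind (∀ x ∈ A, w x = f x)) = (1 / (m : ℝ)) ^ A.card := by
  classical
  have hm : (m : ℝ) ≠ 0 := Nat.cast_ne_zero.mpr (NeZero.ne m)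
  unfold Av ind
  have h1 : ∑ w : J → Fin m, (if (∀ x ∈ A, w x = f x) then (1 : ℝ) else 0) =
      (m : ℝ) ^ (Aᶜ).card := by
    rw [Finset.sum_boole]
    have h2 : (univ.filter (fun w : J → Fin m => ∀ x ∈ A, w x = f x)) =
        Fintype.piFinset (fun x => if x ∈ A then ({f x} : Finset (Fin m)) else univ) := by
      ext w
      simp only [Finset.mem_filter, Finset.mem_univ, true_and, Fintype.mem_piFinset]
      constructor
      · intro h x
        by_cases hx : x ∈ A
        · simp [hx, h x hx]
        · simp [hx]
      · intro h x hx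
        have := h x
        simpa [hx] using this
    have h3 : (univ.filter (fun w : J → Fin m => ∀ x ∈ A, w x = f x)).card = m ^ (Aᶜ).card := by
      rw [h2, Fintype.card_piFinset]
      have h4 : ∀ x, (if x ∈ A then ({f x} : Finset (Fin m)) else univ).card =
          if x ∈ Aᶜ then m else 1 := by
        intro x
        by_cases hx : x ∈ A
        · simp [hx]
        · simp [hx]
      rw [Finset.prod_congr rfl (fun x _ => h4 x), Finset.prod_ite_mem, Finset.univ_inter,
        Finset.prod_const]
    exact_mod_cast congrArg (Nat.cast (R := ℝ)) h3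
  have h5 : (∑ w : J → Fin m, (if (∀ x ∈ A, w x = f x) then (1 : ℝ) else 0)) /
      (Fintype.card (J → Fin m) : ℝ) = (1 / (m : ℝ)) ^ A.card := by
    rw [h1, Fintype.card_fun, Fintype.card_fin, ← Finset.card_add_card_compl A]
    push_cast
    rw [pow_add, one_div, inv_pow]
    field_simp
  convert h5 using 3
  beta_reduce
  congr

theorem eq_count_av_sum {Ω K : Type} [Fintype Ω] (s : Finset K) (F : K → Ω → ℝ) :
    Av (fun w => ∑ c ∈ s, F c w) = ∑ c ∈ s, Av (F c) := by
  unfold Av
  rw [Finset.sum_comm, Finset.sum_div]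

theorem eq_count_ind {J : Type} [Fintype J] [DecidableEq J] (m : ℕ) [NeZero m] (S : Finset J)
    (hS : S.Nonempty) (w : J → Fin m) :
    ind (∀ x ∈ S, ∀ y ∈ S, w x = w y) = ∑ c : Fin m, ind (∀ x ∈ S, w x = c) := by
  classical
  obtain ⟨a, ha⟩ := hS
  rw [Finset.sum_eq_single (w a)]
  · congr 1
    apply propext
    constructor
    · intro h x hx
      exact h x hx a ha
    · intro h x hx y hy
      rw [h x hx, h y hy]
  · intro c _ hc
    unfold ind
    rw [if_neg]
    intro h
    exact hc (h a ha).symm
  · intro h
    exact absurd (Finset.mem_univ _) h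

theorem eq_count_and (P Q : Prop) : ind (P ∧ Q) = ind P * ind Q := by
  unfold ind
  by_cases hP : P <;> by_cases hQ : Q <;> simp [hP, hQ]

/-- HINT: condition on the common value: the event is the disjoint union over `c : Fin m` of `∀ x ∈ S, w x = c`, each of
probability `m^{-|S|}` (as in `zero_count`); the two-set version: disjoint union over `c, c'`. -/
theorem eq_count {J : Type} [Fintype J] [DecidableEq J] (m : ℕ) [NeZero m] (S S' : Finset J)
    (hS : S.Nonempty) (hS' : S'.Nonempty) (hd : Disjoint S S') :
    Pr (fun w : J → Fin m => ∀ x ∈ S, ∀ y ∈ S, w x = w y) = (1 / (m : ℝ)) ^ (S.card - 1) ∧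
    Pr (fun w : J → Fin m => (∀ x ∈ S, ∀ y ∈ S, w x = w y) ∧ (∀ x ∈ S', ∀ y ∈ S', w x = w y)) =
      (1 / (m : ℝ)) ^ (S.card - 1 + (S'.card - 1)) := by
  classical
  have hm : (m : ℝ) ≠ 0 := Nat.cast_ne_zero.mpr (NeZero.ne m)
  have hp : ∀ A : Finset J, A.Nonempty →
      (m : ℝ) * (1 / (m : ℝ)) ^ A.card = (1 / (m : ℝ)) ^ (A.card - 1) := by
    intro A hA
    have h1 : A.card = (A.card - 1) + 1 := by
      have := Finset.card_pos.mpr hA
      omega
    conv_lhs => rw [h1, pow_succ]
    field_simp
  constructor
  · unfold Pr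
    have h1 : (fun w : J → Fin m => ind (∀ x ∈ S, ∀ y ∈ S, w x = w y)) =
        fun w => ∑ c : Fin m, ind (∀ x ∈ S, w x = c) := by
      funext w
      exact eq_count_ind m S hS w
    rw [h1, eq_count_av_sum (univ : Finset (Fin m)) (fun (c : Fin m) (w : J → Fin m) =>
      ind (∀ x ∈ S, w x = c))]
    rw [Finset.sum_congr rfl (fun c _ => eq_count_fix m S (fun _ => c))]
    rw [Finset.sum_const, Finset.card_univ, Fintype.card_fin, nsmul_eq_mul]
    exact hp S hS
  · unfold Pr
    have h1 : (fun w : J → Fin m => ind ((∀ x ∈ S, ∀ y ∈ S, w x = w y) ∧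
        (∀ x ∈ S', ∀ y ∈ S', w x = w y))) =
        fun w => ∑ z : Fin m × Fin m, ind (∀ x ∈ S ∪ S', w x = if x ∈ S then z.1 else z.2) := by
      funext w
      rw [eq_count_and, eq_count_ind m S hS w, eq_count_ind m S' hS' w,
        Fintype.sum_mul_sum, Fintype.sum_prod_type]
      refine Finset.sum_congr rfl (fun c _ => Finset.sum_congr rfl (fun c' _ => ?_))
      rw [← eq_count_and]
      congr 1
      apply propext
      constructor
      · rintro ⟨h1, h2⟩ x hx
        by_cases hxS : x ∈ S
        · simp [hxS, h1 x hxS]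
        · rcases Finset.mem_union.mp hx with h | h
          · exact absurd h hxS
          · simp [hxS, h2 x h]
      · intro h
        refine ⟨fun x hx => ?_, fun x hx => ?_⟩
        · have := h x (Finset.mem_union_left _ hx)
          simpa [hx] using this
        · have h3 : x ∉ S := fun h4 => Finset.disjoint_left.mp hd h4 hx
          have := h x (Finset.mem_union_right _ hx)
          simpa [h3] using this
    rw [h1, eq_count_av_sum (univ : Finset (Fin m × Fin m)) (fun (z : Fin m × Fin m)
      (w : J → Fin m) => ind (∀ x ∈ S ∪ S', w x = if x ∈ S then z.1 else z.2))]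
    rw [Finset.sum_congr rfl (fun z _ => eq_count_fix m (S ∪ S')
      (fun x => if x ∈ S then z.1 else z.2))]
    rw [Finset.sum_const, Finset.card_univ, Fintype.card_prod, Fintype.card_fin, nsmul_eq_mul,
      Finset.card_union_of_disjoint hd, pow_add, pow_add, ← hp S hS, ← hp S' hS']
    push_cast
    ring

end

end Pool.EQ
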