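import Pool.Agent.Helper364.EQ.Defs
import Pool.Agent.Helper364.EQ.P_eq_count
set_option autoImplicit false
set_option linter.unusedVariables false

open Finset
open scoped ENNReal

namespace Pool.EQ

noncomputable section




--#TARGET: prove this one (put helper lemmas between this line and the target, prefix their names with `eq4_`)

theorem eq4_mono {Ω : Type} [Fintype Ω] (E E' : Ω → Prop) (h : ∀ w, E w → E' w) :
    Pr E ≤ Pr E' := by
  classical
  unfold Pr Av
  apply div_le_div_of_nonneg_right _ (Nat.cast_nonneg _)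
  refine Finset.sum_le_sum fun w _ => ?_
  unfold ind
  by_cases h1 : E w
  · rw [if_pos h1, if_pos (h w h1)]
  · rw [if_neg h1]
    split_ifs <;> norm_num

theorem eq4_le_one {Ω : Type} [Fintype Ω] (E : Ω → Prop) : Pr E ≤ 1 := by
  classical
  unfold Pr Av
  apply div_le_one_of_le₀ _ (Nat.cast_nonneg _)
  calc ∑ w, ind (E w) ≤ ∑ _w : Ω, (1 : ℝ) := by
        refine Finset.sum_le_sum fun w _ => ?_
        unfold ind
        split_ifs <;> norm_num
    _ = (Fintype.card Ω : ℝ) := by simp

theorem eq4_Pr {Ω : Type} [Fintype Ω] (E : Ω → Prop) :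
    Pr E = (Nat.card {w // E w} : ℝ) / (Fintype.card Ω : ℝ) := by
  classical
  unfold Pr Av
  congr 1
  rw [Nat.card_eq_fintype_card, Fintype.card_subtype]
  unfold ind
  rw [Finset.sum_boole]

/-- functions that are constant on `S` -/
def eq4_equiv {J : Type} [DecidableEq J] (m : ℕ) (S : Finset J) (x0 : J) (hx0 : x0 ∈ S) :
    {w : J → Fin m // ∀ x ∈ S, ∀ y ∈ S, w x = w y} ≃
      ({x : J // x ∉ S ∨ x = x0} → Fin m) where
  toFun w z := w.1 z.1
  invFun v := ⟨fun x => if h : x ∉ S ∨ x = x0 then v ⟨x, h⟩ else v ⟨x0, Or.inr rfl⟩, by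
    have key : ∀ x ∈ S, (if h : x ∉ S ∨ x = x0 then v ⟨x, h⟩ else v ⟨x0, Or.inr rfl⟩) =
        v ⟨x0, Or.inr rfl⟩ := by
      intro x hx
      split_ifs with h
      · rcases h with h | h
        · exact absurd hx h
        · subst h; rfl
      · rfl
    intro x hx y hy
    exact (key x hx).trans (key y hy).symm⟩
  left_inv w := by
    apply Subtype.ext
    funext x
    dsimp only
    split_ifs with h
    · rfl
    · push Not at h
      exact w.2 x0 hx0 x h.1
  right_inv v := by
    funext z
    dsimp only
    rw [dif_pos z.2]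

theorem eq4_count {J : Type} [Fintype J] [DecidableEq J] (m : ℕ) [NeZero m] (S : Finset J)
    (hS : S.Nonempty) :
    Pr (fun w : J → Fin m => ∀ x ∈ S, ∀ y ∈ S, w x = w y) = (1 / (m : ℝ)) ^ (S.card - 1) := by
  classical
  obtain ⟨x0, hx0⟩ := hS
  have hm : (m : ℝ) ≠ 0 := Nat.cast_ne_zero.2 (NeZero.ne m)
  rw [eq4_Pr, Nat.card_congr (eq4_equiv m S x0 hx0), Nat.card_eq_fintype_card,
    Fintype.card_fun, Fintype.card_fun, Fintype.card_fin]
  have h1 : Fintype.card {x : J // x ∉ S ∨ x = x0} + (S.card - 1) = Fintype.card J := by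
    rw [Fintype.card_subtype]
    have h2 : (univ.filter fun x : J => x ∉ S ∨ x = x0) = insert x0 Sᶜ := by
      ext x
      simp only [Finset.mem_filter, Finset.mem_univ, true_and, Finset.mem_insert,
        Finset.mem_compl]
      tauto
    rw [h2, Finset.card_insert_of_notMem (by simpa using hx0), Finset.card_compl]
    have h3 : 0 < S.card := Finset.card_pos.2 ⟨x0, hx0⟩
    have h4 : S.card ≤ Fintype.card J := Finset.card_le_univ S
    omega
  rw [← h1, pow_add]
  push_cast
  rw [one_div, inv_pow]
  field_simp

/-- the sites of an index -/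
def eq4_S {n : ℕ} (i : Idx n) : Finset (Fin 4 × Fin n) := univ.image (fun l => (l, i l))

theorem eq4_S_card {n : ℕ} (i : Idx n) : (eq4_S i).card = 4 := by
  unfold eq4_S
  rw [Finset.card_image_of_injective _ (fun l l' h => (Prod.mk.injEq _ _ _ _ ▸ h).1),
    Finset.card_univ, Fintype.card_fin]

theorem eq4_S_iff {n m : ℕ} (i : Idx n) (w : Fin 4 × Fin n → Fin m) :
    (∀ l l', w (l, i l) = w (l', i l')) ↔ ∀ x ∈ eq4_S i, ∀ y ∈ eq4_S i, w x = w y := by
  unfold eq4_S
  constructor
  · intro h x hx y hy
    rw [Finset.mem_image] at hx hy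
    obtain ⟨l, -, rfl⟩ := hx
    obtain ⟨l', -, rfl⟩ := hy
    exact h l l'
  · intro h l l'
    exact h _ (Finset.mem_image.2 ⟨l, Finset.mem_univ _, rfl⟩) _
      (Finset.mem_image.2 ⟨l', Finset.mem_univ _, rfl⟩)

/-- HINT: `eq_count` with `J = Fin 4 × Fin n` (reindex `Fin 4 → Fin n → Fin m` or prove it directly for this type by
transport along `Equiv.curry`), `S_i = {(l, i l)}`, `|S_i| = 4`. `M i` is 'all labels on `S_i` are equal'. If `i, i'`
agree somewhere then `M i ∧ M i'` is 'all labels on `S_i ∪ S_i'` are equal', `|S_i ∪ S_i'| = 4 + |D|`; if they agree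
nowhere, `S_i, S_i'` are disjoint. The union over a slice is contained in 'all labels on `{(l, a l) : l ∉ T}` are
equal' (empty set of sites if `T = univ`: probability `≤ 1`). -/
theorem eq4 (n m : ℕ) [NeZero m] :
    Good n m (Fin 4 × Fin n → Fin m) (fun i w => ∀ l l', w (l, i l) = w (l', i l')) 3
      (fun D => min D.card 3) (fun T => 3 - T.card) := by
  have hS0 : ∀ i : Idx n, (eq4_S i).Nonempty := fun i =>
    Finset.card_pos.1 (by rw [eq4_S_card]; norm_num)
  refine ⟨fun i => ?_, fun i i' => ?_, fun T a => ?_⟩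
  · have h := eq4_count m (eq4_S i) (hS0 i)
    rw [eq4_S_card] at h
    have e : (fun w : Fin 4 × Fin n → Fin m => ∀ l l', w (l, i l) = w (l', i l')) =
        fun w => ∀ x ∈ eq4_S i, ∀ y ∈ eq4_S i, w x = w y := by
      funext w
      exact propext (eq4_S_iff i w)
    change Pr (fun w : Fin 4 × Fin n → Fin m => ∀ l l', w (l, i l) = w (l', i l')) = _
    rw [e]
    exact h
  · set D : Finset (Fin 4) := univ.filter fun l => i l ≠ i' l with hD
    change Pr (fun w : Fin 4 × Fin n → Fin m => (∀ l l', w (l, i l) = w (l', i l')) ∧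
      (∀ l l', w (l, i' l) = w (l', i' l'))) ≤ (1 / (m : ℝ)) ^ (3 + min D.card 3)
    by_cases hl : ∃ l0, i l0 = i' l0
    · obtain ⟨l0, hl0⟩ := hl
      set S : Finset (Fin 4 × Fin n) := eq4_S i ∪ D.image (fun l => (l, i' l)) with hS
      have hdisj : Disjoint (eq4_S i) (D.image (fun l => (l, i' l))) := by
        rw [Finset.disjoint_left]
        intro x hx hx'
        unfold eq4_S at hx
        rw [Finset.mem_image] at hx hx'
        obtain ⟨l, -, rfl⟩ := hx
        obtain ⟨l', hl', h'⟩ := hx'
        rw [Prod.mk.injEq] at h'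
        obtain ⟨h1, h2⟩ := h'
        subst h1
        rw [hD, Finset.mem_filter] at hl'
        exact hl'.2 h2.symm
      have hcard : S.card = 4 + D.card := by
        rw [hS, Finset.card_union_of_disjoint hdisj, eq4_S_card,
          Finset.card_image_of_injective _ (fun l l' h => (Prod.mk.injEq _ _ _ _ ▸ h).1)]
      have hD3 : D.card ≤ 3 := by
        have h1 : D ⊆ univ.erase l0 := by
          intro l hl
          rw [hD, Finset.mem_filter] at hl
          rw [Finset.mem_erase]
          refine ⟨?_, Finset.mem_univ _⟩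
          rintro rfl
          exact hl.2 hl0
        have h2 := Finset.card_le_card h1
        rw [Finset.card_erase_of_mem (Finset.mem_univ _), Finset.card_univ, Fintype.card_fin] at h2
        exact h2
      have h := eq4_count m S (Finset.card_pos.1 (by rw [hcard]; omega))
      rw [min_eq_left hD3]
      have e : 3 + D.card = S.card - 1 := by rw [hcard]; omega
      rw [e, ← h]
      apply eq4_mono
      intro w hw
      obtain ⟨h1, h2⟩ := hw
      have key : ∀ x ∈ S, w x = w (l0, i l0) := by
        intro x hx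
        rw [hS, Finset.mem_union] at hx
        rcases hx with hx | hx
        · unfold eq4_S at hx
          rw [Finset.mem_image] at hx
          obtain ⟨l, -, rfl⟩ := hx
          exact h1 l l0
        · rw [Finset.mem_image] at hx
          obtain ⟨l, -, rfl⟩ := hx
          have h3 := h2 l l0
          rw [h3, ← hl0]
      intro x hx y hy
      rw [key x hx, key y hy]
    · push Not at hl
      have hD4 : D.card = 4 := by
        rw [hD, Finset.filter_true_of_mem (fun l _ => hl l), Finset.card_univ, Fintype.card_fin]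
      have hdisj : Disjoint (eq4_S i) (eq4_S i') := by
        rw [Finset.disjoint_left]
        intro x hx hx'
        unfold eq4_S at hx hx'
        rw [Finset.mem_image] at hx hx'
        obtain ⟨l, -, rfl⟩ := hx
        obtain ⟨l', -, h'⟩ := hx'
        rw [Prod.mk.injEq] at h'
        obtain ⟨h1, h2⟩ := h'
        subst h1
        exact hl _ h2.symm
      have h := (eq_count m (eq4_S i) (eq4_S i') (hS0 i) (hS0 i') hdisj).2
      rw [eq4_S_card, eq4_S_card] at h
      rw [hD4]
      have e : 3 + min 4 3 = 4 - 1 + (4 - 1) := by norm_num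
      rw [e, ← h]
      apply eq4_mono
      intro w hw
      exact ⟨(eq4_S_iff i w).1 hw.1, (eq4_S_iff i' w).1 hw.2⟩
  · by_cases hT : T.card = 4
    · rw [hT]
      have e : (1 / (m : ℝ)) ^ (3 - 4) = 1 := by norm_num
      rw [e]
      exact eq4_le_one _
    · have hTle : T.card ≤ 4 := by
        have := Finset.card_le_univ T
        rwa [Fintype.card_fin] at this
      set S : Finset (Fin 4 × Fin n) := Tᶜ.image (fun l => (l, a l)) with hS
      have hcard : S.card = 4 - T.card := by
        rw [hS, Finset.card_image_of_injective _ (fun l l' h => (Prod.mk.injEq _ _ _ _ ▸ h).1),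
          Finset.card_compl, Fintype.card_fin]
      have h := eq4_count m S (Finset.card_pos.1 (by rw [hcard]; omega))
      have e : 3 - T.card = S.card - 1 := by rw [hcard]; omega
      rw [e, ← h]
      apply eq4_mono
      intro w hw
      obtain ⟨i, hi, hw⟩ := hw
      unfold slc at hi
      rw [Finset.mem_filter] at hi
      intro x hx y hy
      rw [hS, Finset.mem_image] at hx hy
      obtain ⟨l, hl, rfl⟩ := hx
      obtain ⟨l', hl', rfl⟩ := hy
      rw [Finset.mem_compl] at hl hl'
      have h1 := hi.2 l hl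
      have h2 := hi.2 l' hl'
      rw [← h1, ← h2]
      exact hw l l'

end

end Pool.EQ
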