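import Pool.Agent.Helper364.EQ.Defs
import Pool.Agent.Helper364.EQ.P_Good_prod
import Pool.Agent.Helper364.EQ.P_coinAll
import Pool.Agent.Helper364.EQ.P_eq4
set_option autoImplicit false
set_option linter.unusedVariables false

open Finset
open scoped ENNReal

namespace Pool.EQ

noncomputable section






--#TARGET: prove this one (put helper lemmas between this line and the target, prefix their names with `good1_`)

/-- HINT: product of `coinAll` and `eq4` (`Good_prod`); the exponent functions agree with `psi1 T` and `4 - psi1 T` by
`decide` over `T : Finset (Fin 4)` (e.g. `funext T; revert T; decide`). -/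
theorem good1 (n m : ℕ) (hm : 1 ≤ m) : ∃ (Λ : Type) (_ : Fintype Λ) (_ : Nonempty Λ) (M : Idx n → Λ → Prop),
    Good n m Λ M 4 psi1 (fun T => 4 - psi1 T) := by
  haveI : NeZero m := ⟨by omega⟩
  have h := Good_prod (coinAll n m) (eq4 n m)
  have h1 : (fun T : Finset (Fin 4) => (if T.card = 0 then 0 else 1) + min T.card 3) = psi1 := by
    funext T
    revert T
    decide
  have h2 : (fun T : Finset (Fin 4) => (if T.card = 0 then 1 else 0) + (3 - T.card)) =
      fun T => 4 - psi1 T := by
    funext T
    revert T
    decide
  rw [h1, h2] at h
  exact ⟨_, inferInstance, inferInstance, _, h⟩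

end

end Pool.EQ
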