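import Pool.Agent.Helper364.EQ.Defs
import Pool.Agent.Helper364.EQ.P_zero_count
set_option autoImplicit false
set_option linter.unusedVariables false

open Finset
open scoped ENNReal

namespace Pool.EQ

noncomputable section




--#TARGET: prove this one (put helper lemmas between this line and the target, prefix their names with `coin1_`)

theorem coin1_mono {Ω : Type} [Fintype Ω] {E F : Ω → Prop} (h : ∀ w, E w → F w) :
    Pr E ≤ Pr F := by
  unfold Pr Av
  refine div_le_div_of_nonneg_right (Finset.sum_le_sum fun w _ => ?_) (Nat.cast_nonneg _)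
  unfold ind
  by_cases hE : E w
  · rw [if_pos hE, if_pos (h w hE)]
  · rw [if_neg hE]
    split_ifs <;> norm_num

theorem coin1_le_one {Ω : Type} [Fintype Ω] (E : Ω → Prop) : Pr E ≤ 1 := by
  unfold Pr Av
  refine div_le_one_of_le₀ ?_ (Nat.cast_nonneg _)
  have h : ∑ w : Ω, ind (E w) ≤ ∑ w : Ω, (1 : ℝ) := by
    refine Finset.sum_le_sum fun w _ => ?_
    unfold ind
    split_ifs <;> norm_num
  refine h.trans ?_
  simp

theorem coin1_congr {Ω : Type} [Fintype Ω] {E F : Ω → Prop} (h : ∀ w, E w ↔ F w) :
    Pr E = Pr F :=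
  le_antisymm (coin1_mono fun w => (h w).1) (coin1_mono fun w => (h w).2)

theorem coin1_one {n : ℕ} (m : ℕ) [NeZero m] (x : Fin n) :
    Pr (fun w : Fin n → Fin m => w x = 0) = 1 / (m : ℝ) := by
  have h := zero_count m ({x} : Finset (Fin n))
  rw [Finset.card_singleton, pow_one] at h
  rw [← h]
  exact coin1_congr fun w => by simp

theorem coin1_two {n : ℕ} (m : ℕ) [NeZero m] (x y : Fin n) (hxy : x ≠ y) :
    Pr (fun w : Fin n → Fin m => w x = 0 ∧ w y = 0) = (1 / (m : ℝ)) ^ 2 := by
  have h := zero_count m ({x, y} : Finset (Fin n))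
  rw [Finset.card_pair hxy] at h
  rw [← h]
  exact coin1_congr fun w => by simp

/-- HINT: `zero_count` with `J = Fin n`, `S = {i l0}` or `{i l0, i' l0}`; in a slice with `l0 ∉ T` all `i l0` are equal;
otherwise the bound is `1`. -/
theorem coin1 (n m : ℕ) [NeZero m] (l0 : Fin 4) :
    Good n m (Fin n → Fin m) (fun i w => w (i l0) = 0) 1 (fun D => if l0 ∈ D then 1 else 0)
      (fun T => if l0 ∈ T then 0 else 1) := by
  refine ⟨?_, ?_, ?_⟩
  · intro i
    rw [pow_one]
    exact coin1_one m (i l0)
  · intro i i'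
    by_cases h : i l0 = i' l0
    · have h2 : l0 ∉ (univ.filter fun l => i l ≠ i' l) := by simp [h]
      rw [if_neg h2, add_zero, pow_one]
      rw [← coin1_one m (i l0)]
      exact coin1_mono fun w hw => hw.1
    · have h2 : l0 ∈ (univ.filter fun l => i l ≠ i' l) := by simp [h]
      rw [if_pos h2]
      exact (coin1_two m (i l0) (i' l0) h).le
  · intro T a
    by_cases h : l0 ∈ T
    · simp only [h, if_true, pow_zero]
      exact coin1_le_one _
    · simp only [h, if_false, pow_one]
      rw [← coin1_one m (a l0)]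
      refine coin1_mono fun w hw => ?_
      obtain ⟨i, hi, hiw⟩ := hw
      have h3 : i l0 = a l0 := by
        have := (Finset.mem_filter.1 hi).2 l0 h
        exact this
      rw [← h3]
      exact hiw

end

end Pool.EQ
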