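import Pool.Agent.Helper364.EQ.Defs
import Pool.Agent.Helper364.EQ.P_eq_count
set_option autoImplicit false
set_option linter.unusedVariables false

open Finset
open scoped ENNReal

namespace Pool.EQ

noncomputable section




--#TARGET: prove this one (put helper lemmas between this line and the target, prefix their names with `eq3_`)

theorem eq3_Av_mono {Ω : Type} [Fintype Ω] {F G : Ω → ℝ} (h : ∀ w, F w ≤ G w) : Av F ≤ Av G := by
  unfold Av
  exact div_le_div_of_nonneg_right (Finset.sum_le_sum fun w _ => h w) (Nat.cast_nonneg _)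

theorem eq3_ind_mono {P Q : Prop} (h : P → Q) : ind P ≤ ind Q := by
  unfold ind
  by_cases hP : P
  · rw [if_pos hP, if_pos (h hP)]
  · rw [if_neg hP]; split_ifs <;> norm_num

theorem eq3_Pr_mono {Ω : Type} [Fintype Ω] {E F : Ω → Prop} (h : ∀ w, E w → F w) : Pr E ≤ Pr F :=
  eq3_Av_mono fun w => eq3_ind_mono (h w)

theorem eq3_Pr_le_one {Ω : Type} [Fintype Ω] (E : Ω → Prop) : Pr E ≤ 1 := by
  unfold Pr Av
  refine div_le_one_of_le₀ ?_ (Nat.cast_nonneg _)
  calc ∑ w, ind (E w) ≤ ∑ w : Ω, (1 : ℝ) := by
        refine Finset.sum_le_sum fun w _ => ?_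
        unfold ind
        split_ifs <;> norm_num
    _ = _ := by simp

theorem eq3_marg {J : Type} [Fintype J] [DecidableEq J] (m : ℕ) [NeZero m] (F : (J → Fin m) → ℝ) :
    Av (fun w : Option J → Fin m => F (fun x => w (some x))) = Av F := by
  have hm : (m : ℝ) ≠ 0 := Nat.cast_ne_zero.2 (NeZero.ne m)
  have h2 : ∑ w : Option J → Fin m, F (fun x => w (some x)) = m * ∑ w : J → Fin m, F w := by
    rw [← (Equiv.piOptionEquivProd (β := fun _ : Option J => Fin m)).symm.sum_comp,
      Fintype.sum_prod_type]
    simp [Equiv.piOptionEquivProd]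
  unfold Av
  rw [h2]
  have h3 : (Fintype.card (Option J → Fin m) : ℝ) = m * (Fintype.card (J → Fin m) : ℝ) := by
    simp [pow_succ, mul_comm]
  rw [h3, mul_div_mul_left _ _ hm]

theorem eq3_one {J : Type} [Fintype J] [DecidableEq J] (m : ℕ) [NeZero m] (S : Finset J)
    (hS : S.Nonempty) :
    Pr (fun w : J → Fin m => ∀ x ∈ S, ∀ y ∈ S, w x = w y) = (1 / (m : ℝ)) ^ (S.card - 1) := by
  have h := (eq_count (J := Option J) m (S.map Function.Embedding.some) {none}
    (by simpa using hS) (by simp) (by simp)).1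
  rw [Finset.card_map] at h
  rw [← h]
  unfold Pr
  rw [← eq3_marg m]
  congr 1
  funext w
  congr 1
  simp

theorem eq3_M {n m : ℕ} (i : Idx n) (w : Fin n ⊕ Fin n ⊕ (Fin n × Fin n) → Fin m) :
    (w (Sum.inl (i 0)) = w (Sum.inr (Sum.inr (i 2, i 3))) ∧
        w (Sum.inr (Sum.inl (i 1))) = w (Sum.inr (Sum.inr (i 2, i 3)))) ↔
    ∀ x ∈ ({Sum.inl (i 0), Sum.inr (Sum.inl (i 1)), Sum.inr (Sum.inr (i 2, i 3))} :
        Finset (Fin n ⊕ Fin n ⊕ (Fin n × Fin n))),
      ∀ y ∈ ({Sum.inl (i 0), Sum.inr (Sum.inl (i 1)), Sum.inr (Sum.inr (i 2, i 3))} :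
        Finset (Fin n ⊕ Fin n ⊕ (Fin n × Fin n))), w x = w y := by
  constructor
  · rintro ⟨h1, h2⟩
    have key : ∀ x ∈ ({Sum.inl (i 0), Sum.inr (Sum.inl (i 1)), Sum.inr (Sum.inr (i 2, i 3))} :
        Finset (Fin n ⊕ Fin n ⊕ (Fin n × Fin n))), w x = w (Sum.inr (Sum.inr (i 2, i 3))) := by
      intro x hx
      simp only [Finset.mem_insert, Finset.mem_singleton] at hx
      rcases hx with rfl | rfl | rfl
      · exact h1
      · exact h2
      · rfl
    intro x hx y hy
    rw [key x hx, key y hy]
  · intro h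
    exact ⟨h _ (by simp) _ (by simp), h _ (by simp) _ (by simp)⟩

theorem eq3_card {n : ℕ} (i : Idx n) : ({Sum.inl (i 0), Sum.inr (Sum.inl (i 1)),
    Sum.inr (Sum.inr (i 2, i 3))} : Finset (Fin n ⊕ Fin n ⊕ (Fin n × Fin n))).card = 3 := by
  rw [Finset.card_insert_of_notMem (by simp), Finset.card_insert_of_notMem (by simp),
    Finset.card_singleton]

theorem eq3_pair {α : Type} [DecidableEq α] (a b : α) : ({a, b} : Finset α).card =
    1 + (if a ≠ b then 1 else 0) := by
  by_cases h : a = b
  · subst h; simp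
  · rw [Finset.card_pair h, if_pos h]

/-- HINT: `eq_count` with `J = Fin n ⊕ Fin n ⊕ (Fin n × Fin n)`, `S_i = {inl (i 0), inr (inl (i 1)), inr (inr (i 2, i 3))}`,
`|S_i| = 3`. Same argument as usual: if `S_i, S_i'` meet, `M i ∧ M i'` is 'all labels on `S_i ∪ S_i'` equal'; if disjoint
use the second part; the union over a slice is contained in 'all labels on the sites fixed by the slice are equal'. -/
theorem eq3 (n m : ℕ) [NeZero m] :
    Good n m (Fin n ⊕ Fin n ⊕ (Fin n × Fin n) → Fin m)
      (fun i w => w (Sum.inl (i 0)) = w (Sum.inr (Sum.inr (i 2, i 3))) ∧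
        w (Sum.inr (Sum.inl (i 1))) = w (Sum.inr (Sum.inr (i 2, i 3)))) 2
      (fun D => min ((if 0 ∈ D then 1 else 0) + (if 1 ∈ D then 1 else 0) + (if 2 ∈ D ∨ 3 ∈ D then 1 else 0)) 2)
      (fun T => (if 0 ∈ T then 0 else 1) + (if 1 ∈ T then 0 else 1) + (if 2 ∈ T ∨ 3 ∈ T then 0 else 1) - 1) := by
  constructor
  · intro i
    simp only [eq3_M i]
    rw [eq3_one m _ (by simp), eq3_card]
  · intro i i'
    have hD0 : (0 ∈ (univ.filter fun l => i l ≠ i' l)) ↔ i 0 ≠ i' 0 := by simp
    have hD1 : (1 ∈ (univ.filter fun l => i l ≠ i' l)) ↔ i 1 ≠ i' 1 := by simp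
    have hD23 : (2 ∈ (univ.filter fun l => i l ≠ i' l) ∨ 3 ∈ (univ.filter fun l => i l ≠ i' l)) ↔
        (i 2, i 3) ≠ (i' 2, i' 3) := by
      simp only [Finset.mem_filter, Finset.mem_univ, true_and, ne_eq, Prod.mk.injEq, not_and_or]
    simp only [hD0, hD1, hD23]
    by_cases hall : i 0 ≠ i' 0 ∧ i 1 ≠ i' 1 ∧ (i 2, i 3) ≠ (i' 2, i' 3)
    · obtain ⟨h0, h1, h23⟩ := hall
      rw [if_pos h0, if_pos h1, if_pos h23]
      simp only [eq3_M i, eq3_M i']
      have hdis : Disjoint ({Sum.inl (i 0), Sum.inr (Sum.inl (i 1)),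
          Sum.inr (Sum.inr (i 2, i 3))} : Finset (Fin n ⊕ Fin n ⊕ (Fin n × Fin n)))
          {Sum.inl (i' 0), Sum.inr (Sum.inl (i' 1)), Sum.inr (Sum.inr (i' 2, i' 3))} := by
        rw [Finset.disjoint_left]
        intro x hx hx'
        simp only [Finset.mem_insert, Finset.mem_singleton] at hx hx'
        rcases hx with rfl | rfl | rfl
        · rcases hx' with h | h | h
          · exact h0 (Sum.inl_injective h)
          · cases h
          · cases h
        · rcases hx' with h | h | h
          · cases h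
          · exact h1 (Sum.inl_injective (Sum.inr_injective h))
          · cases h
        · rcases hx' with h | h | h
          · cases h
          · cases h
          · exact h23 (Sum.inr_injective (Sum.inr_injective h))
      rw [(eq_count m _ _ (by simp) (by simp) hdis).2, eq3_card, eq3_card]
      norm_num
    · have hU : (({i 0, i' 0} : Finset (Fin n)).disjSum
          (({i 1, i' 1} : Finset (Fin n)).disjSum
            ({(i 2, i 3), (i' 2, i' 3)} : Finset (Fin n × Fin n)))).Nonempty :=
        ⟨Sum.inl (i 0), by simp⟩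
      have hcard : (({i 0, i' 0} : Finset (Fin n)).disjSum
          (({i 1, i' 1} : Finset (Fin n)).disjSum
            ({(i 2, i 3), (i' 2, i' 3)} : Finset (Fin n × Fin n)))).card =
          3 + ((if i 0 ≠ i' 0 then 1 else 0) + (if i 1 ≠ i' 1 then 1 else 0) +
            (if (i 2, i 3) ≠ (i' 2, i' 3) then 1 else 0)) := by
        rw [Finset.card_disjSum, Finset.card_disjSum, eq3_pair, eq3_pair, eq3_pair]
        ring
      have hone := eq3_one m _ hU
      have hle : Pr (fun w : Fin n ⊕ Fin n ⊕ (Fin n × Fin n) → Fin m =>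
          (w (Sum.inl (i 0)) = w (Sum.inr (Sum.inr (i 2, i 3))) ∧
            w (Sum.inr (Sum.inl (i 1))) = w (Sum.inr (Sum.inr (i 2, i 3)))) ∧
          (w (Sum.inl (i' 0)) = w (Sum.inr (Sum.inr (i' 2, i' 3))) ∧
            w (Sum.inr (Sum.inl (i' 1))) = w (Sum.inr (Sum.inr (i' 2, i' 3))))) ≤
          Pr (fun w : Fin n ⊕ Fin n ⊕ (Fin n × Fin n) → Fin m =>
            ∀ x ∈ (({i 0, i' 0} : Finset (Fin n)).disjSum
              (({i 1, i' 1} : Finset (Fin n)).disjSum
                ({(i 2, i 3), (i' 2, i' 3)} : Finset (Fin n × Fin n)))),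
            ∀ y ∈ (({i 0, i' 0} : Finset (Fin n)).disjSum
              (({i 1, i' 1} : Finset (Fin n)).disjSum
                ({(i 2, i 3), (i' 2, i' 3)} : Finset (Fin n × Fin n)))), w x = w y) := by
        refine eq3_Pr_mono ?_
        rintro w ⟨⟨ha, hb⟩, hc, hd⟩
        have hcc : w (Sum.inr (Sum.inr (i 2, i 3))) = w (Sum.inr (Sum.inr (i' 2, i' 3))) := by
          by_contra hne
          refine hall ⟨?_, ?_, ?_⟩
          · intro h
            apply hne
            rw [← ha, ← hc, h]
          · intro h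
            apply hne
            rw [← hb, ← hd, h]
          · intro h
            apply hne
            rw [h]
        have key : ∀ x ∈ (({i 0, i' 0} : Finset (Fin n)).disjSum
              (({i 1, i' 1} : Finset (Fin n)).disjSum
                ({(i 2, i 3), (i' 2, i' 3)} : Finset (Fin n × Fin n)))),
            w x = w (Sum.inr (Sum.inr (i 2, i 3))) := by
          intro x hx
          rcases x with x | x | x
          · rw [Finset.inl_mem_disjSum] at hx
            simp only [Finset.mem_insert, Finset.mem_singleton] at hx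
            rcases hx with rfl | rfl
            · exact ha
            · rw [hc, hcc]
          · rw [Finset.inr_mem_disjSum, Finset.inl_mem_disjSum] at hx
            simp only [Finset.mem_insert, Finset.mem_singleton] at hx
            rcases hx with rfl | rfl
            · exact hb
            · rw [hd, hcc]
          · rw [Finset.inr_mem_disjSum, Finset.inr_mem_disjSum] at hx
            simp only [Finset.mem_insert, Finset.mem_singleton] at hx
            rcases hx with rfl | rfl
            · rfl
            · exact hcc.symm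
        intro x hx y hy
        rw [key x hx, key y hy]
      refine hle.trans ?_
      rw [hone, hcard]
      have hlt : (if i 0 ≠ i' 0 then 1 else 0) + (if i 1 ≠ i' 1 then 1 else 0) +
            (if (i 2, i 3) ≠ (i' 2, i' 3) then 1 else 0) ≤ 2 := by
        by_contra hgt
        apply hall
        refine ⟨?_, ?_, ?_⟩
        · intro h
          apply hgt
          rw [if_neg (not_not.2 h)]
          split_ifs <;> norm_num
        · intro h
          apply hgt
          rw [if_neg (not_not.2 h : ¬ (i 1 ≠ i' 1))]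
          split_ifs <;> norm_num
        · intro h
          apply hgt
          rw [if_neg (not_not.2 h : ¬ ((i 2, i 3) ≠ (i' 2, i' 3)))]
          split_ifs <;> norm_num
      rw [min_eq_left hlt]
      apply le_of_eq
      congr 1
      omega
  · intro T a
    by_cases hall : 0 ∈ T ∧ 1 ∈ T ∧ (2 ∈ T ∨ 3 ∈ T)
    · obtain ⟨h0, h1, h23⟩ := hall
      rw [if_pos h0, if_pos h1, if_pos h23]
      simpa using eq3_Pr_le_one _
    · obtain ⟨A0, hA0⟩ : ∃ A0 : Finset (Fin n), A0 = if 0 ∈ T then ∅ else {a 0} := ⟨_, rfl⟩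
      obtain ⟨A1, hA1⟩ : ∃ A1 : Finset (Fin n), A1 = if 1 ∈ T then ∅ else {a 1} := ⟨_, rfl⟩
      obtain ⟨A2, hA2⟩ : ∃ A2 : Finset (Fin n × Fin n),
        A2 = if 2 ∈ T ∨ 3 ∈ T then ∅ else {(a 2, a 3)} := ⟨_, rfl⟩
      have hcard : (A0.disjSum (A1.disjSum A2)).card = (if 0 ∈ T then 0 else 1) +
          (if 1 ∈ T then 0 else 1) + (if 2 ∈ T ∨ 3 ∈ T then 0 else 1) := by
        rw [Finset.card_disjSum, Finset.card_disjSum, hA0, hA1, hA2]
        split_ifs <;> simp
      have hU : (A0.disjSum (A1.disjSum A2)).Nonempty := by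
        rw [← Finset.card_pos, hcard]
        by_contra hgt
        apply hall
        refine ⟨?_, ?_, ?_⟩
        · by_contra h
          apply hgt
          rw [if_neg h]
          omega
        · by_contra h
          apply hgt
          rw [if_neg h]
          omega
        · by_contra h
          apply hgt
          rw [if_neg h]
          omega
      have hone := eq3_one m _ hU
      rw [hcard] at hone
      rw [← hone]
      refine eq3_Pr_mono ?_
      rintro w ⟨i, hi, h1, h2⟩
      have hi' : ∀ l, l ∉ T → i l = a l := by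
        unfold slc at hi
        exact (Finset.mem_filter.1 hi).2
      have key : ∀ x ∈ (A0.disjSum (A1.disjSum A2)), w x = w (Sum.inr (Sum.inr (i 2, i 3))) := by
        intro x hx
        rcases x with x | x | x
        · rw [Finset.inl_mem_disjSum, hA0] at hx
          by_cases h : 0 ∈ T
          · rw [if_pos h] at hx; simp at hx
          · rw [if_neg h, Finset.mem_singleton] at hx
            rw [hx, ← hi' 0 h]
            exact h1
        · rw [Finset.inr_mem_disjSum, Finset.inl_mem_disjSum, hA1] at hx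
          by_cases h : 1 ∈ T
          · rw [if_pos h] at hx; simp at hx
          · rw [if_neg h, Finset.mem_singleton] at hx
            rw [hx, ← hi' 1 h]
            exact h2
        · rw [Finset.inr_mem_disjSum, Finset.inr_mem_disjSum, hA2] at hx
          by_cases h : 2 ∈ T ∨ 3 ∈ T
          · rw [if_pos h] at hx; simp at hx
          · rw [if_neg h, Finset.mem_singleton] at hx
            rw [not_or] at h
            rw [hx, ← hi' 2 h.1, ← hi' 3 h.2]
      intro x hx y hy
      rw [key x hx, key y hy]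

end

end Pool.EQ
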