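import Pool.Agent.Helper364.EQ.Defs
import Pool.Agent.Helper364.EQ.P_Good_prod
import Pool.Agent.Helper364.EQ.P_coin1
import Pool.Agent.Helper364.EQ.P_eq3
set_option autoImplicit false
set_option linter.unusedVariables false

open Finset
open scoped ENNReal

namespace Pool.EQ

noncomputable section






--#TARGET: prove this one (put helper lemmas between this line and the target, prefix their names with `good2_`)

/-- HINT: product of `coin1 0`, `coin1 1` and `eq3` (`Good_prod` twice); the exponent functions agree with `psi2 T` and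
`4 - psi2 T` by `decide` over `T : Finset (Fin 4)`. -/
theorem good2 (n m : ℕ) (hm : 1 ≤ m) : ∃ (Λ : Type) (_ : Fintype Λ) (_ : Nonempty Λ) (M : Idx n → Λ → Prop),
    Good n m Λ M 4 psi2 (fun T => 4 - psi2 T) := by
  have : NeZero m := ⟨by omega⟩
  have h := Good_prod (Good_prod (coin1 n m 0) (coin1 n m 1)) (eq3 n m)
  have : Nonempty (Fin m) := ⟨0⟩
  refine ⟨((Fin n → Fin m) × (Fin n → Fin m)) × (Fin n ⊕ Fin n ⊕ (Fin n × Fin n) → Fin m),
    inferInstance, inferInstance, fun i w =>
      (w.1.1 (i 0) = 0 ∧ w.1.2 (i 1) = 0) ∧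
        w.2 (Sum.inl (i 0)) = w.2 (Sum.inr (Sum.inr (i 2, i 3))) ∧
          w.2 (Sum.inr (Sum.inl (i 1))) = w.2 (Sum.inr (Sum.inr (i 2, i 3))), ?_⟩
  convert h using 1
  all_goals
    funext T
    unfold psi2
    by_cases h0 : (0 : Fin 4) ∈ T <;> by_cases h1 : (1 : Fin 4) ∈ T <;>
      by_cases h2 : ((2 : Fin 4) ∈ T ∨ (3 : Fin 4) ∈ T) <;> simp [h0, h1, h2]

end

end Pool.EQ
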