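import Pool.Agent.Helper364.EQ.Defs
set_option autoImplicit false
set_option linter.unusedVariables false

open Finset
open scoped ENNReal

namespace Pool.EQ

noncomputable section


--#TARGET: prove this one (put helper lemmas between this line and the target, prefix their names with `NT_cyl_`)

theorem NT_cyl_mem {n : ℕ} (T : Finset (Fin 4)) (a i : Idx n) :
    i ∈ slc T a ↔ a ∈ slc T i := by
  unfold slc
  rw [mem_filter, mem_filter]
  constructor
  · rintro ⟨_, h⟩
    exact ⟨mem_univ _, fun l hl => (h l hl).symm⟩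
  · rintro ⟨_, h⟩
    exact ⟨mem_univ _, fun l hl => (h l hl).symm⟩

theorem NT_cyl_slc {n : ℕ} (T : Finset (Fin 4)) (a i : Idx n) (hi : i ∈ slc T a) :
    slc T i = slc T a := by
  have h := (mem_filter.1 hi).2
  ext j
  unfold slc
  rw [mem_filter, mem_filter]
  constructor
  · rintro ⟨_, h'⟩
    exact ⟨mem_univ _, fun l hl => (h' l hl).trans (h l hl)⟩
  · rintro ⟨_, h'⟩
    exact ⟨mem_univ _, fun l hl => (h' l hl).trans (h l hl).symm⟩

theorem NT_cyl_pos {n : ℕ} (T : Finset (Fin 4)) (i : Idx n) : (0 : ℝ) < ((slc T i).card : ℝ) := by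
  have h : i ∈ slc T i := by
    unfold slc
    exact mem_filter.2 ⟨mem_univ _, fun _ _ => rfl⟩
  exact_mod_cast card_pos.2 ⟨i, h⟩

theorem NT_cyl_sq {n : ℕ} (T : Finset (Fin 4)) (u : Idx n → ℝ) :
    NT T u = ∑ a, (Sl T u a) ^ 2 / ((slc T a).card : ℝ) := by
  have hSl : ∀ a i, i ∈ slc T a → Sl T u i = Sl T u a := by
    intro a i hi
    unfold Sl
    rw [NT_cyl_slc T a i hi]
  symm
  calc ∑ a, (Sl T u a) ^ 2 / ((slc T a).card : ℝ)
      = ∑ a, ∑ i ∈ slc T a, u i * Sl T u i / ((slc T i).card : ℝ) := by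
        refine sum_congr rfl fun a _ => ?_
        have e : (Sl T u a) ^ 2 = ∑ i ∈ slc T a, u i * Sl T u a := by
          rw [← sum_mul, pow_two]
          rfl
        rw [e, sum_div]
        refine sum_congr rfl fun i hi => ?_
        rw [hSl a i hi, NT_cyl_slc T a i hi]
    _ = ∑ i, ∑ a ∈ slc T i, u i * Sl T u i / ((slc T i).card : ℝ) := by
        refine Finset.sum_comm' ?_
        intro a i
        rw [NT_cyl_mem T a i]
        simp
    _ = NT T u := by
        unfold NT
        refine sum_congr rfl fun i _ => ?_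
        rw [sum_const, nsmul_eq_mul]
        have h := (NT_cyl_pos T i).ne'
        field_simp

/-- HINT: group a slice in direction `T ∪ {2,3}` by the value `y = (i 2, i 3) ∈ B`: the slice sum of `v 1_B` is a sum of
`|B|` slice sums of `v` in direction `T` (if the slice direction contains 2 and 3 and `T` does not), Cauchy-Schwarz
`(∑_{y∈B} s_y)² ≤ |B| ∑ s_y²`. Maybe use `NT_eq`-like double counting or write
`NT T v = ∑_{i,i' agree outside T} v v'` directly. -/
theorem NT_cyl {n : ℕ} (T : Finset (Fin 4)) (h2 : 2 ∉ T) (h3 : 3 ∉ T) (v : Idx n → ℝ) (hv : ∀ i, 0 ≤ v i)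
    (B : Finset (Fin n × Fin n)) :
    NT (T ∪ {2, 3}) (fun i => if (i 2, i 3) ∈ B then v i else 0) ≤ (B.card : ℝ) * NT T v := by
  obtain ⟨w, hw⟩ : ∃ w : Fin n × Fin n → Idx n → ℝ,
    w = fun y i => if (i 2, i 3) = y then v i else 0 := ⟨_, rfl⟩
  have hsum : ∀ i : Idx n, (if (i 2, i 3) ∈ B then v i else 0) = ∑ y ∈ B, w y i := by
    intro i
    rw [hw]
    simp only
    rw [Finset.sum_ite_eq]
  have hS : ∀ a : Idx n, Sl (T ∪ {2, 3}) (fun i => if (i 2, i 3) ∈ B then v i else 0) a =
      ∑ y ∈ B, Sl (T ∪ {2, 3}) (w y) a := by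
    intro a
    unfold Sl
    rw [sum_comm]
    exact sum_congr rfl fun i _ => hsum i
  have h4 : NT (T ∪ {2, 3}) (fun i => if (i 2, i 3) ∈ B then v i else 0) ≤
      (B.card : ℝ) * ∑ y ∈ B, NT (T ∪ {2, 3}) (w y) := by
    rw [NT_cyl_sq]
    simp only [NT_cyl_sq (T ∪ {2, 3}) (w _)]
    rw [sum_comm, mul_sum]
    refine sum_le_sum fun a _ => ?_
    rw [hS, ← sum_div, ← mul_div_assoc]
    refine div_le_div_of_nonneg_right ?_ (NT_cyl_pos _ a).le
    exact sq_sum_le_card_mul_sum_sq
  have h5 : ∀ y : Fin n × Fin n, NT (T ∪ {2, 3}) (w y) =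
      ∑ i : Idx n, if (i 2, i 3) = y then v i * Sl T v i else 0 := by
    intro y
    unfold NT
    refine sum_congr rfl fun i _ => ?_
    rw [hw]
    simp only
    split_ifs with hy
    · congr 1
      unfold Sl
      rw [← sum_filter]
      refine sum_congr ?_ fun _ _ => rfl
      ext j
      unfold slc
      rw [mem_filter, mem_filter, mem_filter]
      constructor
      · rintro ⟨⟨_, h6⟩, h7⟩
        refine ⟨mem_univ _, fun l hl => ?_⟩
        rw [← hy, Prod.mk.injEq] at h7
        by_cases hl2 : l = 2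
        · rw [hl2]; exact h7.1
        · by_cases hl3 : l = 3
          · rw [hl3]; exact h7.2
          · refine h6 l ?_
            rw [mem_union, mem_insert, mem_singleton]
            rintro (h | h | h)
            · exact hl h
            · exact hl2 h
            · exact hl3 h
      · rintro ⟨_, h6⟩
        refine ⟨⟨mem_univ _, fun l hl => h6 l fun h => hl (mem_union_left _ h)⟩, ?_⟩
        rw [← hy, h6 2 h2, h6 3 h3]
    · rw [zero_mul]
  have hSnn : ∀ i, 0 ≤ Sl T v i := fun i => sum_nonneg fun j _ => hv j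
  refine h4.trans (mul_le_mul_of_nonneg_left ?_ (Nat.cast_nonneg _))
  simp only [h5]
  rw [sum_comm]
  unfold NT
  refine sum_le_sum fun i _ => ?_
  rw [Finset.sum_ite_eq]
  split_ifs
  · exact le_refl _
  · exact mul_nonneg (hv i) (hSnn i)

end

end Pool.EQ
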