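import Pool.Agent.Helper364.EQ.Defs
set_option autoImplicit false
set_option linter.unusedVariables false

open Finset
open scoped ENNReal

namespace Pool.EQ

noncomputable section


--#TARGET: prove this one (put helper lemmas between this line and the target, prefix their names with `NT_thr_`)

theorem NT_thr_slc {n : ℕ} (i : Idx n) :
    slc {0, 1} i = univ.filter (fun j : Idx n => j 2 = i 2 ∧ j 3 = i 3) := by
  unfold slc
  ext j
  simp only [mem_filter, mem_univ, true_and]
  constructor
  · intro h
    exact ⟨h 2 (by decide), h 3 (by decide)⟩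
  · rintro ⟨h2, h3⟩ l hl
    fin_cases l
    · exact absurd (by decide) hl
    · exact absurd (by decide) hl
    · exact h2
    · exact h3

/-- HINT: for `i` in the support, `Sl {0,1} v' i = b (i 2, i 3) ≤ c` where `b y = ∑_{i : (i 2, i 3) = y} v i`;
`NT = ∑ v' i * Sl v' i ≤ c ∑ v' i`. -/
theorem NT_thr {n : ℕ} (v : Idx n → ℝ) (hv : ∀ i, 0 ≤ v i) (c : ℝ) (hc : 0 ≤ c) :
    NT {0, 1} (fun i => if (∑ j ∈ univ.filter (fun j : Idx n => j 2 = i 2 ∧ j 3 = i 3), v j) ≤ c
      then v i else 0) ≤ c * ∑ i, v i := by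
  unfold NT
  rw [Finset.mul_sum]
  refine Finset.sum_le_sum fun i _ => ?_
  by_cases h : (∑ j ∈ univ.filter (fun j : Idx n => j 2 = i 2 ∧ j 3 = i 3), v j) ≤ c
  · simp only [if_pos h]
    rw [mul_comm]
    apply mul_le_mul_of_nonneg_right _ (hv i)
    refine le_trans ?_ h
    unfold Sl
    rw [NT_thr_slc]
    refine Finset.sum_le_sum fun j _ => ?_
    split_ifs
    · exact le_rfl
    · exact hv j
  · simp only [if_neg h]
    rw [zero_mul]
    exact mul_nonneg hc (hv i)

end

end Pool.EQ
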