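import Pool.Agent.Helper364.EQ.Defs
import Pool.Agent.Helper364.EQ.P_NT_basic
import Pool.Agent.Helper364.EQ.P_NT_cyl
import Pool.Agent.Helper364.EQ.P_NT_thr
set_option autoImplicit false
set_option linter.unusedVariables false

open Finset
open scoped ENNReal

namespace Pool.EQ

noncomputable section






--#TARGET: prove this one (put helper lemmas between this line and the target, prefix their names with `split_`)

theorem split_A : ∀ T : Finset (Fin 4), T ≠ {0, 1} → psi1 T = psi T := by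
  unfold psi1 psi
  decide

theorem split_B : ∀ T : Finset (Fin 4), 2 ∉ T → 3 ∉ T → psi2 T = psi T := by
  unfold psi2 psi
  decide

theorem split_C : ∀ T : Finset (Fin 4), (2 ∈ T ∨ 3 ∈ T) → T \ {2, 3} ≠ {0, 1} →
    psi2 T = 1 + psi (T \ {2, 3}) := by
  unfold psi2 psi
  decide

theorem split_D : ∀ T : Finset (Fin 4), (2 ∈ T ∨ 3 ∈ T) → T \ {2, 3} = {0, 1} →
    psi2 T = 4 := by
  unfold psi2
  decide

theorem split_E : psi univ = 4 ∧ psi1 {0, 1} = 3 := by
  unfold psi psi1
  decide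

/-- HINT: `b y = ∑_{i : (i 2,i 3) = y} v i`, `B = {y | b y > m κ}`, `v' = v 1_{y ∉ B}`, `v'' = v 1_{y ∈ B}`.
`T = univ` gives `∑ v ≤ κ m²`, so `|B| ≤ m` (`m κ |B| ≤ ∑_y b y = ∑ v`; if `κ = 0` then `v = 0`).
`NT {0,1} v' ≤ mκ ∑ v ≤ κ² m³` (`NT_thr`), other `T`: `psi1 T = psi T` and `NT T v' ≤ NT T v`.
For `v''`: if `2 ∉ T, 3 ∉ T` then `psi2 T = psi T`. If `2 ∈ T` or `3 ∈ T`, put `T0 = T \ {2,3}`; if `T0 ≠ {0,1}`:
`NT T v'' ≤ NT (T0 ∪ {2,3}) v'' ≤ |B| NT T0 v ≤ m κ² m^{psi T0}` and `1 + psi T0 = psi2 T`; if `T0 = {0,1}` then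
`psi2 T = 4`, `NT T v'' ≤ (∑ v)² ≤ κ² m⁴`. Finite checks on `T : Finset (Fin 4)` by `decide` (`fin_cases T` or
`revert T; decide`). -/
theorem split {n : ℕ} (m : ℕ) (hm : 1 ≤ m) (v : Idx n → ℝ) (hv : ∀ i, 0 ≤ v i) (κ : ℝ) (hκ : 0 ≤ κ)
    (h : ∀ T, NT T v ≤ κ ^ 2 * (m : ℝ) ^ (psi T)) :
    ∃ B : Finset (Fin n × Fin n),
      (∀ T, NT T (fun i => if (i 2, i 3) ∈ B then 0 else v i) ≤ κ ^ 2 * (m : ℝ) ^ (psi1 T)) ∧
      (∀ T, NT T (fun i => if (i 2, i 3) ∈ B then v i else 0) ≤ κ ^ 2 * (m : ℝ) ^ (psi2 T)) := by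
  classical
  have hm0 : (0:ℝ) < m := by exact_mod_cast hm
  have hsum0 : 0 ≤ ∑ i, v i := Finset.sum_nonneg fun i _ => hv i
  have huniv := h univ
  rw [split_E.1, (NT_basic univ v hv).2.2.2.2.1] at huniv
  have hsum : ∑ i, v i ≤ κ * (m:ℝ) ^ 2 := by
    have h1 : (∑ i, v i) ^ 2 ≤ (κ * (m:ℝ) ^ 2) ^ 2 := by
      calc (∑ i, v i) ^ 2 ≤ κ ^ 2 * (m : ℝ) ^ 4 := huniv
        _ = (κ * (m:ℝ) ^ 2) ^ 2 := by ring
    exact le_of_sq_le_sq h1 (by positivity)
  obtain ⟨b, hb⟩ : ∃ b : Fin n × Fin n → ℝ, b = fun y =>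
      ∑ j ∈ univ.filter (fun j : Idx n => j 2 = y.1 ∧ j 3 = y.2), v j := ⟨_, rfl⟩
  have hb0 : ∀ y, 0 ≤ b y := by
    intro y
    rw [hb]
    exact Finset.sum_nonneg fun i _ => hv i
  have hbsum : ∑ y, b y = ∑ i, v i := by
    rw [hb, ← Finset.sum_fiberwise_of_maps_to (s := (univ : Finset (Idx n)))
      (t := (univ : Finset (Fin n × Fin n))) (g := fun j : Idx n => (j 2, j 3))
      (fun _ _ => Finset.mem_univ _) v]
    refine Finset.sum_congr rfl fun y _ => ?_
    refine Finset.sum_congr ?_ fun _ _ => rfl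
    ext j
    simp only [Finset.mem_filter, Finset.mem_univ, true_and]
    constructor
    · rintro ⟨h1, h2⟩
      exact Prod.ext h1 h2
    · intro h1
      rw [← h1]
      exact ⟨rfl, rfl⟩
  obtain ⟨B, hB⟩ : ∃ B : Finset (Fin n × Fin n), ∀ y, y ∈ B ↔ m * κ < b y :=
    ⟨univ.filter (fun y => m * κ < b y), fun y => by simp⟩
  have hcard : (B.card : ℝ) ≤ m := by
    rcases hκ.lt_or_eq with hκ' | hκ'
    · have h1 : (B.card : ℝ) * (m * κ) ≤ κ * (m:ℝ) ^ 2 := by
        calc (B.card : ℝ) * (m * κ) = ∑ y ∈ B, (m * κ) := by simp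
          _ ≤ ∑ y ∈ B, b y := Finset.sum_le_sum fun y hy => ((hB y).mp hy).le
          _ ≤ ∑ y, b y := Finset.sum_le_sum_of_subset_of_nonneg (Finset.subset_univ _)
              fun y _ _ => hb0 y
          _ = ∑ i, v i := hbsum
          _ ≤ _ := hsum
      have h2 : (B.card : ℝ) * (m * κ) ≤ m * (m * κ) := by
        calc (B.card : ℝ) * (m * κ) ≤ κ * (m:ℝ) ^ 2 := h1
          _ = m * (m * κ) := by ring
      exact le_of_mul_le_mul_right h2 (by positivity)
    · have h1 : B = ∅ := by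
        rw [Finset.eq_empty_iff_forall_notMem]
        intro y hy
        have h2 := (hB y).mp hy
        rw [← hκ', mul_zero] at h2
        rw [← hκ', zero_mul] at hsum
        have h3 : b y ≤ ∑ y, b y := Finset.single_le_sum (fun y _ => hb0 y) (Finset.mem_univ y)
        rw [hbsum] at h3
        linarith
      rw [h1, Finset.card_empty]
      exact_mod_cast hm0.le
  refine ⟨B, ?_, ?_⟩
  · intro T
    by_cases hT : T = {0, 1}
    · rw [hT, split_E.2]
      have h1 := NT_thr v hv (m * κ) (by positivity)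
      have h2 : (fun i : Idx n => if (i 2, i 3) ∈ B then 0 else v i) =
          (fun i => if (∑ j ∈ univ.filter (fun j : Idx n => j 2 = i 2 ∧ j 3 = i 3), v j) ≤ m * κ
            then v i else 0) := by
        funext i
        have h3 := hB (i 2, i 3)
        rw [hb] at h3
        by_cases hi : (i 2, i 3) ∈ B
        · rw [if_pos hi, if_neg (not_le.mpr (h3.mp hi))]
        · rw [if_neg hi, if_pos (not_lt.mp (fun h4 => hi (h3.mpr h4)))]
      rw [h2]
      refine h1.trans ?_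
      calc m * κ * ∑ i, v i ≤ m * κ * (κ * (m:ℝ) ^ 2) :=
            mul_le_mul_of_nonneg_left hsum (by positivity)
        _ = κ ^ 2 * (m : ℝ) ^ 3 := by ring
    · rw [split_A T hT]
      refine le_trans ?_ (h T)
      refine (NT_basic T _ ?_).2.2.1 v ?_
      · intro i
        split_ifs
        · exact le_rfl
        · exact hv i
      · intro i
        split_ifs
        · exact hv i
        · exact le_rfl
  · intro T
    have hv'' : ∀ i : Idx n, 0 ≤ (if (i 2, i 3) ∈ B then v i else 0) := by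
      intro i
      split_ifs
      · exact hv i
      · exact le_rfl
    have hle : ∀ T, NT T (fun i : Idx n => if (i 2, i 3) ∈ B then v i else 0) ≤ NT T v := by
      intro T
      refine (NT_basic T _ hv'').2.2.1 v ?_
      intro i
      split_ifs
      · exact le_rfl
      · exact hv i
    by_cases h23 : 2 ∈ T ∨ 3 ∈ T
    · by_cases h01 : T \ {2, 3} = {0, 1}
      · rw [split_D T h23 h01]
        refine (hle T).trans ?_
        exact ((NT_basic T v hv).2.2.2.2.2.2).trans huniv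
      · rw [split_C T h23 h01]
        have hsub : T ⊆ (T \ {2, 3}) ∪ {2, 3} := by
          intro x hx
          by_cases hx' : x ∈ ({2, 3} : Finset (Fin 4))
          · exact Finset.mem_union_right _ hx'
          · exact Finset.mem_union_left _ (Finset.mem_sdiff.mpr ⟨hx, hx'⟩)
        refine ((NT_basic T _ hv'').2.2.2.1 _ hsub).trans ?_
        refine (NT_cyl (T \ {2, 3}) (by simp) (by simp) v hv B).trans ?_
        have h0 := (NT_basic (T \ {2, 3}) v hv).1
        calc (B.card : ℝ) * NT (T \ {2, 3}) v ≤ m * (κ ^ 2 * (m : ℝ) ^ (psi (T \ {2, 3}))) :=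
              mul_le_mul hcard (h _) h0 hm0.le
          _ = κ ^ 2 * (m : ℝ) ^ (1 + psi (T \ {2, 3})) := by
              rw [pow_add, pow_one]
              ring
    · push Not at h23
      rw [split_B T h23.1 h23.2]
      exact (hle T).trans (h T)

end

end Pool.EQ
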