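import Pool.Agent.Helper364.EQ.Defs
import Pool.Agent.Helper364.EQ.P_NT_basic
import Pool.Agent.Helper364.EQ.P_NT_add
import Pool.Agent.Helper364.EQ.P_split
import Pool.Agent.Helper364.EQ.P_good1
import Pool.Agent.Helper364.EQ.P_good2
import Pool.Agent.Helper364.EQ.P_PiLf
import Pool.Agent.Helper364.EQ.P_Lf_bd
import Pool.Agent.Helper364.EQ.P_Pi_bd
set_option autoImplicit false
set_option linter.unusedVariables false

open Finset
open scoped ENNReal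

namespace Pool.EQ

noncomputable section











--#TARGET: prove this one (put helper lemmas between this line and the target, prefix their names with `quot_`)

theorem quot_c (N : ℝ) (hN : 0 < N) : ∃ c : ℝ, 0 < c ∧ c ^ 4 = N := by
  refine ⟨√(√N), Real.sqrt_pos.2 (Real.sqrt_pos.2 hN), ?_⟩
  have h1 : (√(√N)) ^ 4 = ((√(√N)) ^ 2) ^ 2 := by ring
  rw [h1, Real.sq_sqrt (Real.sqrt_nonneg _), Real.sq_sqrt hN.le]

theorem quot_Av {Ω : Type} [Fintype Ω] [Nonempty Ω] (c : ℝ) (hc : c ^ 4 = (Fintype.card Ω : ℝ))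
    (F : Ω → ℝ) : Av (fun z => (c * F z) ^ 4) = ∑ z, F z ^ 4 := by
  have hN : (Fintype.card Ω : ℝ) ≠ 0 := by
    exact_mod_cast Fintype.card_ne_zero
  unfold Av
  rw [div_eq_iff hN, ← hc, Finset.sum_mul]
  exact Finset.sum_congr rfl (fun z _ => by ring)

theorem quot_coef (m : ℕ) (hm : 1 ≤ m) (a b : ℕ) (h : b ≤ a) (hb : b ≤ 4) :
    (1 / (m : ℝ)) ^ a * ((m : ℝ) ^ 4 * (1 / (m : ℝ)) ^ (4 - b)) ≤ 1 := by
  have hm' : (1 : ℝ) ≤ m := by exact_mod_cast hm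
  have hm0 : (0 : ℝ) < m := by linarith
  have h1 : (1 / (m : ℝ)) ^ a ≤ (1 / (m : ℝ)) ^ b := by
    apply pow_le_pow_of_le_one (by positivity) _ h
    rw [div_le_one hm0]; exact hm'
  calc (1 / (m : ℝ)) ^ a * ((m : ℝ) ^ 4 * (1 / (m : ℝ)) ^ (4 - b))
      ≤ (1 / (m : ℝ)) ^ b * ((m : ℝ) ^ 4 * (1 / (m : ℝ)) ^ (4 - b)) := by gcongr
    _ = (1 / (m : ℝ)) ^ (b + (4 - b)) * (m : ℝ) ^ 4 := by rw [pow_add]; ring
    _ = 1 := by
      rw [Nat.add_sub_cancel' hb, ← mul_pow, one_div, inv_mul_cancel₀ hm0.ne', one_pow]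

theorem quot_NT_two {n : ℕ} (T : Finset (Fin 4)) (v : Idx n → ℝ) :
    NT T (fun i => 2 * v i) = 4 * NT T v := by
  unfold NT Sl
  rw [Finset.mul_sum]
  refine Finset.sum_congr rfl (fun i _ => ?_)
  rw [← Finset.mul_sum]
  ring

theorem quot_EN_add {n : ℕ} (m : ℕ) (x y : Idx n → ℝ) :
    EN m (fun i => x i + y i) ≤ 8 * (EN m x + EN m y) := by
  unfold EN
  rw [← Finset.sum_add_distrib, Finset.mul_sum]
  refine Finset.sum_le_sum (fun T _ => ?_)
  have h1 : NT T (fun i => (x i + y i) ^ 2) ≤ 8 * (NT T (fun i => x i ^ 2) + NT T (fun i => y i ^ 2)) := by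
    calc NT T (fun i => (x i + y i) ^ 2) ≤ NT T (fun i => 2 * x i ^ 2 + 2 * y i ^ 2) := by
          refine (NT_basic T (fun i => (x i + y i) ^ 2) (fun i => sq_nonneg _)).2.2.1 _ ?_
          intro i
          nlinarith [sq_nonneg (x i - y i)]
      _ ≤ 2 * NT T (fun i => 2 * x i ^ 2) + 2 * NT T (fun i => 2 * y i ^ 2) := NT_add T _ _
      _ = 8 * (NT T (fun i => x i ^ 2) + NT T (fun i => y i ^ 2)) := by
        rw [quot_NT_two T (fun i => x i ^ 2), quot_NT_two T (fun i => y i ^ 2)]; ring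
  have h2 : (0 : ℝ) ≤ (1 / (m : ℝ)) ^ (psi T) := by positivity
  calc (1 / (m : ℝ)) ^ (psi T) * NT T (fun i => (x i + y i) ^ 2)
      ≤ (1 / (m : ℝ)) ^ (psi T) *
        (8 * (NT T (fun i => x i ^ 2) + NT T (fun i => y i ^ 2))) := by gcongr
    _ = _ := by ring

theorem quot_Av_nonneg {Ω : Type} [Fintype Ω] (F : Ω → ℝ) (h : ∀ z, 0 ≤ F z) : 0 ≤ Av F := by
  unfold Av
  exact div_nonneg (Finset.sum_nonneg (fun z _ => h z)) (Nat.cast_nonneg _)

theorem quot_EN_Pi {n m : ℕ} (hn : 1 ≤ n) (hm : 1 ≤ m) {Λ : Type} [Fintype Λ] [Nonempty Λ]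
    {M : Idx n → Λ → Prop} {d : Finset (Fin 4) → ℕ} (h : Good n m Λ M 4 d (fun T => 4 - d T))
    (hd : ∀ T, d T ≤ psi T) (hd4 : ∀ T, d T ≤ 4) (F : Λ × (Idx n → Bool) → ℝ) :
    EN m (PiM m M F) ≤ 16 * Av (fun z => F z ^ 4) := by
  have hA : 0 ≤ Av (fun z => F z ^ 4) := quot_Av_nonneg _ (fun z => by positivity)
  unfold EN
  calc ∑ T : Finset (Fin 4), (1 / (m : ℝ)) ^ (psi T) * NT T (fun i => PiM m M F i ^ 2)
      ≤ ∑ T : Finset (Fin 4), Av (fun z => F z ^ 4) := by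
        refine Finset.sum_le_sum (fun T _ => ?_)
        have h1 := Pi_bd hn hm h F T
        have h2 : (0 : ℝ) ≤ (1 / (m : ℝ)) ^ (psi T) := by positivity
        calc (1 / (m : ℝ)) ^ (psi T) * NT T (fun i => PiM m M F i ^ 2)
            ≤ (1 / (m : ℝ)) ^ (psi T) *
              ((m : ℝ) ^ 4 * (1 / (m : ℝ)) ^ (4 - d T) * Av (fun z => F z ^ 4)) := by gcongr
          _ = ((1 / (m : ℝ)) ^ (psi T) * ((m : ℝ) ^ 4 * (1 / (m : ℝ)) ^ (4 - d T))) *
              Av (fun z => F z ^ 4) := by ring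
          _ ≤ 1 * Av (fun z => F z ^ 4) :=
            mul_le_mul_of_nonneg_right (quot_coef m hm _ _ (hd T) (hd4 T)) hA
          _ = Av (fun z => F z ^ 4) := one_mul _
    _ = 16 * Av (fun z => F z ^ 4) := by
      rw [Finset.sum_const, Finset.card_univ, Fintype.card_finset, Fintype.card_fin, nsmul_eq_mul]
      norm_num

theorem quot_lift {n m : ℕ} (hm : 1 ≤ m) {Λ : Type} [Fintype Λ] [Nonempty Λ]
    {M : Idx n → Λ → Prop} {d u : Finset (Fin 4) → ℕ} (h : Good n m Λ M 4 d u)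
    (ξ : Idx n → ℝ) (e : ℝ) (he : ∀ T, NT T (fun i => ξ i ^ 2) ≤ e * (m : ℝ) ^ (d T)) :
    Av (fun z => (LfM m M ξ z) ^ 4) ≤ 48 * e := by
  have hm0 : (0 : ℝ) < m := by exact_mod_cast hm
  refine (Lf_bd hm h ξ).trans ?_
  have h1 : ∑ T : Finset (Fin 4), (1 / (m : ℝ)) ^ (d T) * NT T (fun i => ξ i ^ 2)
      ≤ ∑ T : Finset (Fin 4), e := by
    refine Finset.sum_le_sum (fun T _ => ?_)
    calc (1 / (m : ℝ)) ^ (d T) * NT T (fun i => ξ i ^ 2)
        ≤ (1 / (m : ℝ)) ^ (d T) * (e * (m : ℝ) ^ (d T)) := by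
          have := he T
          gcongr
      _ = e * ((1 / (m : ℝ)) * m) ^ (d T) := by rw [mul_pow]; ring
      _ = e := by rw [one_div, inv_mul_cancel₀ hm0.ne', one_pow, mul_one]
  rw [Finset.sum_const, Finset.card_univ, Fintype.card_finset, Fintype.card_fin,
    nsmul_eq_mul] at h1
  norm_num at h1 ⊢
  linarith

theorem quot_psi1_le : ∀ T : Finset (Fin 4), psi1 T ≤ psi T := by decide

theorem quot_psi2_le : ∀ T : Finset (Fin 4), psi2 T ≤ psi T := by decide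

theorem quot_psi_le : ∀ T : Finset (Fin 4), psi T ≤ 4 := by decide

theorem quot_PiM_add {n : ℕ} (m : ℕ) {Λ : Type} [Fintype Λ] (M : Idx n → Λ → Prop)
    (F G : Λ × (Idx n → Bool) → ℝ) (i : Idx n) :
    PiM m M (fun z => F z + G z) i = PiM m M F i + PiM m M G i := by
  unfold PiM Av
  rw [← add_div, ← Finset.sum_add_distrib]
  congr 1
  exact Finset.sum_congr rfl (fun z _ => by ring)

theorem quot_PiM_smul {n : ℕ} (m : ℕ) {Λ : Type} [Fintype Λ] (M : Idx n → Λ → Prop)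
    (c : ℝ) (F : Λ × (Idx n → Bool) → ℝ) (i : Idx n) :
    PiM m M (fun z => c * F z) i = c * PiM m M F i := by
  unfold PiM Av
  rw [← mul_div_assoc, Finset.mul_sum]
  congr 1
  exact Finset.sum_congr rfl (fun z _ => by ring)


/-- HINT: take the structures `(Λ₁, M₁)` of `good1` and `(Λ₂, M₂)` of `good2`, `K = (Λ₁ × signs) ⊕ (Λ₂ × signs)`,
`q F = PiM₁ (c₁ F∘inl) + PiM₂ (c₂ F∘inr)`, `c_k = (card Ω_k)^{1/4}` so that `Av (c_k F)⁴ = ∑ F⁴`.
Bound: `EN (x + y) ≤ 8 (EN x + EN y)` (`NT_add`, `(x+y)² ≤ 2x²+2y²`, `NT_basic` monotonicity, `NT T (2v) = 4 NT T v`) and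
`EN (PiM_k F) ≤ ∑_T m^{-psi T} m^{psi_k T} Av F⁴ ≤ 16 Av F⁴` as `psi_k ≤ psi` (decide), `4 - (4 - psi_k) = psi_k`.
Lifting: apply `split` to `v = ξ²`, `κ² = EN m ξ`; `F = (LfM₁ ξ' / c₁, LfM₂ ξ'' / c₂)`, `ξ' = ξ 1_{y∉B}`, `ξ'' = ξ 1_{y∈B}`;
`Av (LfM_k ξ_k)⁴ ≤ 3 ∑_T m^{-psi_k T} NT T (ξ_k²) ≤ 48 EN m ξ`. -/
theorem quot {n m : ℕ} (hn : 1 ≤ n) (hm : 1 ≤ m) :
    ∃ (K : Type) (_ : Fintype K) (_ : Nonempty K) (q : (K → ℝ) →ₗ[ℝ] (Idx n → ℝ)),
      (∀ F, EN m (q F) ≤ 1000 * ∑ k, F k ^ 4) ∧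
      (∀ ξ, ∃ F, q F = ξ ∧ ∑ k, F k ^ 4 ≤ 1000 * EN m ξ) := by
  obtain ⟨Λ1, _, _, M1, hG1⟩ := good1 n m hm
  obtain ⟨Λ2, _, _, M2, hG2⟩ := good2 n m hm
  obtain ⟨c1, hc1, hc1'⟩ := quot_c (Fintype.card (Λ1 × (Idx n → Bool)) : ℝ)
    (by exact_mod_cast Fintype.card_pos)
  obtain ⟨c2, hc2, hc2'⟩ := quot_c (Fintype.card (Λ2 × (Idx n → Bool)) : ℝ)
    (by exact_mod_cast Fintype.card_pos)
  let q : ((Λ1 × (Idx n → Bool)) ⊕ (Λ2 × (Idx n → Bool)) → ℝ) →ₗ[ℝ] (Idx n → ℝ) :=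
    { toFun := fun F i => PiM m M1 (fun z => c1 * F (Sum.inl z)) i +
        PiM m M2 (fun z => c2 * F (Sum.inr z)) i
      map_add' := by
        intro F G
        funext i
        simp only [Pi.add_apply, mul_add]
        rw [quot_PiM_add, quot_PiM_add]
        ring
      map_smul' := by
        intro c F
        funext i
        simp only [Pi.smul_apply, smul_eq_mul, RingHom.id_apply]
        simp only [quot_PiM_smul]
        ring }
  refine ⟨(Λ1 × (Idx n → Bool)) ⊕ (Λ2 × (Idx n → Bool)), inferInstance, inferInstance, q, ?_, ?_⟩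
  · intro F
    have h1 : EN m (q F) ≤ 8 * (EN m (PiM m M1 (fun z => c1 * F (Sum.inl z))) +
        EN m (PiM m M2 (fun z => c2 * F (Sum.inr z)))) := quot_EN_add m _ _
    have h2 := quot_EN_Pi hn hm hG1 quot_psi1_le
      (fun T => (quot_psi1_le T).trans (quot_psi_le T)) (fun z => c1 * F (Sum.inl z))
    have h3 := quot_EN_Pi hn hm hG2 quot_psi2_le
      (fun T => (quot_psi2_le T).trans (quot_psi_le T)) (fun z => c2 * F (Sum.inr z))
    rw [quot_Av c1 hc1' (fun z => F (Sum.inl z))] at h2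
    rw [quot_Av c2 hc2' (fun z => F (Sum.inr z))] at h3
    rw [Fintype.sum_sum_type]
    have h4 : 0 ≤ ∑ z, F (Sum.inl z) ^ 4 := Finset.sum_nonneg (fun z _ => by positivity)
    have h5 : 0 ≤ ∑ z, F (Sum.inr z) ^ 4 := Finset.sum_nonneg (fun z _ => by positivity)
    linarith
  · intro ξ
    have hv : ∀ i, 0 ≤ ξ i ^ 2 := fun i => sq_nonneg _
    have hNT : ∀ T, 0 ≤ NT T (fun i => ξ i ^ 2) := fun T => (NT_basic T _ hv).1
    have hterm : ∀ T : Finset (Fin 4), 0 ≤ (1 / (m : ℝ)) ^ (psi T) * NT T (fun i => ξ i ^ 2) :=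
      fun T => mul_nonneg (by positivity) (hNT T)
    have he : 0 ≤ EN m ξ := Finset.sum_nonneg (fun T _ => hterm T)
    have hm0 : (0 : ℝ) < m := by exact_mod_cast hm
    have hκ : (√(EN m ξ)) ^ 2 = EN m ξ := Real.sq_sqrt he
    obtain ⟨B, hB1, hB2⟩ := split m hm (fun i => ξ i ^ 2) hv (√(EN m ξ)) (Real.sqrt_nonneg _) (by
      intro T
      rw [hκ]
      have h1 : (1 / (m : ℝ)) ^ (psi T) * NT T (fun i => ξ i ^ 2) ≤ EN m ξ :=
        Finset.single_le_sum (f := fun T : Finset (Fin 4) =>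
          (1 / (m : ℝ)) ^ (psi T) * NT T (fun i => ξ i ^ 2)) (fun T _ => hterm T)
          (Finset.mem_univ T)
      calc NT T (fun i => ξ i ^ 2)
          = ((1 / (m : ℝ)) ^ (psi T) * NT T (fun i => ξ i ^ 2)) * (m : ℝ) ^ (psi T) := by
            have : (1 / (m : ℝ)) ^ (psi T) * (m : ℝ) ^ (psi T) = 1 := by
              rw [← mul_pow, one_div, inv_mul_cancel₀ hm0.ne', one_pow]
            calc NT T (fun i => ξ i ^ 2)
                = ((1 / (m : ℝ)) ^ (psi T) * (m : ℝ) ^ (psi T)) * NT T (fun i => ξ i ^ 2) := by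
                  rw [this, one_mul]
              _ = _ := by ring
        _ ≤ EN m ξ * (m : ℝ) ^ (psi T) := by gcongr)
    rw [hκ] at hB1 hB2
    set ξ1 : Idx n → ℝ := fun i => if (i 2, i 3) ∈ B then 0 else ξ i with hξ1
    set ξ2 : Idx n → ℝ := fun i => if (i 2, i 3) ∈ B then ξ i else 0 with hξ2
    have e1 : (fun i => ξ1 i ^ 2) = fun i => if (i 2, i 3) ∈ B then 0 else ξ i ^ 2 := by
      funext i
      simp only [hξ1]
      split_ifs <;> simp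
    have e2 : (fun i => ξ2 i ^ 2) = fun i => if (i 2, i 3) ∈ B then ξ i ^ 2 else 0 := by
      funext i
      simp only [hξ2]
      split_ifs <;> simp
    have l1 := quot_lift hm hG1 ξ1 (EN m ξ) (by rw [e1]; exact hB1)
    have l2 := quot_lift hm hG2 ξ2 (EN m ξ) (by rw [e2]; exact hB2)
    refine ⟨Sum.elim (fun z => c1⁻¹ * LfM m M1 ξ1 z) (fun z => c2⁻¹ * LfM m M2 ξ2 z), ?_, ?_⟩
    · funext i
      show PiM m M1 (fun z => c1 * (c1⁻¹ * LfM m M1 ξ1 z)) i +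
        PiM m M2 (fun z => c2 * (c2⁻¹ * LfM m M2 ξ2 z)) i = ξ i
      have f1 : (fun z => c1 * (c1⁻¹ * LfM m M1 ξ1 z)) = LfM m M1 ξ1 := by
        funext z
        rw [mul_inv_cancel_left₀ hc1.ne']
      have f2 : (fun z => c2 * (c2⁻¹ * LfM m M2 ξ2 z)) = LfM m M2 ξ2 := by
        funext z
        rw [mul_inv_cancel_left₀ hc2.ne']
      rw [f1, f2, PiLf hm hG1, PiLf hm hG2]
      simp only [hξ1, hξ2]
      split_ifs <;> simp
    · rw [Fintype.sum_sum_type]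
      simp only [Sum.elim_inl, Sum.elim_inr]
      rw [← quot_Av c1 hc1' (fun z => c1⁻¹ * LfM m M1 ξ1 z),
        ← quot_Av c2 hc2' (fun z => c2⁻¹ * LfM m M2 ξ2 z)]
      simp only [mul_inv_cancel_left₀ hc1.ne', mul_inv_cancel_left₀ hc2.ne']
      linarith

end

end Pool.EQ
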