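import Pool.Agent.Helper364.EQ.Defs
import Pool.Agent.Helper364.EQ.P_EN_EN4
import Pool.Agent.Helper364.EQ.P_NT_basic
import Pool.Agent.Helper364.EQ.P_quot
import Pool.Agent.Helper364.EQ.P_fac
import Pool.Agent.Helper364.EQ.P_glue_S
import Pool.Agent.Helper364.EQ.P_glue_Q
import Pool.Agent.Helper364.EQ.P_glue_inf
import Pool.Agent.Helper364.EQ.P_glue_fac
set_option autoImplicit false
set_option linter.unusedVariables false

open Finset
open scoped ENNReal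

namespace Pool.EQ

noncomputable section

/-- index set of the embedding into `ℓ_4` -/
abbrev KX (n : ℕ) := Finset (Fin 4) × Idx n × (Idx n → Bool)

/-- weights -/
def cT (n m : ℕ) (T : Finset (Fin 4)) : ℝ :=
  (((1 / (m : ℝ)) ^ (psi T) * (1 / (n : ℝ)) ^ T.card) / (Fintype.card (Idx n → Bool) : ℝ)) ^ ((1 : ℝ) / 4)

theorem cT_pow (n m : ℕ) (T : Finset (Fin 4)) :
    cT n m T ^ 4 = ((1 / (m : ℝ)) ^ (psi T) * (1 / (n : ℝ)) ^ T.card) / (Fintype.card (Idx n → Bool) : ℝ) := by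
  unfold cT
  rw [← Real.rpow_natCast, ← Real.rpow_mul (by positivity)]
  norm_num

/-- the embedding -/
def jmap (n m : ℕ) : (Idx n → ℝ) →ₗ[ℝ] (KX n → ℝ) where
  toFun ξ k := cT n m k.1 * ∑ i ∈ slc k.1 k.2.1, sg (k.2.2 i) * ξ i
  map_add' x y := by
    ext k
    simp only [Pi.add_apply, mul_add, Finset.sum_add_distrib]
  map_smul' c x := by
    ext k
    simp only [Pi.smul_apply, smul_eq_mul, RingHom.id_apply, Finset.mul_sum]
    apply Finset.sum_congr rfl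
    intro i _
    ring

theorem jmap_norm (n m : ℕ) (ξ : Idx n → ℝ) : ∑ k, (jmap n m ξ k) ^ 4 = EN4 m ξ := by
  unfold EN4 Av
  rw [Fintype.sum_prod_type]
  apply Finset.sum_congr rfl
  intro T _
  rw [Fintype.sum_prod_type, Finset.mul_sum, Finset.mul_sum]
  apply Finset.sum_congr rfl
  intro a _
  have : ∀ ε : Idx n → Bool, (jmap n m ξ (T, a, ε)) ^ 4 = cT n m T ^ 4 * (∑ i ∈ slc T a, sg (ε i) * ξ i) ^ 4 := by
    intro ε
    show (cT n m T * ∑ i ∈ slc T a, sg (ε i) * ξ i) ^ 4 = _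
    rw [mul_pow]
  rw [Finset.sum_congr rfl (fun ε _ => this ε), ← Finset.mul_sum, cT_pow]
  ring

theorem jmap_inj (n m : ℕ) (hn : 1 ≤ n) (hm : 1 ≤ m) : Function.Injective (jmap n m) := by
  rw [← LinearMap.ker_eq_bot, LinearMap.ker_eq_bot']
  intro ξ h
  have h1 : EN4 m ξ = 0 := by
    rw [← jmap_norm n m ξ, h]; simp
  have h2 := (EN_EN4 hn m ξ).1
  have h3 : NT ∅ (fun i => ξ i ^ 2) ≤ EN m ξ := by
    unfold EN
    have := Finset.single_le_sum (f := fun T : Finset (Fin 4) => (1 / (m : ℝ)) ^ (psi T) * NT T (fun i => ξ i ^ 2))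
      (s := univ) (fun T _ => mul_nonneg (by positivity) (NT_basic T _ (fun i => sq_nonneg _)).1)
      (Finset.mem_univ ∅)
    simpa [psi] using this
  have h4 := (NT_basic ∅ (fun i => ξ i ^ 2) (fun i => sq_nonneg _)).2.2.2.2.2.1
  have h5 : ∑ i, (ξ i ^ 2) ^ 2 ≤ 0 := by
    rw [← h4]; linarith
  funext i
  have h6 : (ξ i ^ 2) ^ 2 ≤ 0 := le_trans (Finset.single_le_sum (f := fun i => (ξ i ^ 2) ^ 2)
    (fun i _ => by positivity) (Finset.mem_univ i)) h5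
  have h7 : (ξ i ^ 2) ^ 2 = 0 := le_antisymm h6 (by positivity)
  have h8 : ξ i = 0 := by
    have := pow_eq_zero_iff (n := 2) (by norm_num) |>.mp h7
    exact pow_eq_zero_iff (n := 2) (by norm_num) |>.mp this
  simpa using h8

/-- the spaces -/
def XE (m : ℕ) : Type := Idx ((m + 2) ^ 4) → ℝ

instance (m : ℕ) : AddCommGroup (XE m) := inferInstanceAs (AddCommGroup (Idx ((m + 2) ^ 4) → ℝ))
instance (m : ℕ) : Module ℝ (XE m) := inferInstanceAs (Module ℝ (Idx ((m + 2) ^ 4) → ℝ))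

/-- the embedding as a map into `PiLp` -/
def jE (m : ℕ) : XE m →ₗ[ℝ] PiLp 4 (fun _ : KX ((m + 2) ^ 4) => ℝ) :=
  (WithLp.linearEquiv 4 ℝ (KX ((m + 2) ^ 4) → ℝ)).symm.toLinearMap ∘ₗ
    (jmap ((m + 2) ^ 4) (m + 2) : (Idx ((m + 2) ^ 4) → ℝ) →ₗ[ℝ] _)

theorem jE_inj (m : ℕ) : Function.Injective (jE m) := by
  intro x y h
  have h1 : jmap ((m + 2) ^ 4) (m + 2) x = jmap ((m + 2) ^ 4) (m + 2) y :=
    (WithLp.linearEquiv 4 ℝ (KX ((m + 2) ^ 4) → ℝ)).symm.injective h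
  exact jmap_inj ((m + 2) ^ 4) (m + 2) (Nat.one_le_pow _ _ (by omega)) (by omega) h1

instance (m : ℕ) : NormedAddCommGroup (XE m) := NormedAddCommGroup.induced (XE m)
  (PiLp 4 (fun _ : KX ((m + 2) ^ 4) => ℝ)) (jE m) (jE_inj m)

instance (m : ℕ) : NormedSpace ℝ (XE m) := NormedSpace.induced ℝ (XE m)
  (PiLp 4 (fun _ : KX ((m + 2) ^ 4) => ℝ)) (jE m)

theorem XE_norm (m : ℕ) (x : XE m) : ‖x‖ ^ 4 = EN4 (m + 2) (x : Idx ((m + 2) ^ 4) → ℝ) := by
  have h : ‖x‖ = ‖jE m x‖ := rfl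
  rw [h, PiLp.norm_eq_sum (by norm_num), ← jmap_norm]
  rw [show ((4 : ℝ≥0∞).toReal) = 4 by norm_num]
  rw [← Real.rpow_natCast, ← Real.rpow_mul (by positivity)]
  norm_num
  apply Finset.sum_congr rfl
  intro k _
  have : (jE m x).ofLp k = jmap ((m + 2) ^ 4) (m + 2) x k := rfl
  rw [this]
  exact Even.pow_abs (by decide) _

instance (m : ℕ) : FiniteDimensional ℝ (XE m) :=
  inferInstanceAs (FiniteDimensional ℝ (Idx ((m + 2) ^ 4) → ℝ))

instance (m : ℕ) : CompleteSpace (XE m) := FiniteDimensional.complete ℝ (XE m)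

instance (m : ℕ) : Nontrivial (XE m) := by
  have : NeZero ((m + 2) ^ 4) := ⟨by positivity⟩
  have : Nonempty (Idx ((m + 2) ^ 4)) := ⟨fun _ => 0⟩
  exact inferInstanceAs (Nontrivial (Idx ((m + 2) ^ 4) → ℝ))

/-- there is a space that is both a subspace and a quotient of `ℓ_4` but not isomorphic to `ℓ_4` -/
theorem final :
    ¬ (∀ (p : ℝ≥0∞) [Fact (1 ≤ p)], 1 < p → p ≠ ⊤ →
      ∀ (X : Type) [NormedAddCommGroup X] [NormedSpace ℝ X] [CompleteSpace X],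
        ¬ FiniteDimensional ℝ X →
        (∃ S : Submodule ℝ (lp (fun _ : ℕ => ℝ) p), Nonempty (X ≃L[ℝ] S)) →
        (∃ T : lp (fun _ : ℕ => ℝ) p →L[ℝ] X, Function.Surjective T) →
        Nonempty (X ≃L[ℝ] lp (fun _ : ℕ => ℝ) p)) := by
  intro h
  have hn : ∀ m : ℕ, 1 ≤ (m + 2) ^ 4 := fun m => Nat.one_le_pow _ _ (by omega)
  have hm : ∀ m : ℕ, 1 ≤ m + 2 := fun m => by omega
  have hS := glue_S (XX := XE) (fun m => KX ((m + 2) ^ 4))
    (fun m => (jmap ((m + 2) ^ 4) (m + 2) : (Idx ((m + 2) ^ 4) → ℝ) →ₗ[ℝ] _))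
    (fun m x => (jmap_norm _ _ _).trans (XE_norm m x).symm)
  choose K hF hN q hq hs using fun m : ℕ => quot (hn m) (hm m)
  have hQ := glue_Q (XX := XE) K (fun m => (q m : (K m → ℝ) →ₗ[ℝ] (Idx ((m + 2) ^ 4) → ℝ))) 3000
    (fun m F => by
      rw [XE_norm]
      have h1 := (EN_EN4 (hn m) (m + 2) (q m F)).2
      have h2 := hq m F
      exact le_trans h1 (by linarith))
    (fun m x => by
      obtain ⟨F, h1, h2⟩ := hs m x
      refine ⟨F, h1, ?_⟩
      rw [XE_norm]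
      have h3 := (EN_EN4 (hn m) (m + 2) (x : Idx ((m + 2) ^ 4) → ℝ)).1
      have h4 : 0 ≤ ‖x‖ ^ 4 := by positivity
      rw [XE_norm] at h4
      have h5 : (1000 : ℝ) * EN (m + 2) (x : Idx ((m + 2) ^ 4) → ℝ) ≤
          3000 * EN4 (m + 2) (x : Idx ((m + 2) ^ 4) → ℝ) := by linarith
      exact le_trans h2 h5)
  obtain ⟨Φ⟩ := h 4 (by norm_num) (by norm_num) (lp XE 4) glue_inf hS hQ
  obtain ⟨C, hC, hfac⟩ := glue_fac Φ
  have key : ∀ m : ℕ, Real.log ((m + 2 : ℕ) : ℝ) ≤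
      22 * (Real.log (48 * C ^ 4) + 3 * Real.log (3 * C ^ 2) + 4 * Real.log 2) := by
    intro m
    obtain ⟨J, P, hPJ, hJ, hP⟩ := hfac m
    refine fac (n := (m + 2) ^ 4) (hm m) le_rfl C hC J P hPJ ?_ ?_
    · intro ξ
      have h1 := pow_le_pow_left₀ (norm_nonneg _) (hJ ξ) 4
      rw [mul_pow, XE_norm m] at h1
      exact h1
    · intro y
      have h1 := pow_le_pow_left₀ (norm_nonneg _) (hP y) 4
      rw [mul_pow, XE_norm m] at h1
      exact h1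
  have h1 : Filter.Tendsto (fun m : ℕ => Real.log ((m + 2 : ℕ) : ℝ)) Filter.atTop Filter.atTop :=
    Real.tendsto_log_atTop.comp (tendsto_natCast_atTop_atTop.comp (Filter.tendsto_add_atTop_nat 2))
  obtain ⟨m, hm1⟩ := (h1.eventually (Filter.eventually_gt_atTop
    (22 * (Real.log (48 * C ^ 4) + 3 * Real.log (3 * C ^ 2) + 4 * Real.log 2)))).exists
  exact absurd (key m) (not_le.mpr hm1)

end

end Pool.EQ
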